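import Pool.Agent.Lib.MP_edb5be_nt.TS.Iface
import Pool.Agent.Lib.MP_edb5be_nt.ND.H82.KStep

/-!
Project TS: elementary facts for the joint law.
-/

set_option autoImplicit false

namespace Pool.Agent.Lib.MP_edb5be_nt.TS.H58

open Finset Filter Topology Pool.Agent.Lib.MP_0a5adf_nt.TP Pool.Agent.Lib.MP_edb5be_nt.ND
  Pool.Agent.Lib.MP_edb5be_nt.ND.H82 Pool.Agent.Lib.MP_edb5be_nt.TS

/-- base 2 logarithm -/
noncomputable def lg (n : ℕ) : ℝ := Real.logb 2 n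

theorem T_pos {d : Bool} {n : ℕ} (h : 0 < n) : 0 < T d n := by
  unfold T
  split_ifs <;> omega

theorem iter_pos {d : Bool} {n : ℕ} (h : 0 < n) (k : ℕ) : 0 < (T d)^[k] n := by
  induction k with
  | zero => exact h
  | succ k ih =>
    rw [Function.iterate_succ_apply']
    exact T_pos ih

theorem T_up {d : Bool} {n : ℕ} (h : 0 < n) : T d n ≤ 2 * n := by
  unfold T
  split_ifs <;> omega

theorem T_lo {d : Bool} (n : ℕ) : n ≤ 2 * T d n := by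
  unfold T
  split_ifs <;> omega

theorem lg_T {d : Bool} {n : ℕ} (h : 0 < n) : |lg (T d n) - lg n| ≤ 1 := by
  have h1 : (0 : ℝ) < n := by exact_mod_cast h
  have h2 : (0 : ℝ) < T d n := by exact_mod_cast T_pos h
  have h3 : (T d n : ℝ) ≤ 2 * n := by exact_mod_cast T_up h
  have h4 : (n : ℝ) ≤ 2 * T d n := by exact_mod_cast T_lo n
  unfold lg
  have e : ∀ x : ℝ, 0 < x → Real.logb 2 (2 * x) = 1 + Real.logb 2 x := by
    intro x hx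
    rw [Real.logb_mul (by norm_num) hx.ne', Real.logb_self_eq_one (by norm_num)]
  have h5 := (Real.logb_le_logb (by norm_num : (1 : ℝ) < 2) h2 (by positivity)).2 h3
  have h6 := (Real.logb_le_logb (by norm_num : (1 : ℝ) < 2) h1 (by positivity)).2 h4
  rw [e _ h1] at h5
  rw [e _ h2] at h6
  rw [abs_le]
  constructor <;> linarith

theorem lg_iter {d : Bool} {n : ℕ} (h : 0 < n) (k : ℕ) : |lg ((T d)^[k] n) - lg n| ≤ k := by
  induction k with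
  | zero => simp
  | succ k ih =>
    have h1 := lg_T (d := d) (iter_pos (d := d) h k)
    rw [Function.iterate_succ_apply']
    have h2 := abs_sub_le (lg (T d ((T d)^[k] n))) (lg ((T d)^[k] n)) (lg n)
    push_cast
    linarith

theorem lg_iter2 {d : Bool} {n : ℕ} (h : 0 < n) {k l : ℕ} (hkl : k ≤ l) :
    |lg ((T d)^[l] n) - lg ((T d)^[k] n)| ≤ (l - k : ℕ) := by
  have h1 := lg_iter (d := d) (iter_pos (d := d) h k) (l - k)
  rw [← Function.iterate_add_apply, Nat.sub_add_cancel hkl] at h1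
  exact h1

theorem lg_of_mem {x : ℝ} {n : ℕ} (h1 : (2 : ℝ) ^ x ≤ n) (h2 : (n : ℝ) < 2 ^ (x + 1)) :
    0 < n ∧ x ≤ lg n ∧ lg n < x + 1 := by
  have h0 : (0 : ℝ) < n := lt_of_lt_of_le (by positivity) h1
  refine ⟨by exact_mod_cast h0, ?_, ?_⟩
  · unfold lg
    rw [Real.le_logb_iff_rpow_le (by norm_num) h0]
    exact h1
  · unfold lg
    rw [Real.logb_lt_iff_lt_rpow (by norm_num) h0]
    exact h2

theorem fin_blk (x : ℝ) (P : ℕ → Prop) :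
    {N : ℕ | P N ∧ (2 : ℝ) ^ x ≤ N ∧ (N : ℝ) < 2 ^ (x + 1)}.Finite := by
  refine (Set.finite_lt_nat ⌈(2 : ℝ) ^ (x + 1)⌉₊).subset ?_
  rintro N ⟨-, -, h⟩
  show N < ⌈(2 : ℝ) ^ (x + 1)⌉₊
  exact Nat.lt_ceil.2 h

/-- monotonicity in blocks -/
theorem Gd_mono {B B' : Set ℕ} {x : ℝ}
    (h : ∀ n : ℕ, (2 : ℝ) ^ x ≤ n → (n : ℝ) < 2 ^ (x + 1) → n ∈ B → n ∈ B') : Gd B x ≤ Gd B' x := by
  unfold Gd
  apply div_le_div_of_nonneg_right _ (by positivity)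
  have : {N : ℕ | N ∈ B ∧ (2 : ℝ) ^ x ≤ N ∧ (N : ℝ) < 2 ^ (x + 1)} ⊆
      {N : ℕ | N ∈ B' ∧ (2 : ℝ) ^ x ≤ N ∧ (N : ℝ) < 2 ^ (x + 1)} := by
    rintro N ⟨h1, h2, h3⟩
    exact ⟨h N h2 h3 h1, h2, h3⟩
  exact_mod_cast Set.ncard_le_ncard this (fin_blk x _)

theorem Gd_congr {B B' : Set ℕ} {x : ℝ}
    (h : ∀ n : ℕ, (2 : ℝ) ^ x ≤ n → (n : ℝ) < 2 ^ (x + 1) → (n ∈ B ↔ n ∈ B')) :
    Gd B x = Gd B' x :=
  le_antisymm (Gd_mono fun n h1 h2 => (h n h1 h2).1) (Gd_mono fun n h1 h2 => (h n h1 h2).2)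

theorem Gd_nonneg (B : Set ℕ) (x : ℝ) : 0 ≤ Gd B x := by
  unfold Gd
  positivity

theorem Gd_le (B : Set ℕ) (x : ℝ) : Gd B x ≤ 3 := by
  unfold Gd
  rw [div_le_iff₀ (by positivity)]
  rcases lt_or_ge (2 * (2 : ℝ) ^ x) 1 with h0 | h0
  · have h1 : {N : ℕ | N ∈ B ∧ (2 : ℝ) ^ x ≤ N ∧ (N : ℝ) < 2 ^ (x + 1)} = ∅ := by
      rw [Set.eq_empty_iff_forall_notMem]
      rintro N ⟨-, h1, h2⟩
      rw [Real.rpow_add (by norm_num), Real.rpow_one] at h2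
      have h3 : (0 : ℝ) < N := lt_of_lt_of_le (by positivity) h1
      have h4 : (1 : ℝ) ≤ N := by exact_mod_cast (by exact_mod_cast h3 : 0 < N)
      linarith
    rw [h1, Set.ncard_empty]
    simp only [Nat.cast_zero]
    positivity
  · have hsub : {N : ℕ | N ∈ B ∧ (2 : ℝ) ^ x ≤ N ∧ (N : ℝ) < 2 ^ (x + 1)} ⊆
        (Finset.Ico ⌈(2 : ℝ) ^ x⌉₊ ⌈(2 : ℝ) ^ (x + 1)⌉₊ : Finset ℕ) := by
      rintro N ⟨-, h1, h2⟩
      rw [Finset.coe_Ico]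
      exact ⟨Nat.ceil_le.2 h1, Nat.lt_ceil.2 h2⟩
    have h1 := Set.ncard_le_ncard hsub (Finset.finite_toSet _)
    rw [Set.ncard_coe_finset, Nat.card_Ico] at h1
    have h2 : (({N : ℕ | N ∈ B ∧ (2 : ℝ) ^ x ≤ N ∧ (N : ℝ) < 2 ^ (x + 1)}.ncard : ℕ) : ℝ) ≤
        ((⌈(2 : ℝ) ^ (x + 1)⌉₊ - ⌈(2 : ℝ) ^ x⌉₊ : ℕ) : ℝ) := by exact_mod_cast h1
    refine h2.trans ?_
    have h3 : (2 : ℝ) ^ (x + 1) = 2 * 2 ^ x := by
      rw [Real.rpow_add (by norm_num), Real.rpow_one]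
      ring
    have h4 : ⌈(2 : ℝ) ^ x⌉₊ ≤ ⌈(2 : ℝ) ^ (x + 1)⌉₊ := by
      apply Nat.ceil_le_ceil
      rw [h3]
      have : (0 : ℝ) < 2 ^ x := by positivity
      linarith
    rw [Nat.cast_sub h4]
    have h5 : (⌈(2 : ℝ) ^ (x + 1)⌉₊ : ℝ) < 2 ^ (x + 1) + 1 := Nat.ceil_lt_add_one (by positivity)
    have h6 : (2 : ℝ) ^ x ≤ ⌈(2 : ℝ) ^ x⌉₊ := Nat.le_ceil _
    linarith

theorem Gd_union {A B B' : Set ℕ} {x : ℝ}
    (h : ∀ n : ℕ, (2 : ℝ) ^ x ≤ n → (n : ℝ) < 2 ^ (x + 1) → n ∈ A → n ∈ B ∨ n ∈ B') :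
    Gd A x ≤ Gd B x + Gd B' x := by
  unfold Gd
  rw [← add_div]
  apply div_le_div_of_nonneg_right _ (by positivity)
  have : {N : ℕ | N ∈ A ∧ (2 : ℝ) ^ x ≤ N ∧ (N : ℝ) < 2 ^ (x + 1)} ⊆
      {N : ℕ | N ∈ B ∧ (2 : ℝ) ^ x ≤ N ∧ (N : ℝ) < 2 ^ (x + 1)} ∪
      {N : ℕ | N ∈ B' ∧ (2 : ℝ) ^ x ≤ N ∧ (N : ℝ) < 2 ^ (x + 1)} := by
    rintro N ⟨h1, h2, h3⟩
    rcases h N h2 h3 h1 with h4 | h4
    · exact Or.inl ⟨h4, h2, h3⟩
    · exact Or.inr ⟨h4, h2, h3⟩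
  have h1 := (Set.ncard_le_ncard this ((fin_blk x _).union (fin_blk x _))).trans
    (Set.ncard_union_le _ _)
  exact_mod_cast h1

/-- De Moivre, with explicit neighbourhoods -/
theorem binCLTe (z ε : ℝ) (hε : 0 < ε) : ∃ J₀ : ℕ, 1 ≤ J₀ ∧ ∀ (J : ℕ) (a : ℝ), J₀ ≤ J →
    |(2 * a - J) / √J - z| ≤ ε / 2 →
    |∑ v ∈ (range (J + 1)).filter (fun v : ℕ => (v : ℝ) ≤ a), bw J v - PhiG z| ≤ ε := by
  classical
  have h1 := binCLT₀ (z - ε / 2)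
  have h2 := binCLT₀ (z + ε / 2)
  rw [Metric.tendsto_nhds] at h1 h2
  have h3 := (h1 (ε / 2) (by linarith)).and ((h2 (ε / 2) (by linarith)).and
    (eventually_ge_atTop 1))
  obtain ⟨J₀, hJ⟩ := eventually_atTop.1 h3
  refine ⟨max J₀ 1, le_max_right _ _, ?_⟩
  intro J a hJ0 ha
  obtain ⟨hx1, hx2, hx4⟩ := hJ J ((le_max_left _ _).trans hJ0)
  rw [Real.dist_eq, abs_lt] at hx1 hx2
  rw [abs_le] at ha
  have hsq : 0 < √(J : ℝ) := Real.sqrt_pos.2 (by exact_mod_cast hx4)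
  have hsub1 : (range (J + 1)).filter (fun v : ℕ => (2 * (v : ℝ) - J) / √J ≤ z - ε / 2) ⊆
      (range (J + 1)).filter (fun v : ℕ => (v : ℝ) ≤ a) := by
    intro v hv
    rw [Finset.mem_filter] at hv ⊢
    refine ⟨hv.1, ?_⟩
    have h3 : (2 * (v : ℝ) - J) / √J ≤ (2 * a - J) / √J := by linarith [hv.2]
    rw [div_le_div_iff_of_pos_right hsq] at h3
    linarith
  have hsub2 : (range (J + 1)).filter (fun v : ℕ => (v : ℝ) ≤ a) ⊆
      (range (J + 1)).filter (fun v : ℕ => (2 * (v : ℝ) - J) / √J ≤ z + ε / 2) := by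
    intro v hv
    rw [Finset.mem_filter] at hv ⊢
    refine ⟨hv.1, ?_⟩
    have h3 : (2 * (v : ℝ) - J) / √J ≤ (2 * a - J) / √J := by
      rw [div_le_div_iff_of_pos_right hsq]
      linarith [hv.2]
    linarith
  have h3 := Finset.sum_le_sum_of_subset_of_nonneg hsub1 (f := bw J)
    (fun v _ _ => bwt_nonneg _ v)
  have h4 := Finset.sum_le_sum_of_subset_of_nonneg hsub2 (f := bw J)
    (fun v _ _ => bwt_nonneg _ v)
  have h5 := PhiG_lip (show z - ε / 2 ≤ z by linarith)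
  have h6 := PhiG_lip (show z ≤ z + ε / 2 by linarith)
  rw [abs_le]
  constructor <;> linarith

/-- the tails -/
theorem tails (K : ℕ) {Y : ℝ} (hY : 0 ≤ Y) :
    ∑ v ∈ (range (K + 1)).filter (fun v : ℕ => Y ≤ |th * ((v : ℝ) - K / 2)|), bw K v ≤
      2 * Real.exp (-(2 * (Y / th) ^ 2 / K)) := by
  have hth := thp
  have h1 := Pool.Agent.Lib.MP_0a5adf_nt.TP.H15.hoeff K (Y / th) (by positivity)
  have h2 : ∑ v ∈ (range (K + 1)).filter (fun k : ℕ => Y / th ≤ |(k : ℝ) - K / 2|), bw K v ≤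
      2 * Real.exp (-(2 * (Y / th) ^ 2 / K)) := by
    have h6 : ∑ v ∈ (range (K + 1)).filter (fun k : ℕ => Y / th ≤ |(k : ℝ) - K / 2|), bw K v =
        (∑ k ∈ (range (K + 1)).filter (fun k : ℕ => Y / th ≤ |(k : ℝ) - K / 2|),
          (K.choose k : ℝ)) / 2 ^ K := by
      unfold bw
      rw [Finset.sum_div]
    rw [h6, div_le_iff₀ (by positivity)]
    linarith
  refine le_trans (le_of_eq ?_) h2
  apply Finset.sum_congr _ (fun _ _ => rfl)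
  apply Finset.filter_congr
  intro v _
  rw [abs_mul, abs_of_pos hth, div_le_iff₀ hth, mul_comm]

end Pool.Agent.Lib.MP_edb5be_nt.TS.H58
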