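import Pool.Agent.Lib.MP_edb5be_nt.TS.H17.BC
import Pool.Agent.Lib.MP_edb5be_nt.TS.Iface2
import Pool.Agent.Lib.MP_edb5be_nt.ND.H21.Pv2
import Pool.Agent.Lib.MP_edb5be_nt.TS.H58.Basic

/-!
Project TS, row BCS: the first passages below `2 ^ a` are equidistributed modulo `2 ^ k` up to a
constant factor.
-/

set_option autoImplicit false

namespace Pool.Agent.Lib.MP_edb5be_nt.TS.H58

open Finset Filter Topology Pool.Agent.Lib.MP_0a5adf_nt.TP Pool.Agent.Lib.MP_edb5be_nt.ND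
  Pool.Agent.Lib.MP_edb5be_nt.TS

open Classical in
/-- The visits to `E` in `[2 ^ b, 2 ^ (b + 1))` are few of the visits to
`[2 ^ (b - 1), 2 ^ (b + 2))`. -/
theorem vis_le (hDy : DynStatement) (d : Bool) {L b i k P : ℕ} {E : Set ℕ}
    (hE : ∀ m n : ℕ, m ≡ n [MOD 2 ^ k] → (m ∈ E ↔ n ∈ E)) (hik : i + k + 3 ≤ L) (hb : 1 ≤ b)
    (hP : ((range (2 ^ k)).filter fun r => r ∈ E).card ≤ P) :
    ((Ico (2 ^ L) (2 ^ (L + 1))).filter fun N => (T d)^[i] N ∈ Ico (2 ^ b) (2 ^ (b + 1)) ∧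
      (T d)^[i] N ∈ E).card * 2 ^ k ≤
    P * ((Ico (2 ^ (L - 1)) (2 ^ (L + 2))).filter fun N =>
      (T d)^[i] N ∈ Ico (2 ^ (b - 1)) (2 ^ (b + 2))).card := by
  obtain ⟨F, hF⟩ : ∃ F, F = (Ico (2 ^ L) (2 ^ (L + 1))).filter fun N =>
      (T d)^[i] N ∈ Ico (2 ^ b) (2 ^ (b + 1)) ∧ (T d)^[i] N ∈ E := ⟨_, rfl⟩
  obtain ⟨G, hG⟩ : ∃ G, G = (Ico (2 ^ (L - 1)) (2 ^ (L + 2))).filter fun N =>
      (T d)^[i] N ∈ Ico (2 ^ (b - 1)) (2 ^ (b + 2)) := ⟨_, rfl⟩
  rw [← hF, ← hG]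
  obtain ⟨key, hkey⟩ : ∃ key : ℕ → ℕ × ℕ, key = fun N => (N % 2 ^ i, N / 2 ^ (i + k)) := ⟨_, rfl⟩
  obtain ⟨t, ht⟩ : ∃ t, t = F.image key := ⟨_, rfl⟩
  have hi0 : 0 < 2 ^ i := by positivity
  have hk0 : 0 < 2 ^ k := by positivity
  -- the dynamics, for numbers in one class modulo `2 ^ i`
  have hdyn : ∀ N N' : ℕ, N % 2 ^ i = N' % 2 ^ i →
      2 ^ i * (((T d)^[i] N' : ℤ) - ((T d)^[i] N : ℤ)) = 3 ^ (par d N i).card * ((N' : ℤ) - N) := by
    intro N N' h
    have h1 := (hDy.1 d N i).2.2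
    have h2 := (hDy.1 d N' i).2.2
    have h3 : par d N' i = par d N i := H17.par_mod d h.symm
    rw [h3] at h2
    linarith
  -- the fibres of `F`
  have hfibF : ∀ q ∈ t, (F.filter fun N => key N = q).card ≤ P := by
    intro q _
    refine le_trans ?_ hP
    apply Finset.card_le_card_of_injOn (fun N => (T d)^[i] N % 2 ^ k)
    · intro N hN
      rw [Finset.mem_coe, mem_filter, hF, mem_filter] at hN
      rw [Finset.mem_coe, mem_filter, mem_range]
      refine ⟨Nat.mod_lt _ hk0, (hE _ _ (Nat.mod_modEq _ _)).2 hN.1.2.2⟩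
    · intro N hN N' hN' hNN
      rw [Finset.mem_coe, mem_filter] at hN hN'
      have e1 : key N = key N' := by rw [hN.2, hN'.2]
      rw [hkey, Prod.mk.injEq] at e1
      obtain ⟨e2, e3⟩ := e1
      have h1 := hdyn N N' e2
      have h2 : ((2 ^ k : ℕ) : ℤ) ∣ ((T d)^[i] N' : ℤ) - ((T d)^[i] N : ℤ) :=
        (Nat.modEq_iff_dvd).1 (hNN : (T d)^[i] N ≡ (T d)^[i] N' [MOD 2 ^ k])
      have h3 : ((2 : ℤ) ^ (i + k)) ∣ 3 ^ (par d N i).card * ((N' : ℤ) - N) := by
        rw [← h1, pow_add]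
        push_cast at h2
        exact mul_dvd_mul_left _ h2
      have h4 : IsCoprime ((2 : ℤ) ^ (i + k)) (3 ^ (par d N i).card) := by
        apply IsCoprime.pow
        exact ⟨-1, 1, by norm_num⟩
      have h5 := h4.dvd_of_dvd_mul_left h3
      -- same quotient and same residue
      have h6 : N % 2 ^ (i + k) = N' % 2 ^ (i + k) := by
        have : N ≡ N' [MOD 2 ^ (i + k)] := by
          rw [Nat.modEq_iff_dvd]
          push_cast
          exact h5
        exact this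
      have h7 := Nat.mod_add_div N (2 ^ (i + k))
      have h8 := Nat.mod_add_div N' (2 ^ (i + k))
      rw [← h7, ← h8, h6, e3]
  have hcF : F.card ≤ P * t.card :=
    Finset.card_le_mul_card_image_of_maps_to (f := key) (fun N hN => by
      rw [ht]; exact mem_image_of_mem _ hN) P hfibF
  -- the fibres of `G`
  have hfibG : ∀ q ∈ t, 2 ^ k ≤ (G.filter fun N => key N = q).card := by
    intro q hq
    rw [ht, mem_image] at hq
    obtain ⟨N0, hN0, hq⟩ := hq
    rw [hF, mem_filter, mem_Ico, mem_Ico] at hN0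
    obtain ⟨⟨n1, n2⟩, ⟨m1, m2⟩, -⟩ := hN0
    obtain ⟨s, hs⟩ : ∃ s, s = (par d N0 i).card := ⟨_, rfl⟩
    -- the size of `3 ^ s`
    have h3s : 3 ^ s * 2 ^ k ≤ 2 ^ (b - 1) := by
      have h1 := (hDy.1 d N0 i).2.2
      have h2 := hDy.2.2.1 i (par d N0 i) (hDy.1 d N0 i).1
      rw [← hs] at h1 h2
      have h3 : (3 : ℤ) ^ s * ((N0 : ℤ) - 2 ^ i) ≤ 2 ^ i * ((T d)^[i] N0 : ℤ) := by
        have h4 : (num i (par d N0 i) : ℤ) + 2 ^ i ≤ 3 ^ s * 2 ^ i := by exact_mod_cast h2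
        have h5 : -(num i (par d N0 i) : ℤ) ≤ sg d * num i (par d N0 i) := by
          have : (0 : ℤ) ≤ num i (par d N0 i) := by positivity
          cases d <;> simp [sg] <;> linarith
        have h6 : (0 : ℤ) < 2 ^ i := by positivity
        linarith
      have h4 : (2 : ℤ) ^ (L - 1) ≤ (N0 : ℤ) - 2 ^ i := by
        have e1 : (2 : ℤ) ^ L = 2 * 2 ^ (L - 1) := by
          rw [← pow_succ']
          congr 1
          omega
        have e2 : (2 : ℤ) ^ i ≤ 2 ^ (L - 1) := pow_le_pow_right₀ (by norm_num) (by omega)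
        have e3 : (2 : ℤ) ^ L ≤ N0 := by exact_mod_cast n1
        linarith
      have h5 : (3 : ℤ) ^ s * 2 ^ (L - 1) < 2 ^ i * 2 ^ (b + 1) := by
        have e1 : (3 : ℤ) ^ s * 2 ^ (L - 1) ≤ 3 ^ s * ((N0 : ℤ) - 2 ^ i) :=
          mul_le_mul_of_nonneg_left h4 (by positivity)
        have e2 : (2 : ℤ) ^ i * ((T d)^[i] N0 : ℤ) < 2 ^ i * 2 ^ (b + 1) := by
          apply mul_lt_mul_of_pos_left _ (by positivity)
          exact_mod_cast m2
        linarith
      have h6 : (3 : ℕ) ^ s * 2 ^ k * 2 ^ (L - 1 - k) < 2 ^ (b - 1) * 2 ^ (L - 1 - k) := by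
        have e1 : (3 : ℕ) ^ s * 2 ^ k * 2 ^ (L - 1 - k) = 3 ^ s * 2 ^ (L - 1) := by
          rw [mul_assoc, ← pow_add]
          congr 2
          omega
        rw [e1]
        have e2 : (3 : ℕ) ^ s * 2 ^ (L - 1) < 2 ^ i * 2 ^ (b + 1) := by exact_mod_cast h5
        refine e2.trans_le ?_
        rw [← pow_add, ← pow_add]
        apply Nat.pow_le_pow_right (by norm_num)
        omega
      exact (Nat.lt_of_mul_lt_mul_right h6).le
    -- the numbers of the fibre
    obtain ⟨g, hg⟩ : ∃ g : ℕ → ℕ, g = fun y => N0 % 2 ^ i + 2 ^ i * y + 2 ^ (i + k) * (N0 / 2 ^ (i + k)) :=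
      ⟨_, rfl⟩
    have hlt : ∀ y < 2 ^ k, N0 % 2 ^ i + 2 ^ i * y < 2 ^ (i + k) := by
      intro y hy
      have h1 := Nat.mod_lt N0 hi0
      have h2 : 2 ^ i * (y + 1) ≤ 2 ^ i * 2 ^ k := Nat.mul_le_mul_left _ hy
      rw [pow_add]
      have h3 : 2 ^ i * (y + 1) = 2 ^ i * y + 2 ^ i := by ring
      omega
    have hgk : ∀ y < 2 ^ k, key (g y) = q := by
      intro y hy
      rw [← hq, hkey, hg]
      simp only [Prod.mk.injEq]
      constructor
      · have : 2 ^ (i + k) * (N0 / 2 ^ (i + k)) = 2 ^ i * (2 ^ k * (N0 / 2 ^ (i + k))) := by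
          rw [pow_add]
          ring
        rw [this, add_assoc, ← mul_add, Nat.add_mul_mod_self_left, Nat.mod_mod]
      · rw [Nat.add_mul_div_left _ _ (by positivity), Nat.div_eq_of_lt (hlt y hy), zero_add]
    have hgG : ∀ y < 2 ^ k, g y ∈ G := by
      intro y hy
      have h0 := Nat.mod_add_div N0 (2 ^ (i + k))
      have h0' := Nat.mod_lt N0 (show 0 < 2 ^ (i + k) by positivity)
      have h1 := hlt y hy
      have hgy : g y = N0 % 2 ^ i + 2 ^ i * y + 2 ^ (i + k) * (N0 / 2 ^ (i + k)) := by rw [hg]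
      have hL1 : 2 ^ (i + k) * 8 ≤ 2 ^ L := by
        have : 2 ^ (i + k) * 8 = 2 ^ (i + k + 3) := by rw [pow_add _ (i + k) 3]; norm_num
        rw [this]
        exact Nat.pow_le_pow_right (by norm_num) hik
      have hL2 : 2 ^ L = 2 * 2 ^ (L - 1) := by
        rw [← pow_succ']
        congr 1
        omega
      have hL3 : 2 ^ (L + 1) = 2 * 2 ^ L := by rw [pow_succ']
      have hL4 : 2 ^ (L + 2) = 4 * 2 ^ L := by rw [pow_add]; ring
      have hd1 : N0 < g y + 2 ^ (i + k) := by omega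
      have hd2 : g y < N0 + 2 ^ (i + k) := by omega
      have hmod : N0 % 2 ^ i = g y % 2 ^ i := by
        have h2 := hgk y hy
        rw [← hq, hkey, Prod.mk.injEq] at h2
        exact h2.1.symm
      have h2 := hdyn N0 (g y) hmod
      rw [← hs] at h2
      -- distance of the images
      have h3 : |((T d)^[i] (g y) : ℤ) - ((T d)^[i] N0 : ℤ)| ≤ 2 ^ (b - 1) := by
        have h4 : |(2 : ℤ) ^ i * (((T d)^[i] (g y) : ℤ) - ((T d)^[i] N0 : ℤ))| ≤
            3 ^ s * 2 ^ (i + k) := by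
          rw [h2, abs_mul, abs_of_nonneg (by positivity : (0 : ℤ) ≤ 3 ^ s)]
          apply mul_le_mul_of_nonneg_left _ (by positivity)
          have e1 : (N0 : ℤ) < g y + 2 ^ (i + k) := by exact_mod_cast hd1
          have e2 : (g y : ℤ) < N0 + 2 ^ (i + k) := by exact_mod_cast hd2
          rw [abs_le]
          constructor <;> linarith
        rw [abs_mul, abs_of_nonneg (by positivity : (0 : ℤ) ≤ 2 ^ i)] at h4
        have h5 : (3 : ℤ) ^ s * 2 ^ (i + k) ≤ 2 ^ i * 2 ^ (b - 1) := by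
          have e1 : (3 : ℤ) ^ s * 2 ^ k ≤ 2 ^ (b - 1) := by exact_mod_cast h3s
          have e2 : (3 : ℤ) ^ s * 2 ^ (i + k) = 2 ^ i * (3 ^ s * 2 ^ k) := by
            rw [pow_add]
            ring
          rw [e2]
          exact mul_le_mul_of_nonneg_left e1 (by positivity)
        exact le_of_mul_le_mul_left (h4.trans h5) (by positivity)
      have hb1 : 2 ^ b = 2 * 2 ^ (b - 1) := by
        rw [← pow_succ']
        congr 1
        omega
      have hb2 : 2 ^ (b + 1) = 2 * 2 ^ b := by rw [pow_succ']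
      have hb3 : 2 ^ (b + 2) = 4 * 2 ^ b := by rw [pow_add]; ring
      rw [abs_le] at h3
      obtain ⟨h4, h5⟩ := h3
      have h4' : (T d)^[i] N0 ≤ (T d)^[i] (g y) + 2 ^ (b - 1) := by
        have : ((T d)^[i] N0 : ℤ) ≤ (T d)^[i] (g y) + 2 ^ (b - 1) := by linarith
        exact_mod_cast this
      have h5' : (T d)^[i] (g y) ≤ (T d)^[i] N0 + 2 ^ (b - 1) := by
        have : ((T d)^[i] (g y) : ℤ) ≤ (T d)^[i] N0 + 2 ^ (b - 1) := by linarith
        exact_mod_cast this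
      rw [hG, mem_filter, mem_Ico, mem_Ico]
      refine ⟨⟨by omega, by omega⟩, by omega, by omega⟩
    have hginj : Set.InjOn g (range (2 ^ k)) := by
      intro y _ y' _ h
      rw [hg] at h
      simp only at h
      have h1 : 2 ^ i * y = 2 ^ i * y' := by omega
      exact Nat.eq_of_mul_eq_mul_left hi0 h1
    calc 2 ^ k = (range (2 ^ k)).card := (card_range _).symm
      _ = ((range (2 ^ k)).image g).card := (card_image_of_injOn hginj).symm
      _ ≤ _ := by
        apply card_le_card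
        intro N hN
        rw [mem_image] at hN
        obtain ⟨y, hy, rfl⟩ := hN
        rw [mem_range] at hy
        rw [mem_filter]
        exact ⟨hgG y hy, hgk y hy⟩
  have hcG : 2 ^ k * t.card ≤ G.card := by
    have h1 : 2 ^ k * t.card ≤ (G.filter fun N => key N ∈ t).card := by
      apply Finset.mul_card_image_le_card_of_maps_to (f := key) (fun N hN => (mem_filter.1 hN).2)
      intro q hq
      refine (hfibG q hq).trans (card_le_card ?_)
      intro N hN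
      rw [mem_filter] at hN
      rw [mem_filter, mem_filter]
      exact ⟨⟨hN.1, by rw [hN.2]; exact hq⟩, hN.2⟩
    exact h1.trans (card_filter_le _ _)
  calc F.card * 2 ^ k ≤ P * t.card * 2 ^ k := Nat.mul_le_mul_right _ hcF
    _ = P * (2 ^ k * t.card) := by ring
    _ ≤ P * G.card := Nat.mul_le_mul_left _ hcG

open Classical in
theorem visits_le (hV : PV2Statement) : ∃ (C : ℝ) (L₀ : ℕ), 0 < C ∧ ∀ (d : Bool) (L b : ℕ),
    L₀ ≤ L → 1 ≤ b → (∑ i ∈ range (94 * L / 100), (((Ico (2 ^ (L - 1)) (2 ^ (L + 2))).filter fun N =>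
      (T d)^[i] N ∈ Ico (2 ^ (b - 1)) (2 ^ (b + 2))).card : ℝ)) ≤ C * 2 ^ L := by
  obtain ⟨C, z₀, hC, h⟩ := hV
  refine ⟨24 * C, max (z₀ + 1) 200, by positivity, ?_⟩
  intro d L b hL hb
  have hL1 : z₀ + 1 ≤ L := (le_max_left _ _).trans hL
  have hL2 : 200 ≤ L := (le_max_right _ _).trans hL
  -- one block of starting points, one block of visits
  have key : ∀ (k z : ℕ), L - 1 ≤ z → z ≤ L + 1 →
      (∑ i ∈ range (94 * L / 100), (((Ico (2 ^ z) (2 ^ (z + 1))).filter fun N =>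
        (T d)^[i] N ∈ blk k 1).card : ℝ)) ≤ C * 2 ^ z := by
    intro k z hz1 hz2
    have h1 := h d k z (by omega)
    refine le_trans ?_ h1
    have h2 : (∑ i ∈ range (94 * L / 100), (((Ico (2 ^ z) (2 ^ (z + 1))).filter fun N =>
        (T d)^[i] N ∈ blk k 1).card : ℝ)) =
        ∑ N ∈ Ico (2 ^ z) (2 ^ (z + 1)),
          (((range (94 * L / 100)).filter fun i => (T d)^[i] N ∈ blk k 1).card : ℝ) := by
      simp only [card_filter, Nat.cast_sum]
      rw [sum_comm]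
    rw [h2]
    apply sum_le_sum
    intro N _
    have h3 : ((range (94 * L / 100)).filter fun i => (T d)^[i] N ∈ blk k 1).card ≤
        ((range (19 * z / 20)).filter fun i => (T d)^[i] N ∈ blk k 1).card := by
      apply card_le_card
      apply filter_subset_filter
      apply range_subset_range.2
      omega
    have h4 : (((range (94 * L / 100)).filter fun i => (T d)^[i] N ∈ blk k 1).card : ℝ) ≤
        (((range (19 * z / 20)).filter fun i => (T d)^[i] N ∈ blk k 1).card : ℝ) := by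
      exact_mod_cast h3
    refine h4.trans ?_
    have h5 : ∀ m : ℕ, (m : ℝ) ≤ (m : ℝ) ^ 2 := by
      intro m
      have : m ≤ m ^ 2 := Nat.le_self_pow (by norm_num) m
      exact_mod_cast this
    exact h5 _
  have hsub : ∀ i : ℕ, (((Ico (2 ^ (L - 1)) (2 ^ (L + 2))).filter fun N =>
      (T d)^[i] N ∈ Ico (2 ^ (b - 1)) (2 ^ (b + 2))).card : ℝ) ≤
      ∑ z ∈ Icc (L - 1) (L + 1), ∑ k ∈ Icc (b - 1) (b + 1),
        (((Ico (2 ^ z) (2 ^ (z + 1))).filter fun N => (T d)^[i] N ∈ blk k 1).card : ℝ) := by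
    intro i
    have h1 : ((Ico (2 ^ (L - 1)) (2 ^ (L + 2))).filter fun N =>
        (T d)^[i] N ∈ Ico (2 ^ (b - 1)) (2 ^ (b + 2))) ⊆
        (Icc (L - 1) (L + 1)).biUnion fun z => (Icc (b - 1) (b + 1)).biUnion fun k =>
          (Ico (2 ^ z) (2 ^ (z + 1))).filter fun N => (T d)^[i] N ∈ blk k 1 := by
      intro N hN
      rw [mem_filter, mem_Ico, mem_Ico] at hN
      obtain ⟨⟨n1, n2⟩, m1, m2⟩ := hN
      have hlog : ∀ (x p q : ℕ), 2 ^ p ≤ x → x < 2 ^ q → p ≤ Nat.log 2 x ∧ Nat.log 2 x < q ∧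
          2 ^ Nat.log 2 x ≤ x ∧ x < 2 ^ (Nat.log 2 x + 1) := by
        intro x p q h1 h2
        have hx : x ≠ 0 := by
          have : 0 < 2 ^ p := by positivity
          omega
        exact ⟨(Nat.le_log_iff_pow_le (by norm_num) hx).2 h1,
          (Nat.log_lt_iff_lt_pow (by norm_num) hx).2 h2, Nat.pow_log_le_self 2 hx,
          Nat.lt_pow_succ_log_self (by norm_num) x⟩
      obtain ⟨a1, a2, a3, a4⟩ := hlog N _ _ n1 n2
      obtain ⟨b1, b2, b3, b4⟩ := hlog _ _ _ m1 m2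
      rw [mem_biUnion]
      refine ⟨Nat.log 2 N, by rw [mem_Icc]; omega, ?_⟩
      rw [mem_biUnion]
      refine ⟨Nat.log 2 ((T d)^[i] N), by rw [mem_Icc]; omega, ?_⟩
      rw [mem_filter, mem_Ico]
      refine ⟨⟨a3, a4⟩, ?_⟩
      unfold blk
      rw [mem_Ico]
      exact ⟨b3, b4⟩
    have h2 := (card_le_card h1).trans (card_biUnion_le.trans (sum_le_sum fun z _ =>
      card_biUnion_le))
    exact_mod_cast h2
  calc (∑ i ∈ range (94 * L / 100), (((Ico (2 ^ (L - 1)) (2 ^ (L + 2))).filter fun N =>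
      (T d)^[i] N ∈ Ico (2 ^ (b - 1)) (2 ^ (b + 2))).card : ℝ))
      ≤ ∑ i ∈ range (94 * L / 100), ∑ z ∈ Icc (L - 1) (L + 1), ∑ k ∈ Icc (b - 1) (b + 1),
        (((Ico (2 ^ z) (2 ^ (z + 1))).filter fun N => (T d)^[i] N ∈ blk k 1).card : ℝ) :=
        sum_le_sum fun i _ => hsub i
    _ = ∑ z ∈ Icc (L - 1) (L + 1), ∑ k ∈ Icc (b - 1) (b + 1), ∑ i ∈ range (94 * L / 100),
        (((Ico (2 ^ z) (2 ^ (z + 1))).filter fun N => (T d)^[i] N ∈ blk k 1).card : ℝ) := by
        rw [sum_comm]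
        apply sum_congr rfl
        intro z _
        rw [sum_comm]
    _ ≤ ∑ z ∈ Icc (L - 1) (L + 1), ∑ k ∈ Icc (b - 1) (b + 1), C * 2 ^ (L + 1) := by
        apply sum_le_sum
        intro z hz
        apply sum_le_sum
        intro k _
        rw [mem_Icc] at hz
        refine (key k z hz.1 hz.2).trans ?_
        apply mul_le_mul_of_nonneg_left _ hC.le
        exact pow_le_pow_right₀ (by norm_num) hz.2
    _ ≤ 24 * C * 2 ^ L := by
        rw [sum_const, sum_const, Nat.card_Icc, Nat.card_Icc]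
        have e1 : L + 1 + 1 - (L - 1) = 3 := by omega
        have e2 : b + 1 + 1 - (b - 1) = 3 := by omega
        rw [e1, e2, pow_succ]
        have h8 : 0 ≤ C * (2 : ℝ) ^ L := by positivity
        have h9 : (3 : ℕ) • ((3 : ℕ) • (C * ((2 : ℝ) ^ L * 2))) = 18 * (C * 2 ^ L) := by
          rw [nsmul_eq_mul, nsmul_eq_mul]
          norm_num
          ring
        have h10 : 24 * C * (2 : ℝ) ^ L = 24 * (C * 2 ^ L) := by ring
        rw [h9, h10]
        linarith

open Classical in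
/-- heights up to `1.22 a` -/
theorem directS (hB : BadNStatement) (hP : PathStatement) (hDy : DynStatement)
    (hV : PV2Statement) (A : ℕ) :
    ∃ (K C : ℝ) (a₀ : ℕ), 0 < K ∧ 0 < C ∧ ∀ (d : Bool) (a k L : ℕ) (E : Set ℕ) (p : ℝ), a₀ ≤ a →
      k ≤ a / 20 → (∀ m n : ℕ, m ≡ n [MOD 2 ^ k] → (m ∈ E ↔ n ∈ E)) →
      (((range (2 ^ k)).filter fun r => r ∈ E).card : ℝ) ≤ p * 2 ^ k →
      a ≤ L + 1 → 100 * L ≤ 122 * a →
      (((Ico (2 ^ L) (2 ^ (L + 1))).filter fun N => N ∈ HB d a E).card : ℝ) ≤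
        2 ^ L * (K * p + C / a ^ A) := by
  obtain ⟨K, L₀, hK, hvis⟩ := visits_le hV
  refine ⟨K, 4 * (A + 1).factorial * 160000 ^ (A + 1), max (L₀ + 1) 5000, hK, by positivity, ?_⟩
  intro d a k L E p ha hk hE hp haL hL
  have ha1 : L₀ + 1 ≤ a := (le_max_left _ _).trans ha
  have ha2 : 5000 ≤ a := (le_max_right _ _).trans ha
  have hp0 : 0 ≤ p := by
    have h1 : (0 : ℝ) ≤ p * 2 ^ k := le_trans (Nat.cast_nonneg _) hp
    exact nonneg_of_mul_nonneg_left h1 (by positivity)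
  obtain ⟨I, hI⟩ : ∃ I, I = 94 * L / 100 := ⟨_, rfl⟩
  obtain ⟨J, hJ⟩ : ∃ J, J = I - 1 := ⟨_, rfl⟩
  have haR : (5000 : ℝ) ≤ a := by exact_mod_cast ha2
  have hnum : (L : ℝ) + 2 - mu * J + th * ((a / 100 : ℕ) : ℝ) / 2 ≤ a := by
    have e1 : (94 : ℝ) * L ≤ 100 * J + 200 := by
      have : 94 * L ≤ 100 * J + 200 := by omega
      exact_mod_cast this
    have e2 : (100 : ℝ) * L ≤ 122 * a := by exact_mod_cast hL
    have e4 : (((a / 100 : ℕ) : ℕ) : ℝ) ≤ a / 100 := by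
      have : 100 * (a / 100) ≤ a := Nat.mul_div_le a 100
      have h' : (100 : ℝ) * ((a / 100 : ℕ) : ℝ) ≤ a := by exact_mod_cast this
      linarith
    have e5 := H17.mu_ge
    have e6 := H17.th_le
    have e7 : (1 / 5 : ℝ) * J ≤ mu * J := mul_le_mul_of_nonneg_right e5 (Nat.cast_nonneg _)
    have e8 : th * ((a / 100 : ℕ) : ℝ) ≤ 8 / 5 * ((a / 100 : ℕ) : ℝ) :=
      mul_le_mul_of_nonneg_right e6 (Nat.cast_nonneg _)
    linarith
  -- the decomposition
  have hsub : ((Ico (2 ^ L) (2 ^ (L + 1))).filter fun N => N ∈ HB d a E) ⊆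
      ((Ico (2 ^ L) (2 ^ (L + 1))).filter
        fun N => ∃ j ≤ J, ((a / 100 : ℕ) : ℝ) < |2 * (od d j N : ℝ) - j|) ∪
      (range I).biUnion fun i =>
        (Ico (2 ^ L) (2 ^ (L + 1))).filter fun N =>
          (T d)^[i] N ∈ Ico (2 ^ (a - 1)) (2 ^ (a - 1 + 1)) ∧ (T d)^[i] N ∈ E := by
    intro N hN
    rw [mem_filter] at hN
    obtain ⟨hN1, i, h1, h2, h3⟩ := hN
    rw [mem_union, mem_filter, mem_biUnion]
    by_cases hi : i < I
    · right
      refine ⟨i, mem_range.2 hi, ?_⟩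
      rw [mem_filter]
      refine ⟨hN1, mem_Ico.2 ⟨?_, ?_⟩, h3⟩
      · rcases Nat.eq_zero_or_pos i with h0 | h0
        · rw [h0, Function.iterate_zero, id_eq]
          rw [mem_Ico] at hN1
          exact le_trans (Nat.pow_le_pow_right (by norm_num) (by omega)) hN1.1
        · obtain ⟨i', rfl⟩ : ∃ i', i = i' + 1 := ⟨i - 1, by omega⟩
          have h4 := h2 i' (by omega)
          have h5 := T_lo (d := d) ((T d)^[i'] N)
          rw [Function.iterate_succ_apply']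
          have h6 : 2 ^ a = 2 * 2 ^ (a - 1) := by
            rw [← pow_succ']
            congr 1
            omega
          omega
      · rw [Nat.sub_add_cancel (by omega)]
        exact h1
    · left
      refine ⟨hN1, J, le_rfl, ?_⟩
      by_contra hcon
      rw [not_lt] at hcon
      rw [mem_Ico] at hN1
      have h4 := (hP d N J (a / 100) L hN1.1 (by omega) hcon).2
      have h5 : (2 : ℝ) ^ a ≤ ((T d)^[J] N : ℝ) := by exact_mod_cast h2 J (by omega)
      have h6 : (N : ℝ) < 2 ^ (L + 1) := by exact_mod_cast hN1.2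
      have h7 : 2 * (N : ℝ) * (2 : ℝ) ^ (-(mu * J) + th * ((a / 100 : ℕ) : ℝ) / 2) <
          2 ^ (L + 2) * (2 : ℝ) ^ (-(mu * J) + th * ((a / 100 : ℕ) : ℝ) / 2) := by
        refine mul_lt_mul_of_pos_right ?_ (by positivity)
        rw [pow_succ]
        linarith
      have h8 : (2 : ℝ) ^ (L + 2) * (2 : ℝ) ^ (-(mu * J) + th * ((a / 100 : ℕ) : ℝ) / 2) ≤ 2 ^ a := by
        rw [← Real.rpow_natCast, ← Real.rpow_natCast, ← Real.rpow_add (by norm_num)]
        refine Real.rpow_le_rpow_of_exponent_le (by norm_num) ?_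
        push_cast
        linarith
      linarith
  have h1 := (card_le_card hsub).trans (card_union_le _ _)
  have h2 := hB.1 d J L (a / 100) (by omega)
  have h3 := H17.exp_err A (a := a) (J := J) (D := a / 100) (by omega) (by omega) (by omega) rfl
  -- the visits to `E`
  have h4 : (((range I).biUnion fun i => (Ico (2 ^ L) (2 ^ (L + 1))).filter fun N =>
      (T d)^[i] N ∈ Ico (2 ^ (a - 1)) (2 ^ (a - 1 + 1)) ∧ (T d)^[i] N ∈ E).card : ℝ) ≤
      2 ^ L * (K * p) := by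
    have h5 : (((range I).biUnion fun i => (Ico (2 ^ L) (2 ^ (L + 1))).filter fun N =>
        (T d)^[i] N ∈ Ico (2 ^ (a - 1)) (2 ^ (a - 1 + 1)) ∧ (T d)^[i] N ∈ E).card : ℝ) ≤
        ∑ i ∈ range I, (((Ico (2 ^ L) (2 ^ (L + 1))).filter fun N =>
          (T d)^[i] N ∈ Ico (2 ^ (a - 1)) (2 ^ (a - 1 + 1)) ∧ (T d)^[i] N ∈ E).card : ℝ) := by
      exact_mod_cast card_biUnion_le
    have h6 : ∀ i ∈ range I, (((Ico (2 ^ L) (2 ^ (L + 1))).filter fun N =>
          (T d)^[i] N ∈ Ico (2 ^ (a - 1)) (2 ^ (a - 1 + 1)) ∧ (T d)^[i] N ∈ E).card : ℝ) ≤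
        p * (((Ico (2 ^ (L - 1)) (2 ^ (L + 2))).filter fun N =>
          (T d)^[i] N ∈ Ico (2 ^ (a - 1 - 1)) (2 ^ (a - 1 + 2))).card : ℝ) := by
      intro i hi
      rw [mem_range] at hi
      have h7 := vis_le hDy d (L := L) (b := a - 1) (i := i) (k := k) hE (by omega) (by omega)
        le_rfl
      have h8 : (((Ico (2 ^ L) (2 ^ (L + 1))).filter fun N =>
          (T d)^[i] N ∈ Ico (2 ^ (a - 1)) (2 ^ (a - 1 + 1)) ∧ (T d)^[i] N ∈ E).card : ℝ) * 2 ^ k ≤
          (((range (2 ^ k)).filter fun r => r ∈ E).card : ℝ) *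
            (((Ico (2 ^ (L - 1)) (2 ^ (L + 2))).filter fun N =>
              (T d)^[i] N ∈ Ico (2 ^ (a - 1 - 1)) (2 ^ (a - 1 + 2))).card : ℝ) := by
        exact_mod_cast h7
      have h9 : (((range (2 ^ k)).filter fun r => r ∈ E).card : ℝ) *
            (((Ico (2 ^ (L - 1)) (2 ^ (L + 2))).filter fun N =>
              (T d)^[i] N ∈ Ico (2 ^ (a - 1 - 1)) (2 ^ (a - 1 + 2))).card : ℝ) ≤
          p * 2 ^ k * (((Ico (2 ^ (L - 1)) (2 ^ (L + 2))).filter fun N =>
              (T d)^[i] N ∈ Ico (2 ^ (a - 1 - 1)) (2 ^ (a - 1 + 2))).card : ℝ) :=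
        mul_le_mul_of_nonneg_right hp (Nat.cast_nonneg _)
      have h10 : (0 : ℝ) < 2 ^ k := by positivity
      refine le_of_mul_le_mul_right ?_ h10
      linarith
    have h7 := hvis d L (a - 1) (by omega) (by omega)
    rw [← hI] at h7
    calc _ ≤ _ := h5
      _ ≤ ∑ i ∈ range I, p * (((Ico (2 ^ (L - 1)) (2 ^ (L + 2))).filter fun N =>
          (T d)^[i] N ∈ Ico (2 ^ (a - 1 - 1)) (2 ^ (a - 1 + 2))).card : ℝ) := sum_le_sum h6
      _ = p * ∑ i ∈ range I, (((Ico (2 ^ (L - 1)) (2 ^ (L + 2))).filter fun N =>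
          (T d)^[i] N ∈ Ico (2 ^ (a - 1 - 1)) (2 ^ (a - 1 + 2))).card : ℝ) := by rw [mul_sum]
      _ ≤ p * (K * 2 ^ L) := mul_le_mul_of_nonneg_left h7 hp0
      _ = 2 ^ L * (K * p) := by ring
  have h5 : (((Ico (2 ^ L) (2 ^ (L + 1))).filter fun N => N ∈ HB d a E).card : ℝ) ≤
      (((Ico (2 ^ L) (2 ^ (L + 1))).filter
        fun N => ∃ j ≤ J, ((a / 100 : ℕ) : ℝ) < |2 * (od d j N : ℝ) - j|).card : ℝ) +
      (((range I).biUnion fun i => (Ico (2 ^ L) (2 ^ (L + 1))).filter fun N =>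
        (T d)^[i] N ∈ Ico (2 ^ (a - 1)) (2 ^ (a - 1 + 1)) ∧ (T d)^[i] N ∈ E).card : ℝ) := by
    exact_mod_cast h1
  refine h5.trans ?_
  have h6 : (2 : ℝ) ^ L * (((J : ℝ) + 1) *
      (2 * Real.exp (-(((a / 100 : ℕ) : ℝ) ^ 2 / (2 * J))))) ≤
      2 ^ L * (4 * (A + 1).factorial * 160000 ^ (A + 1) / (a : ℝ) ^ A) :=
    mul_le_mul_of_nonneg_left h3 (by positivity)
  rw [mul_add]
  linarith

open Classical in
theorem bcs (hB : BadNStatement) (hP : PathStatement) (hDy : DynStatement) (hV : PV2Statement)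
    (hT : TGPStatement) (hCo : CompStatement) (hL : LipStatement) : BCSStatement := by
  intro A
  obtain ⟨K1, C1, aD, hK1, hC1, hdir⟩ := directS hB hP hDy hV A
  obtain ⟨CT, uT, hCT, hTG⟩ := hT (A + 2)
  obtain ⟨K, u1, hK, hu1, hcomp⟩ := hCo (A + 1) CT (by omega) hCT
  refine ⟨3 * K1 + 3 * C1 + K, max (max aD 400) (max ⌈uT⌉₊ ⌈u1⌉₊), by positivity, ?_⟩
  intro d a k E p ha hk hE hp u hu
  have haD : aD ≤ a := le_trans (le_trans (le_max_left _ _) (le_max_left _ _)) ha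
  have ha400 : 400 ≤ a := le_trans (le_trans (le_max_right _ _) (le_max_left _ _)) ha
  have haT : uT ≤ a := by
    have h1 : ⌈uT⌉₊ ≤ a := le_trans (le_trans (le_max_left _ _) (le_max_right _ _)) ha
    exact le_trans (Nat.le_ceil _) (by exact_mod_cast h1)
  have ha1 : u1 ≤ a := by
    have h1 : ⌈u1⌉₊ ≤ a := le_trans (le_trans (le_max_right _ _) (le_max_right _ _)) ha
    exact le_trans (Nat.le_ceil _) (by exact_mod_cast h1)
  have haR : (400 : ℝ) ≤ a := by exact_mod_cast ha400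
  have ha0 : (0 : ℝ) < a := by linarith
  have hp0 : 0 ≤ p := by
    have h1 : (0 : ℝ) ≤ p * 2 ^ k := le_trans (Nat.cast_nonneg _) hp
    exact nonneg_of_mul_nonneg_left h1 (by positivity)
  obtain ⟨β, hβ⟩ : ∃ β : ℝ, β = K1 * p + C1 / a ^ A := ⟨_, rfl⟩
  have hβ0 : 0 ≤ β := by rw [hβ]; positivity
  -- low heights
  have hlow : ∀ t : ℝ, (a : ℝ) ≤ t + 1 → t ≤ 23 / 20 * a + 1 → Gd (HB d a E) t ≤ 3 * β := by
    intro t ht1 ht2
    have ht0 : 0 ≤ t := by linarith
    have hf1 : (⌊t⌋₊ : ℝ) ≤ t := Nat.floor_le ht0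
    have hf2 : a ≤ ⌊t⌋₊ + 1 := by
      have h1 : a - 1 ≤ ⌊t⌋₊ := by
        refine Nat.le_floor ?_
        rw [Nat.cast_sub (by omega)]
        push_cast
        linarith
      omega
    have hf3 : 100 * (⌊t⌋₊ + 1) ≤ 122 * a := by
      have h1 : (100 : ℝ) * (⌊t⌋₊ + 1) ≤ 122 * a := by linarith
      exact_mod_cast h1
    have g1 := hdir d a k ⌊t⌋₊ E p haD hk hE (by convert hp) hf2 (by omega)
    have g2 := hdir d a k (⌊t⌋₊ + 1) E p haD hk hE (by convert hp) (by omega) hf3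
    rw [← hβ] at g1 g2
    exact H17.gd_le_blocks ht0 rfl g1 g2
  have hfin : 3 * β + K / (a : ℝ) ^ A ≤ (3 * K1 + 3 * C1 + K) * (p + 1 / (a : ℝ) ^ A) := by
    rw [hβ]
    have h2 : 0 ≤ 1 / (a : ℝ) ^ A := by positivity
    have e1 : C1 / (a : ℝ) ^ A = C1 * (1 / (a : ℝ) ^ A) := by ring
    have e2 : K / (a : ℝ) ^ A = K * (1 / (a : ℝ) ^ A) := by ring
    rw [e1, e2]
    have h3 : 0 ≤ C1 * p := by positivity
    have h4 : 0 ≤ K * p := by positivity
    have h5 : 0 ≤ K1 * (1 / (a : ℝ) ^ A) := by positivity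
    nlinarith
  refine le_trans ?_ hfin
  have hKA : 0 ≤ K / (a : ℝ) ^ A := by positivity
  rcases le_or_gt u (23 / 20 * a + 1) with hcase | hcase
  · exact (hlow u (by linarith) hcase).trans (by linarith)
  · have hbd : ∀ t : ℝ, 0 ≤ t → Gd (HB d a E) t ≤ 2 := by
      intro t ht
      obtain ⟨-, h2, -⟩ := hL (HB d a E) t 0 ht le_rfl zero_le_one
      refine h2.trans ?_
      have h3 : (1 : ℝ) ≤ 2 ^ t := Real.one_le_rpow (by norm_num) ht
      have h4 : 1 / (2 : ℝ) ^ t ≤ 1 := by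
        rw [div_le_one (by positivity)]
        exact h3
      linarith
    have h1 := hcomp (fun t => - Gd (HB d a E) t) 2 (-(3 * β)) (23 / 20 * a) (by linarith)
      (fun t ht => by
        have := hbd t (by linarith)
        show -2 ≤ - Gd (HB d a E) t
        linarith)
      (fun t ht => by
        have h2 := hTG d (HB d a E) a t 1 (by linarith) (by linarith) (H17.hb_inv d a E)
          (by push_cast; linarith)
        rw [H74.PJ_one] at h2
        have := abs_le.1 h2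
        show (- Gd (HB d a E) (t - 1) + - Gd (HB d a E) (t + (th - 1))) / 2 -
          CT / t ^ (A + 1 + 1) ≤ - Gd (HB d a E) t
        linarith [this.1, this.2])
      (fun t ht ht' => by
        have := hlow t (by linarith) ht'
        show -(3 * β) ≤ - Gd (HB d a E) t
        linarith) u (by linarith)
    have h2 : K / (23 / 20 * (a : ℝ)) ^ (A + 1) ≤ K / (a : ℝ) ^ A := by
      refine div_le_div_of_nonneg_left hK.le (by positivity) ?_
      calc (a : ℝ) ^ A ≤ (a : ℝ) ^ (A + 1) := pow_le_pow_right₀ (by linarith) (Nat.le_succ A)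
        _ ≤ (23 / 20 * (a : ℝ)) ^ (A + 1) := pow_le_pow_left₀ (by positivity) (by linarith) _
    have h3 : -(3 * β) - K / (23 / 20 * (a : ℝ)) ^ (A + 1) ≤ - Gd (HB d a E) u := h1
    linarith

theorem bcsT : BCSStatement :=
  bcs badnT pathT Pool.Agent.Lib.MP_0a5adf_nt.H30.dyn
    (H21.pv2 Pool.Agent.Lib.MP_0a5adf_nt.H30.dyn cntParT Pool.Agent.Lib.MP_0a5adf_nt.H51.visits)
    tgpT H75.comp H63.lip

end Pool.Agent.Lib.MP_edb5be_nt.TS.H58
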