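import Pool.Agent.Lib.MP_edb5be_nt.TS.H58.Fdd
import Pool.Agent.Lib.MP_edb5be_nt.TS.H52.Dw
import Pool.Agent.Lib.MP_edb5be_nt.TS.H52.Dg
import Pool.Agent.Lib.MP_edb5be_nt.TS.H82.Gs
import Pool.Agent.Lib.MP_edb5be_nt.TS.H82.Gb
import Pool.Agent.Lib.MP_edb5be_nt.TS.H82.Kmf
import Pool.Agent.Lib.MP_edb5be_nt.TS.H57.Inst
import Pool.Agent.Lib.MP_edb5be_nt.TS.H07.Res
import Pool.Agent.Lib.MP_edb5be_nt.TS.H62.Line
import Pool.Agent.Lib.MP_edb5be_nt.TS.H67.Normal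
import Pool.Agent.Lib.MP_edb5be_nt.TS.H17.BC
import Pool.Agent.Lib.MP_edb5be_nt.TS.H32.Zver
import Pool.Agent.Lib.MP_edb5be_nt.ND.H26.Main

/-!
Project TS: assembly.
-/

set_option autoImplicit false

namespace Pool.Agent.Lib.MP_edb5be_nt.TS.H58

open Finset Filter Topology Pool.Agent.Lib.MP_0a5adf_nt.TP Pool.Agent.Lib.MP_edb5be_nt.ND
  Pool.Agent.Lib.MP_edb5be_nt.ND.H82 Pool.Agent.Lib.MP_edb5be_nt.TS

theorem kmfT : KMFStatement := HB82.kmf TS.H57.tgpf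

theorem resT : RESStatement := H07.res TS.H57.fmeqf

theorem fddT : FDDStatement := fdd kmfT HB82.gb resT

theorem dwT : DWStatement := H52.dw fddT HB82.gb

theorem dgT : DGStatement := H52.dg HB82.gs resT

theorem lineT : LineStatement := TS.H62.line TS.H17.bcT

theorem normalT : NormalStatement := TS.H67.normal TS.H17.bcT

theorem dwzT : DWZStatement := H32.dwz dwT

theorem dgzT : DGZStatement := H32.dgz dgT

theorem linezT : LineZStatement := H32.linez lineT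

theorem normalzT : NormalZStatement := H32.normalz normalT

/-- the set of the integers that reach a finite set is invariant outside an interval -/
theorem hit_inv {W : Set ℤ} (hW : W.Finite) : ∃ y : ℝ, 1 ≤ y ∧ ∀ x : ℤ, y ≤ |(x : ℝ)| →
    (x ∈ {x : ℤ | ∃ i : ℕ, TZ^[i] x ∈ W} ↔ TZ x ∈ {x : ℤ | ∃ i : ℕ, TZ^[i] x ∈ W}) := by
  obtain ⟨B, hB⟩ := (hW.image fun w : ℤ => |(w : ℝ)|).bddAbove
  refine ⟨max B 0 + 1, by linarith [le_max_right B 0], ?_⟩
  intro x hx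
  have hxW : x ∉ W := by
    intro h
    have h1 : |(x : ℝ)| ≤ B := hB ⟨x, h, rfl⟩
    linarith [le_max_left B 0]
  constructor
  · rintro ⟨i, hi⟩
    rcases Nat.eq_zero_or_pos i with h | h
    · rw [h] at hi
      exact absurd hi hxW
    · obtain ⟨i', rfl⟩ : ∃ i', i = i' + 1 := ⟨i - 1, by omega⟩
      rw [Function.iterate_succ_apply] at hi
      exact ⟨i', hi⟩
  · rintro ⟨i, hi⟩
    exact ⟨i + 1, by rwa [Function.iterate_succ_apply]⟩

/-- existence of the densities -/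
theorem dens_ex (d : Bool) (y : ℝ) (S : Set ℤ) (hS : ∀ x : ℤ, y ≤ |(x : ℝ)| → (x ∈ S ↔ TZ x ∈ S)) :
    ∃ D : ℝ, HasDens d S D := by
  obtain ⟨c, C, hc, hC, h⟩ := part1T
  obtain ⟨h1, -, -⟩ := h d
  obtain ⟨D, -, -, hD, -⟩ := h1 (max y 1) S (le_max_right _ _) fun x hx =>
    hS x ((le_max_left _ _).trans hx)
  exact ⟨D, hD⟩

end Pool.Agent.Lib.MP_edb5be_nt.TS.H58
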