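import Pool.Agent.Lib.MP_edb5be_nt.TS.H58.Base
import Pool.Agent.Lib.MP_edb5be_nt.TS.H52.Dg
import Pool.Agent.Lib.MP_edb5be_nt.TS.H82.Gb
import Pool.Agent.Lib.MP_edb5be_nt.ND.H63.Lip

/-!
Project TS: the joint law in blocks.
-/

set_option autoImplicit false

namespace Pool.Agent.Lib.MP_edb5be_nt.TS.H58

open Finset Filter Topology Pool.Agent.Lib.MP_0a5adf_nt.TP Pool.Agent.Lib.MP_edb5be_nt.ND
  Pool.Agent.Lib.MP_edb5be_nt.ND.H82 Pool.Agent.Lib.MP_edb5be_nt.TS

theorem dens_le {B : Set ℕ} {D : ℝ} (hD : Tendsto (Gd B) atTop (𝓝 D)) : 0 ≤ D ∧ D ≤ 1 := by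
  refine ⟨ge_of_tendsto' hD fun u => Gd_nonneg _ _, ?_⟩
  have h1 : Tendsto (fun u : ℝ => 1 + 1 / (2 : ℝ) ^ u) atTop (𝓝 (1 + 0)) := by
    apply Tendsto.const_add
    exact (tendsto_rpow_atTop_of_base_gt_one 2 (by norm_num)).const_div_atTop 1
  rw [add_zero] at h1
  refine le_of_tendsto_of_tendsto hD h1 ?_
  filter_upwards [eventually_ge_atTop 0] with u hu
  exact (H63.lip B u 0 hu le_rfl (by norm_num)).2.1

/-- `AsymT` from an error `o(√u)` -/
theorem asym_of {z : ℝ} {t : ℝ → ℕ}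
    (h : Tendsto (fun u : ℝ => (mu * t u - u - z * (th / 2 * √(u / mu))) / √u) atTop (𝓝 0)) :
    AsymT z t := by
  have hth := thp
  have hmu := mu_pos
  have hsm : 0 < √mu := Real.sqrt_pos.2 hmu
  unfold AsymT
  have h1 := (h.const_mul (√mu / (th / 2))).const_add z
  rw [mul_zero, add_zero] at h1
  refine h1.congr' ?_
  filter_upwards [eventually_gt_atTop 0] with u hu
  have hs : 0 < √u := Real.sqrt_pos.2 hu
  rw [Real.sqrt_div hu.le]
  field_simp
  ring

theorem ev_third {f : ℝ → ℕ} {c : ℝ} (hc : 0 < c) (h : ∀ᶠ u : ℝ in atTop, c * u ≤ f u) :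
    ∀ᶠ u : ℝ in atTop, u ^ (1 / 3 : ℝ) ≤ f u := by
  have h1 : Tendsto (fun u : ℝ => u ^ (2 / 3 : ℝ)) atTop atTop := tendsto_rpow_atTop (by norm_num)
  filter_upwards [h, h1.eventually_ge_atTop (1 / c), eventually_gt_atTop 0] with u h2 h3 h4
  rw [div_le_iff₀ hc] at h3
  have h5 : u ^ (1 / 3 : ℝ) * u ^ (2 / 3 : ℝ) = u := by
    rw [← Real.rpow_add h4]
    norm_num
  have h6 : 0 ≤ u ^ (1 / 3 : ℝ) := by positivity
  nlinarith

/-- `r = 0` -/
theorem fdd_zero (hG : GBStatement) (hR : RESStatement) {d : Bool} {W : Set ℕ} {D : ℝ}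
    (hW : W.Finite) (hD : Tendsto (Gd (Hit d W)) atTop (𝓝 D)) (z : ℝ) (c : ℝ → ℝ)
    (hc : Tendsto (fun u : ℝ => (mu * c u - z * (th / 2) * √(u / mu)) / √u) atTop (𝓝 0))
    (j k a : ℕ) : Tendsto (fun u : ℝ =>
      Gd {n : ℕ | n ∈ Fin d W (c u) ∧ n ≡ a [MOD 2 ^ j * 3 ^ k]} u) atTop
      (𝓝 (D * PhiG z / (2 ^ j * 3 ^ k))) := by
  have hth := thp
  have hmu := mu_pos
  have hmu1 : mu ≤ 1 := by
    unfold mu
    linarith
  have hsm : 0 < √mu := Real.sqrt_pos.2 hmu
  obtain ⟨b, hb⟩ : ∃ b : ℕ, ∀ w ∈ W, w < 2 ^ b := by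
    obtain ⟨m, hm⟩ := hW.bddAbove
    refine ⟨m, fun w hw => ?_⟩
    exact (hm hw).trans_lt Nat.lt_two_pow_self
  -- the thresholds are large
  have hcl : ∀ s : ℝ, |s| ≤ 1 → ∀ᶠ u : ℝ in atTop, u / 2 ≤ u + s + mu * c u := by
    intro s hs
    filter_upwards [ev_small hc 1 one_pos, eventually_ge_atTop 1,
      ev_sqrt (|z| * (th / 2) / √mu + 2) (1 / 2) (by norm_num)] with u h1 h2 h3
    have hu0 : 0 < u := by linarith
    have hs1 : 1 ≤ √u := by
      rw [show (1 : ℝ) = √1 by simp]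
      exact Real.sqrt_le_sqrt h2
    rw [Real.sqrt_div hu0.le] at h1
    have h4 : |z * (th / 2) * (√u / √mu)| ≤ |z| * (th / 2) / √mu * √u := by
      rw [abs_mul, abs_mul, abs_of_pos (by positivity : 0 < th / 2),
        abs_of_nonneg (by positivity : 0 ≤ √u / √mu)]
      apply le_of_eq
      ring
    rw [abs_le] at h1 h4 hs
    linarith [h1.1, h4.1, hs.1]
  have main : ∀ s : ℝ, |s| ≤ 1 → Tendsto (fun u : ℝ =>
      Gd {n : ℕ | n ∈ Rch d W ⌊(u + s) / mu + c u⌋₊ ∧ n ≡ a [MOD 2 ^ j * 3 ^ k]} u) atTop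
      (𝓝 (D * PhiG z / (2 ^ j * 3 ^ k))) := by
    intro s hs
    have hfl : ∀ᶠ u : ℝ in atTop, |mu * (⌊(u + s) / mu + c u⌋₊ : ℝ) - (u + s + mu * c u)| ≤ 1 := by
      filter_upwards [hcl s hs, eventually_ge_atTop 0] with u h1 h2
      have e : (u + s) / mu + c u = (u + s + mu * c u) / mu := by field_simp
      rw [e]
      have h3 : 0 ≤ (u + s + mu * c u) / mu := div_nonneg (by linarith) hmu.le
      have h4 : (⌊(u + s + mu * c u) / mu⌋₊ : ℝ) ≤ (u + s + mu * c u) / mu := Nat.floor_le h3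
      have h5 : (u + s + mu * c u) / mu < ⌊(u + s + mu * c u) / mu⌋₊ + 1 := Nat.lt_floor_add_one _
      rw [le_div_iff₀ hmu] at h4
      rw [div_lt_iff₀ hmu] at h5
      rw [abs_le]
      constructor <;> linarith
    have hasym : AsymT z (fun u => ⌊(u + s) / mu + c u⌋₊) := by
      apply asym_of
      have t1 : Tendsto (fun u : ℝ => (2 : ℝ) / √u) atTop (𝓝 0) :=
        Real.tendsto_sqrt_atTop.const_div_atTop 2
      have t2 : Tendsto (fun u : ℝ => ((mu * (⌊(u + s) / mu + c u⌋₊ : ℝ) - (u + s + mu * c u)) + s)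
          / √u) atTop (𝓝 0) := by
        refine squeeze_zero_norm' ?_ t1
        filter_upwards [hfl, eventually_gt_atTop 0] with u h1 h2
        have hs0 : 0 < √u := Real.sqrt_pos.2 h2
        rw [Real.norm_eq_abs, abs_div, abs_of_pos hs0]
        apply div_le_div_of_nonneg_right _ hs0.le
        refine (abs_add_le _ _).trans ?_
        linarith
      have t3 := t2.add hc
      rw [add_zero] at t3
      refine t3.congr fun u => ?_
      rw [← add_div]
      congr 1
      ring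
    refine hR d (fun _ t => Rch d W t) (fun _ => b) (fun u => ⌊(u + s) / mu + c u⌋₊)
      (D * PhiG z) ?_ ?_ ?_ ?_ j k a
    · exact Eventually.of_forall fun _ => HB82.rch_inv hb
    · exact tendsto_const_nhds.div_atTop tendsto_id
    · apply ev_third (c := 1 / 4) (by norm_num)
      filter_upwards [hfl, hcl s hs, eventually_ge_atTop 4] with u h1 h2 h3
      have h4 := (abs_le.1 h1).1
      have h5 : mu * (⌊(u + s) / mu + c u⌋₊ : ℝ) ≤ 1 * (⌊(u + s) / mu + c u⌋₊ : ℝ) :=
        mul_le_mul_of_nonneg_right hmu1 (Nat.cast_nonneg _)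
      linarith
    · intro h j'
      have h3 := hG d W D hW hD z _ (H52.asym_shift hasym h j')
      have h4 := h3.comp (tendsto_atTop_add_const_right atTop h tendsto_id)
      refine h4.congr fun u => ?_
      simp only [Function.comp_apply, id_eq, add_sub_cancel_right]
  refine tendsto_of_tendsto_of_tendsto_of_le_of_le' (main 0 (by simp)) (main 1 (by simp)) ?_ ?_
  · filter_upwards [hcl 0 (by simp), eventually_ge_atTop 0] with u h1 h2
    apply Gd_mono
    rintro n hn1 hn2 ⟨⟨t, ht, hw⟩, hc⟩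
    obtain ⟨n0, n1, n2⟩ := lg_of_mem hn1 hn2
    refine ⟨⟨t, ?_, hw⟩, hc⟩
    have e : (u + 0) / mu + c u = (u + 0 + mu * c u) / mu := by field_simp
    have h3 : 0 ≤ (u + 0) / mu + c u := by
      rw [e]
      exact div_nonneg (by linarith) hmu.le
    have h4 : (t : ℝ) ≤ (u + 0) / mu + c u :=
      (by exact_mod_cast ht : (t : ℝ) ≤ (⌊(u + 0) / mu + c u⌋₊ : ℝ)).trans (Nat.floor_le h3)
    have h5 : (u + 0) / mu ≤ lg n / mu := by
      apply div_le_div_of_nonneg_right _ hmu.le
      linarith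
    linarith
  · apply Eventually.of_forall
    intro u
    apply Gd_mono
    rintro n hn1 hn2 ⟨⟨t, ht, hw⟩, hc⟩
    obtain ⟨n0, n1, n2⟩ := lg_of_mem hn1 hn2
    refine ⟨⟨t, ?_, hw⟩, hc⟩
    apply Nat.le_floor
    have h5 : lg n / mu ≤ (u + 1) / mu := by
      apply div_le_div_of_nonneg_right _ hmu.le
      linarith
    linarith

/-- one height condition and classes -/
theorem fdd_succ (hK : KMFStatement) (hR : RESStatement) {d : Bool} {δ : ℝ} {E : ℝ → Set ℕ}
    {α : ℝ} (hE : Lim d δ E α) (hδ : 0 ≤ δ) (hδ1 : δ ≤ 1) (hα : 0 < α) (hα1 : α < 1) {z R₀ : ℝ}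
    {M : ℝ → ℕ} {y : ℝ → ℝ} (hM : ∀ᶠ u : ℝ in atTop, |mu * M u - (1 - α) * u| ≤ R₀ * √u)
    (hy : Tendsto (fun u : ℝ => (y u + mu * M u - z * (th / 2) * √(M u)) / √u) atTop (𝓝 0))
    (j k a : ℕ) : Tendsto (fun u : ℝ =>
      Gd {n : ℕ | n ∈ Cut d (M u) (y u) (E u) ∧ n ≡ a [MOD 2 ^ j * 3 ^ k]} u) atTop
      (𝓝 (δ * PhiG z / (2 ^ j * 3 ^ k))) := by
  have hth := thp
  have hmu := mu_pos
  have hmu1 : mu ≤ 1 := by
    unfold mu
    linarith
  have hMl : ∀ᶠ u : ℝ in atTop, (1 - α) / 2 * u ≤ M u := by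
    filter_upwards [hM, ev_sqrt R₀ ((1 - α) / 2) (by linarith), eventually_ge_atTop 0]
      with u h1 h2 h3
    have h4 := (abs_le.1 h1).1
    have h5 : mu * (M u : ℝ) ≤ 1 * M u := mul_le_mul_of_nonneg_right hmu1 (Nat.cast_nonneg _)
    linarith
  have main : ∀ s : ℝ, |s| ≤ 1 → Tendsto (fun u : ℝ =>
      Gd {n : ℕ | n ∈ {n : ℕ | (T d)^[M u] n ∈ E u ∧ lg ((T d)^[M u] n) ≤ y u + u + s} ∧
        n ≡ a [MOD 2 ^ j * 3 ^ k]} u) atTop (𝓝 (δ * PhiG z / (2 ^ j * 3 ^ k))) := by
    intro s hs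
    refine hR d (fun u t => {n : ℕ | (T d)^[t] n ∈ E u ∧ lg ((T d)^[t] n) ≤ y u + u + s})
      (fun _ => 0) M (δ * PhiG z) ?_ ?_ (ev_third (by linarith) hMl) ?_ j k a
    · apply Eventually.of_forall
      intro u n _ t
      simp only [Set.mem_ofPred_eq, Function.iterate_succ_apply]
    · exact tendsto_const_nhds.div_atTop tendsto_id
    · intro h i
      rw [Metric.tendsto_nhds]
      intro ε hε
      obtain ⟨R, hRd⟩ : ∃ r : ℝ, r = |R₀| + |h| + i + 1 := ⟨_, rfl⟩
      have hR0 : 0 < R := by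
        rw [hRd]
        positivity
      obtain ⟨η, hη, hev⟩ := vcore hK hE hδ hδ1 hα hα1 z R (ε / 2) hR0 (by positivity)
      filter_upwards [hev, hM, ev_small hy (η / 2) (by positivity), hMl, eventually_ge_atTop 1,
        ev_quarter 0 (1 + |h| + (1 + |z| * (th / 2)) * i) (η / 2) (by positivity),
        eventually_ge_atTop (i / ((1 - α) / 2))] with u l1 l2 l3 l4 l5 l6 l7
      rw [Real.dist_eq]
      refine lt_of_le_of_lt (l1 (u + h) (M u - i) (y u + u + s) ?_ ?_ ?_) (by linarith)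
      · have e : u + h - 1 * u = h := by ring
        rw [e]
        have h1 : 1 ≤ √u := by
          rw [show (1 : ℝ) = √1 by simp]
          exact Real.sqrt_le_sqrt l5
        have h2 : |h| ≤ R := by
          rw [hRd]
          have := abs_nonneg R₀
          have : (0 : ℝ) ≤ i := Nat.cast_nonneg _
          linarith
        nlinarith [abs_nonneg h]
      · have hi : i ≤ M u := by
          rw [div_le_iff₀ (by linarith)] at l7
          have : (i : ℝ) ≤ M u := by linarith
          exact_mod_cast this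
        rw [Nat.cast_sub hi]
        have e : mu * ((M u : ℝ) - i) - (1 - α) * u = (mu * M u - (1 - α) * u) + -(mu * i) := by ring
        rw [e]
        refine (abs_add_le _ _).trans ?_
        have h1 : 1 ≤ √u := by
          rw [show (1 : ℝ) = √1 by simp]
          exact Real.sqrt_le_sqrt l5
        have h2 : |-(mu * (i : ℝ))| ≤ i * √u := by
          rw [abs_neg, abs_of_nonneg (by positivity)]
          have h0 : (0 : ℝ) ≤ i := Nat.cast_nonneg _
          nlinarith
        have h3 : R₀ * √u ≤ |R₀| * √u := mul_le_mul_of_nonneg_right (le_abs_self _) (by linarith)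
        rw [hRd]
        have h4 : 0 ≤ (|h| + 1) * √u := by positivity
        linarith
      · have hi : i ≤ M u := by
          rw [div_le_iff₀ (by linarith)] at l7
          have : (i : ℝ) ≤ M u := by linarith
          exact_mod_cast this
        have hsq : |√(M u : ℝ) - √((M u - i : ℕ) : ℝ)| ≤ i := by
          have h1 := sqrt_add_nat (M u - i) i
          rw [Nat.sub_add_cancel hi] at h1
          exact h1
        have e : y u + u + s - (u + h) + mu * ((M u - i : ℕ) : ℝ) -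
            z * (th / 2) * √((M u - i : ℕ) : ℝ) =
            (y u + mu * M u - z * (th / 2) * √(M u)) + (s - h - mu * i +
              z * (th / 2) * (√(M u : ℝ) - √((M u - i : ℕ) : ℝ))) := by
          rw [Nat.cast_sub hi]
          ring
        rw [e]
        refine (abs_add_le _ _).trans ?_
        have h1 : |z * (th / 2) * (√(M u : ℝ) - √((M u - i : ℕ) : ℝ))| ≤ |z| * (th / 2) * i := by
          rw [abs_mul, abs_mul, abs_of_pos (by positivity : 0 < th / 2)]
          exact mul_le_mul_of_nonneg_left hsq (by positivity)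
        have h2 : |s - h - mu * i + z * (th / 2) * (√(M u : ℝ) - √((M u - i : ℕ) : ℝ))| ≤
            1 + |h| + (1 + |z| * (th / 2)) * i := by
          have h3 : mu * (i : ℝ) ≤ 1 * i := mul_le_mul_of_nonneg_right hmu1 (Nat.cast_nonneg _)
          have h4 : 0 ≤ mu * (i : ℝ) := by positivity
          have h5 := le_abs_self h
          have h6 := neg_abs_le h
          rw [abs_le] at h1 hs ⊢
          constructor <;> linarith [h1.1, h1.2, hs.1, hs.2]
        linarith
  refine tendsto_of_tendsto_of_tendsto_of_le_of_le' (main 0 (by simp)) (main 1 (by simp)) ?_ ?_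
  · apply Eventually.of_forall
    intro u
    apply Gd_mono
    rintro n hn1 hn2 ⟨⟨h1, h2⟩, hc⟩
    obtain ⟨n0, n1, n2⟩ := lg_of_mem hn1 hn2
    exact ⟨⟨h1, by linarith⟩, hc⟩
  · apply Eventually.of_forall
    intro u
    apply Gd_mono
    rintro n hn1 hn2 ⟨⟨h1, h2⟩, hc⟩
    obtain ⟨n0, n1, n2⟩ := lg_of_mem hn1 hn2
    exact ⟨⟨h1, by linarith⟩, hc⟩

/-- FDD -/
theorem fdd (hK : KMFStatement) (hG : GBStatement) (hR : RESStatement) : FDDStatement := by
  intro d W D hW hD r α z hα0 hα hαr K y c hK0 hKm hKα hy hc j k a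
  obtain ⟨hD0, hD1⟩ := dens_le hD
  obtain ⟨R₀, hR₀⟩ := hKα
  have hbase : Lim d (D * PhiG (z r)) (fun u => Fin d W (c u)) (α r) :=
    base_lim hG hW hD hD0 hD1 hαr hc
  -- the sets
  have hset : ∀ u : ℝ, PathB d W r (fun i => K i u) (fun i => y i u) (c u) =
      Ch d (Fin d W (c u)) r (fun i => K (i + 1) u - K i u) (fun i => y i u) := by
    intro u
    ext n
    have h1 := mem_chain d (Fin d W (c u)) r (fun i => K i u) (fun i => y i u) n
      (fun i hi => hKm i hi u)
    rw [hK0 u, Function.iterate_zero, id_eq] at h1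
    rw [h1]
    unfold PathB Fin
    simp only [Set.mem_ofPred_eq]
    have e : ∀ t : ℕ, (T d)^[K r u + t] n = (T d)^[t] ((T d)^[K r u] n) := by
      intro t
      rw [add_comm, Function.iterate_add_apply]
    simp only [e]
    rfl
  simp only [hset]
  cases r with
  | zero =>
    have h1 := fdd_zero hG hR hW hD (z 0) c (by
      rw [hα0] at hc
      simpa using hc) j k a
    have e : D / (2 ^ j * 3 ^ k) * ∏ i ∈ range (0 + 1), PhiG (z i) =
        D * PhiG (z 0) / (2 ^ j * 3 ^ k) := by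
      rw [zero_add, Finset.prod_range_one]
      ring
    rw [e]
    exact h1
  | succ r =>
    have hP0 : 0 ≤ D * PhiG (z (r + 1)) := mul_nonneg hD0 (PhiG_nonneg _)
    have hP1 : D * PhiG (z (r + 1)) ≤ 1 := mul_le_one₀ hD1 (PhiG_nonneg _) (PhiG_le_one _)
    have hinc : ∀ i < r + 1, ∀ᶠ u : ℝ in atTop,
        |mu * ((K (i + 1) u - K i u : ℕ) : ℝ) - (α i - α (i + 1)) * u| ≤ 2 * R₀ * √u := by
      intro i hi
      filter_upwards [hR₀ i (by omega), hR₀ (i + 1) (by omega)] with u h1 h2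
      rw [Nat.cast_sub (hKm i hi u)]
      rw [abs_le] at h1 h2 ⊢
      constructor <;> linarith [h1.1, h1.2, h2.1, h2.2]
    have hyy : ∀ i < r + 1, Tendsto (fun u : ℝ => (y i u + mu * ((K (i + 1) u - K i u : ℕ) : ℝ) -
        z i * (th / 2) * √((K (i + 1) u - K i u : ℕ) : ℝ)) / √u) atTop (𝓝 0) := by
      intro i hi
      refine (hy i hi).congr fun u => ?_
      rw [Nat.cast_sub (hKm i hi u)]
    have h1 := chain_lim hK hP0 hP1 r (fun i => α (i + 1)) (fun i => z (i + 1))
      (fun i u => K (i + 1 + 1) u - K (i + 1) u) (fun i u => y (i + 1) u) (2 * R₀) hbase hαr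
      (fun i hi => hα (i + 1) (by omega)) (fun i hi => hinc (i + 1) (by omega))
      (fun i hi => hyy (i + 1) (by omega))
    have hp0 : 0 ≤ ∏ i ∈ range r, PhiG (z (i + 1)) :=
      Finset.prod_nonneg fun i _ => PhiG_nonneg _
    have hp1 : ∏ i ∈ range r, PhiG (z (i + 1)) ≤ 1 :=
      Finset.prod_le_one (fun i _ => PhiG_nonneg _) fun i _ => PhiG_le_one _
    have hα1pos : 0 < α 1 := by
      have : ∀ i, i ≤ r → 0 < α (r + 1 - i) := by
        intro i
        induction i with
        | zero => intro _; exact hαr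
        | succ i ihi =>
          intro hi
          have e1 := ihi (by omega)
          have e2 := hα (r + 1 - (i + 1)) (by omega)
          have e3 : r + 1 - (i + 1) + 1 = r + 1 - i := by omega
          rw [e3] at e2
          exact e1.trans e2
      have h := this r le_rfl
      have e : r + 1 - r = 1 := by omega
      rw [e] at h
      exact h
    have h2 := fdd_succ hK hR h1 (mul_nonneg hP0 hp0) (mul_le_one₀ hP1 hp0 hp1) hα1pos
      (by rw [← hα0]; exact hα 0 (by omega)) (M := fun u => K (0 + 1) u - K 0 u)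
      (y := fun u => y 0 u) (z := z 0) (R₀ := 2 * R₀) (by
        have := hinc 0 (by omega)
        rw [hα0] at this
        exact this) (hyy 0 (by omega)) j k a
    have e : D / (2 ^ j * 3 ^ k) * ∏ i ∈ range (r + 1 + 1), PhiG (z i) =
        D * PhiG (z (r + 1)) * (∏ i ∈ range r, PhiG (z (i + 1))) * PhiG (z 0) /
          (2 ^ j * 3 ^ k) := by
      rw [Finset.prod_range_succ', Finset.prod_range_succ]
      ring
    rw [e]
    exact h2

end Pool.Agent.Lib.MP_edb5be_nt.TS.H58
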