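import Pool.Agent.Lib.MP_edb5be_nt.TS.H58.BaseM
import Pool.Agent.Lib.MP_edb5be_nt.TS.H58.Fdd

/-!
Project TS: the joint law in blocks, with the class of the hitting time modulo `m`.
-/

set_option autoImplicit false

namespace Pool.Agent.Lib.MP_edb5be_nt.TS.H58

open Finset Filter Topology Pool.Agent.Lib.MP_0a5adf_nt.TP Pool.Agent.Lib.MP_edb5be_nt.ND
  Pool.Agent.Lib.MP_edb5be_nt.ND.H82 Pool.Agent.Lib.MP_edb5be_nt.TS

theorem rchM_inv {d : Bool} {W : Set ℕ} {lo : ℕ} (h : ∀ w ∈ W, w < 2 ^ lo) (m ρ : ℕ) :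
    InvF d (fun s => RchM d W m (s + ρ) s) lo := by
  intro n hn t
  have hnW : n ∉ W := fun hw => by
    have := h n hw
    omega
  have key := fun k => first_shift (d := d) (W := W) (n := n) (h := 1) (by
    intro i hi
    have : i = 0 := by omega
    rw [this]
    exact hnW) k
  simp only [Function.iterate_one] at key
  constructor
  · rintro ⟨k, hk, hf, hmod⟩
    rcases Nat.eq_zero_or_pos k with h0 | h0
    · rw [h0] at hf
      exact absurd hf.1 hnW
    · obtain ⟨k', rfl⟩ : ∃ k', k = k' + 1 := ⟨k - 1, by omega⟩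
      refine ⟨k', by omega, (key k').2 hf, ?_⟩
      apply Nat.ModEq.add_right_cancel' 1
      have e : t + 1 + ρ = t + ρ + 1 := by ring
      rw [e] at hmod
      exact hmod
  · rintro ⟨k, hk, hf, hmod⟩
    refine ⟨k + 1, by omega, (key k).1 hf, ?_⟩
    have e : t + 1 + ρ = t + ρ + 1 := by ring
    rw [e]
    exact hmod.add_right 1

theorem rchM_congr {d : Bool} {W : Set ℕ} {m c c' t : ℕ} (h : c ≡ c' [MOD m]) :
    RchM d W m c t = RchM d W m c' t := by
  ext n
  constructor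
  · rintro ⟨k, h1, h2, h3⟩
    exact ⟨k, h1, h2, h3.trans h⟩
  · rintro ⟨k, h1, h2, h3⟩
    exact ⟨k, h1, h2, h3.trans h.symm⟩

/-- `r = 0` -/
theorem fdd_zeroM (hG : GBMStatement) (hR : RESStatement) {d : Bool} {W : Set ℕ} {D : ℝ}
    (hW : W.Finite) (hD : Tendsto (Gd (Hit d W)) atTop (𝓝 D)) {m : ℕ} (hm : 0 < m) (γ : ℕ) (z : ℝ)
    (c : ℝ → ℝ)
    (hc : Tendsto (fun u : ℝ => (mu * c u - z * (th / 2) * √(u / mu)) / √u) atTop (𝓝 0))
    (j k a : ℕ) : Tendsto (fun u : ℝ =>
      Gd {n : ℕ | n ∈ FinM d W m γ (c u) ∧ n ≡ a [MOD 2 ^ j * 3 ^ k]} u) atTop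
      (𝓝 (D / m * PhiG z / (2 ^ j * 3 ^ k))) := by
  have hth := thp
  have hmu := mu_pos
  have hmu1 : mu ≤ 1 := by
    unfold mu
    linarith
  have hsm : 0 < √mu := Real.sqrt_pos.2 hmu
  obtain ⟨b, hb⟩ : ∃ b : ℕ, ∀ w ∈ W, w < 2 ^ b := by
    obtain ⟨m, hm⟩ := hW.bddAbove
    refine ⟨m, fun w hw => ?_⟩
    exact (hm hw).trans_lt Nat.lt_two_pow_self
  -- the thresholds are large
  have hcl : ∀ s : ℝ, |s| ≤ 1 → ∀ᶠ u : ℝ in atTop, u / 2 ≤ u + s + mu * c u := by
    intro s hs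
    filter_upwards [ev_small hc 1 one_pos, eventually_ge_atTop 1,
      ev_sqrt (|z| * (th / 2) / √mu + 2) (1 / 2) (by norm_num)] with u h1 h2 h3
    have hu0 : 0 < u := by linarith
    have hs1 : 1 ≤ √u := by
      rw [show (1 : ℝ) = √1 by simp]
      exact Real.sqrt_le_sqrt h2
    rw [Real.sqrt_div hu0.le] at h1
    have h4 : |z * (th / 2) * (√u / √mu)| ≤ |z| * (th / 2) / √mu * √u := by
      rw [abs_mul, abs_mul, abs_of_pos (by positivity : 0 < th / 2),
        abs_of_nonneg (by positivity : 0 ≤ √u / √mu)]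
      apply le_of_eq
      ring
    rw [abs_le] at h1 h4 hs
    linarith [h1.1, h4.1, hs.1]
  have main : ∀ s : ℝ, |s| ≤ 1 → Tendsto (fun u : ℝ =>
      Gd {n : ℕ | n ∈ RchM d W m γ ⌊(u + s) / mu + c u⌋₊ ∧ n ≡ a [MOD 2 ^ j * 3 ^ k]} u) atTop
      (𝓝 (D / m * PhiG z / (2 ^ j * 3 ^ k))) := by
    intro s hs
    have hfl : ∀ᶠ u : ℝ in atTop, |mu * (⌊(u + s) / mu + c u⌋₊ : ℝ) - (u + s + mu * c u)| ≤ 1 := by
      filter_upwards [hcl s hs, eventually_ge_atTop 0] with u h1 h2
      have e : (u + s) / mu + c u = (u + s + mu * c u) / mu := by field_simp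
      rw [e]
      have h3 : 0 ≤ (u + s + mu * c u) / mu := div_nonneg (by linarith) hmu.le
      have h4 : (⌊(u + s + mu * c u) / mu⌋₊ : ℝ) ≤ (u + s + mu * c u) / mu := Nat.floor_le h3
      have h5 : (u + s + mu * c u) / mu < ⌊(u + s + mu * c u) / mu⌋₊ + 1 := Nat.lt_floor_add_one _
      rw [le_div_iff₀ hmu] at h4
      rw [div_lt_iff₀ hmu] at h5
      rw [abs_le]
      constructor <;> linarith
    have hasym : AsymT z (fun u => ⌊(u + s) / mu + c u⌋₊) := by
      apply asym_of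
      have t1 : Tendsto (fun u : ℝ => (2 : ℝ) / √u) atTop (𝓝 0) :=
        Real.tendsto_sqrt_atTop.const_div_atTop 2
      have t2 : Tendsto (fun u : ℝ => ((mu * (⌊(u + s) / mu + c u⌋₊ : ℝ) - (u + s + mu * c u)) + s)
          / √u) atTop (𝓝 0) := by
        refine squeeze_zero_norm' ?_ t1
        filter_upwards [hfl, eventually_gt_atTop 0] with u h1 h2
        have hs0 : 0 < √u := Real.sqrt_pos.2 h2
        rw [Real.norm_eq_abs, abs_div, abs_of_pos hs0]
        apply div_le_div_of_nonneg_right _ hs0.le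
        refine (abs_add_le _ _).trans ?_
        linarith
      have t3 := t2.add hc
      rw [add_zero] at t3
      refine t3.congr fun u => ?_
      rw [← add_div]
      congr 1
      ring
    obtain ⟨t, ht⟩ : ∃ t : ℝ → ℕ, t = fun u => ⌊(u + s) / mu + c u⌋₊ := ⟨_, rfl⟩
    obtain ⟨ρ, hρ⟩ : ∃ ρ : ℝ → ℕ, ρ = fun u => γ + (m - 1) * t u := ⟨_, rfl⟩
    have hρt : ∀ u : ℝ, t u + ρ u ≡ γ [MOD m] := by
      intro u
      have e : t u + ρ u = γ + m * t u := by
        rw [hρ]
        obtain ⟨m', rfl⟩ : ∃ m', m = m' + 1 := ⟨m - 1, by omega⟩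
        simp only [Nat.add_sub_cancel]
        ring
      rw [e]
      unfold Nat.ModEq
      rw [Nat.add_mul_mod_self_left]
    have hres := hR d (fun u s => RchM d W m (s + ρ u) s) (fun _ => b) t
      (D / m * PhiG z) ?_ ?_ ?_ ?_ j k a
    · refine hres.congr fun u => ?_
      rw [rchM_congr (hρt u), ht]
    · exact Eventually.of_forall fun u => rchM_inv hb m (ρ u)
    · exact tendsto_const_nhds.div_atTop tendsto_id
    · apply ev_third (c := 1 / 4) (by norm_num)
      rw [ht]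
      filter_upwards [hfl, hcl s hs, eventually_ge_atTop 4] with u h1 h2 h3
      have h4 := (abs_le.1 h1).1
      have h5 : mu * (⌊(u + s) / mu + c u⌋₊ : ℝ) ≤ 1 * (⌊(u + s) / mu + c u⌋₊ : ℝ) :=
        mul_le_mul_of_nonneg_right hmu1 (Nat.cast_nonneg _)
      linarith
    · intro h j'
      rw [← ht] at hasym
      have h3 := hG d W D hW hD m hm z _ (fun x => (t (x - h) - j') + ρ (x - h))
        (H52.asym_shift hasym h j')
      have h4 := h3.comp (tendsto_atTop_add_const_right atTop h tendsto_id)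
      refine h4.congr fun u => ?_
      simp only [Function.comp_apply, id_eq, add_sub_cancel_right]
  refine tendsto_of_tendsto_of_tendsto_of_le_of_le' (main 0 (by simp)) (main 1 (by simp)) ?_ ?_
  · filter_upwards [hcl 0 (by simp), eventually_ge_atTop 0] with u h1 h2
    apply Gd_mono
    rintro n hn1 hn2 ⟨⟨t, ht, hw, hmod⟩, hc⟩
    obtain ⟨n0, n1, n2⟩ := lg_of_mem hn1 hn2
    refine ⟨⟨t, ?_, hw, hmod⟩, hc⟩
    have e : (u + 0) / mu + c u = (u + 0 + mu * c u) / mu := by field_simp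
    have h3 : 0 ≤ (u + 0) / mu + c u := by
      rw [e]
      exact div_nonneg (by linarith) hmu.le
    have h4 : (t : ℝ) ≤ (u + 0) / mu + c u :=
      (by exact_mod_cast ht : (t : ℝ) ≤ (⌊(u + 0) / mu + c u⌋₊ : ℝ)).trans (Nat.floor_le h3)
    have h5 : (u + 0) / mu ≤ lg n / mu := by
      apply div_le_div_of_nonneg_right _ hmu.le
      linarith
    linarith
  · apply Eventually.of_forall
    intro u
    apply Gd_mono
    rintro n hn1 hn2 ⟨⟨t, ht, hw, hmod⟩, hc⟩
    obtain ⟨n0, n1, n2⟩ := lg_of_mem hn1 hn2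
    refine ⟨⟨t, ?_, hw, hmod⟩, hc⟩
    apply Nat.le_floor
    have h5 : lg n / mu ≤ (u + 1) / mu := by
      apply div_le_div_of_nonneg_right _ hmu.le
      linarith
    linarith

/-- FDDM -/
theorem fddM (hK : KMFStatement) (hG : GBMStatement) (hR : RESStatement) : FDDMStatement := by
  intro d W D₀ hW hD₀ m hm γ r α z hα0 hα hαr K y c hK0 hKm hKα hy hc j k a
  obtain ⟨hDa, hDb⟩ := dens_le hD₀
  have hmR : (1 : ℝ) ≤ m := by exact_mod_cast hm
  obtain ⟨D, hDD⟩ : ∃ D : ℝ, D = D₀ / m := ⟨_, rfl⟩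
  have hD0 : 0 ≤ D := by
    rw [hDD]
    positivity
  have hD1 : D ≤ 1 := by
    rw [hDD, div_le_one (by linarith)]
    linarith
  have hD0' : 0 ≤ D₀ / m := by rwa [← hDD]
  have hD1' : D₀ / m ≤ 1 := by rwa [← hDD]
  have hlimit : D₀ / (m * 2 ^ j * 3 ^ k) * ∏ i ∈ range (r + 1), PhiG (z i) =
      D / (2 ^ j * 3 ^ k) * ∏ i ∈ range (r + 1), PhiG (z i) := by
    rw [hDD, div_div]
    congr 2
    ring
  rw [hlimit]
  obtain ⟨γ', hγ'⟩ : ∃ g : ℝ → ℕ, g = fun u => γ + (m - 1) * K r u := ⟨_, rfl⟩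
  have hγK : ∀ u : ℝ, K r u + γ' u ≡ γ [MOD m] := by
    intro u
    have e : K r u + γ' u = γ + m * K r u := by
      rw [hγ']
      obtain ⟨m', rfl⟩ : ∃ m', m = m' + 1 := ⟨m - 1, by omega⟩
      simp only [Nat.add_sub_cancel]
      ring
    rw [e]
    unfold Nat.ModEq
    rw [Nat.add_mul_mod_self_left]
  obtain ⟨R₀, hR₀⟩ := hKα
  have hbase : Lim d (D * PhiG (z r)) (fun u => FinM d W m (γ' u) (c u)) (α r) := by
    rw [hDD]
    exact base_limM hG hW hD₀ hm hD0' hD1' hαr hc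
  -- the sets
  have hset : ∀ u : ℝ, PathBM d W m γ r (fun i => K i u) (fun i => y i u) (c u) =
      Ch d (FinM d W m (γ' u) (c u)) r (fun i => K (i + 1) u - K i u) (fun i => y i u) := by
    intro u
    ext n
    have h1 := mem_chain d (FinM d W m (γ' u) (c u)) r (fun i => K i u) (fun i => y i u) n
      (fun i hi => hKm i hi u)
    rw [hK0 u, Function.iterate_zero, id_eq] at h1
    rw [h1]
    have e : ∀ t : ℕ, (t ≡ γ' u [MOD m]) ↔ K r u + t ≡ γ [MOD m] := by
      intro t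
      constructor
      · intro h
        exact (h.add_left (K r u)).trans (hγK u)
      · intro h
        exact Nat.ModEq.add_left_cancel' (K r u) (h.trans (hγK u).symm)
    unfold PathBM FinM
    simp only [Set.mem_ofPred_eq, e]
    rfl
  simp only [hset]
  cases r with
  | zero =>
    have hγγ : ∀ u : ℝ, γ' u = γ := by
      intro u
      rw [hγ']
      have := hK0 u
      simp only [this, Nat.mul_zero, Nat.add_zero]
    simp only [hγγ]
    have h1 := fdd_zeroM hG hR hW hD₀ hm γ (z 0) c (by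
      rw [hα0] at hc
      simpa using hc) j k a
    rw [← hDD] at h1
    have e : D / (2 ^ j * 3 ^ k) * ∏ i ∈ range (0 + 1), PhiG (z i) =
        D * PhiG (z 0) / (2 ^ j * 3 ^ k) := by
      rw [zero_add, Finset.prod_range_one]
      ring
    rw [e]
    exact h1
  | succ r =>
    have hP0 : 0 ≤ D * PhiG (z (r + 1)) := mul_nonneg hD0 (PhiG_nonneg _)
    have hP1 : D * PhiG (z (r + 1)) ≤ 1 := mul_le_one₀ hD1 (PhiG_nonneg _) (PhiG_le_one _)
    have hinc : ∀ i < r + 1, ∀ᶠ u : ℝ in atTop,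
        |mu * ((K (i + 1) u - K i u : ℕ) : ℝ) - (α i - α (i + 1)) * u| ≤ 2 * R₀ * √u := by
      intro i hi
      filter_upwards [hR₀ i (by omega), hR₀ (i + 1) (by omega)] with u h1 h2
      rw [Nat.cast_sub (hKm i hi u)]
      rw [abs_le] at h1 h2 ⊢
      constructor <;> linarith [h1.1, h1.2, h2.1, h2.2]
    have hyy : ∀ i < r + 1, Tendsto (fun u : ℝ => (y i u + mu * ((K (i + 1) u - K i u : ℕ) : ℝ) -
        z i * (th / 2) * √((K (i + 1) u - K i u : ℕ) : ℝ)) / √u) atTop (𝓝 0) := by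
      intro i hi
      refine (hy i hi).congr fun u => ?_
      rw [Nat.cast_sub (hKm i hi u)]
    have h1 := chain_lim hK hP0 hP1 r (fun i => α (i + 1)) (fun i => z (i + 1))
      (fun i u => K (i + 1 + 1) u - K (i + 1) u) (fun i u => y (i + 1) u) (2 * R₀) hbase hαr
      (fun i hi => hα (i + 1) (by omega)) (fun i hi => hinc (i + 1) (by omega))
      (fun i hi => hyy (i + 1) (by omega))
    have hp0 : 0 ≤ ∏ i ∈ range r, PhiG (z (i + 1)) :=
      Finset.prod_nonneg fun i _ => PhiG_nonneg _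
    have hp1 : ∏ i ∈ range r, PhiG (z (i + 1)) ≤ 1 :=
      Finset.prod_le_one (fun i _ => PhiG_nonneg _) fun i _ => PhiG_le_one _
    have hα1pos : 0 < α 1 := by
      have : ∀ i, i ≤ r → 0 < α (r + 1 - i) := by
        intro i
        induction i with
        | zero => intro _; exact hαr
        | succ i ihi =>
          intro hi
          have e1 := ihi (by omega)
          have e2 := hα (r + 1 - (i + 1)) (by omega)
          have e3 : r + 1 - (i + 1) + 1 = r + 1 - i := by omega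
          rw [e3] at e2
          exact e1.trans e2
      have h := this r le_rfl
      have e : r + 1 - r = 1 := by omega
      rw [e] at h
      exact h
    have h2 := fdd_succ hK hR h1 (mul_nonneg hP0 hp0) (mul_le_one₀ hP1 hp0 hp1) hα1pos
      (by rw [← hα0]; exact hα 0 (by omega)) (M := fun u => K (0 + 1) u - K 0 u)
      (y := fun u => y 0 u) (z := z 0) (R₀ := 2 * R₀) (by
        have := hinc 0 (by omega)
        rw [hα0] at this
        exact this) (hyy 0 (by omega)) j k a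
    have e : D / (2 ^ j * 3 ^ k) * ∏ i ∈ range (r + 1 + 1), PhiG (z i) =
        D * PhiG (z (r + 1)) * (∏ i ∈ range r, PhiG (z (i + 1))) * PhiG (z 0) /
          (2 ^ j * 3 ^ k) := by
      rw [Finset.prod_range_succ', Finset.prod_range_succ]
      ring
    rw [e]
    exact h2

end Pool.Agent.Lib.MP_edb5be_nt.TS.H58
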