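import Pool.Agent.Lib.MP_edb5be_nt.TS.H58.Ext
import Pool.Agent.Lib.MP_edb5be_nt.TS.H58.FddM
import Pool.Agent.Lib.MP_edb5be_nt.TS.H32.Zver2
import Pool.Agent.Lib.MP_edb5be_nt.TS.H57.Per
import Pool.Agent.Lib.MP_edb5be_nt.TS.H82.Gbm
import Pool.Agent.Lib.MP_edb5be_nt.PD.H26.Asm

/-!
Project TS: assembly of the second stage.
-/

set_option autoImplicit false

namespace Pool.Agent.Lib.MP_edb5be_nt.TS.H58

open Finset Filter Topology Pool.Agent.Lib.MP_0a5adf_nt.TP Pool.Agent.Lib.MP_edb5be_nt.ND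
  Pool.Agent.Lib.MP_edb5be_nt.ND.H82 Pool.Agent.Lib.MP_edb5be_nt.TS

theorem gbmT : GBMStatement := HB82.gbm TS.H57.per

theorem fddmT : FDDMStatement := fddM kmfT gbmT resT

/-- Positive density. -/
theorem dens_pos {d : Bool} {W : Set ℤ} {D : ℝ} (hD : HasDens d (HitZ W) D) {x : ℤ} (hx : x ∈ W)
    (hs : 0 < sg d * x) (h3 : ¬ (3 : ℤ) ∣ x) : 0 < D := by
  obtain ⟨c, K, hc, -, H⟩ := PD.finalT
  obtain ⟨⟨D', hD1, hD2⟩, -⟩ := (H d).1 x hs h3
  have hx0 : x ≠ 0 := by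
    rintro rfl
    simp at hs
  have habs : 0 < |(x : ℝ)| := abs_pos.2 (by exact_mod_cast hx0)
  have h1 : 0 < D' := lt_of_lt_of_le (by positivity) hD1
  refine h1.trans_le (le_of_tendsto_of_tendsto hD2 hD ?_)
  filter_upwards [eventually_gt_atTop (0 : ℝ)] with X hX
  refine div_le_div_of_nonneg_right (H38.cnt_mono d ?_ X) hX.le
  rintro n ⟨k, hk⟩
  exact ⟨k, by
    show TZ^[k] n ∈ W
    have : TZ^[k] n = x := hk
    rw [this]
    exact hx⟩

/-- The joint law for the sets with finitely many elements that are not periodic. -/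
theorem dwmz_inf (hW : DWMZStatement) (d : Bool) {W : Set ℤ}
    (hfin : (W \ Function.periodicPts TZ).Finite) {D : ℝ} (hD : HasDens d (HitZ W) D) {m : ℕ}
    (hm : 0 < m) (c j k : ℕ) (a : ℤ) :
    HasDens d {x : ℤ | x ≡ a [ZMOD 2 ^ j * 3 ^ k] ∧ ∃ t : ℕ, FirstZ W x t ∧ t ≡ c [MOD m]}
        (D / (m * 2 ^ j * 3 ^ k)) ∧
      ∀ (r : ℕ) (s z : ℕ → ℝ), s 0 = 0 → (∀ i < r, s i < s (i + 1)) → nu * s r < 1 →
        HasDens d {x : ℤ | x ≡ a [ZMOD 2 ^ j * 3 ^ k] ∧ PathMZ W m c r s z x}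
          (D / (m * 2 ^ j * 3 ^ k) * ∏ i ∈ range (r + 1), PhiG (z i)) := by
  have hm1 : (1 : ℝ) ≤ m := by exact_mod_cast hm
  have hM : (1 : ℝ) ≤ m * 2 ^ j * 3 ^ k :=
    one_le_mul_of_one_le_of_one_le (one_le_mul_of_one_le_of_one_le hm1
      (one_le_pow₀ (by norm_num))) (one_le_pow₀ (by norm_num))
  have hM0 : (0 : ℝ) < m * 2 ^ j * 3 ^ k := lt_of_lt_of_le one_pos hM
  have hFirst : ∀ (W W' : Set ℤ) (x : ℤ), (∀ i : ℕ, TZ^[i] x ∈ W ↔ TZ^[i] x ∈ W') →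
      ∀ t : ℕ, FirstZ W x t ↔ FirstZ W' x t := by
    intro W W' x h t
    unfold FirstZ
    simp only [h]
  constructor
  · have h1 := ext_inf d
      (fun W => {x : ℤ | x ≡ a [ZMOD 2 ^ j * 3 ^ k] ∧ ∃ t : ℕ, FirstZ W x t ∧ t ≡ c [MOD m]})
      (1 / (m * 2 ^ j * 3 ^ k)) (by positivity) ((div_le_one hM0).2 hM)
      (fun W W' x h => by
        have := hFirst W W' x h
        simp only [Set.mem_setOf_eq, this])
      (fun W hWf D hD => by
        have := (hW d W D hWf hD m hm c j k a).1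
        rwa [div_eq_mul_one_div] at this)
      hfin hD
    rwa [← div_eq_mul_one_div] at h1
  · intro r s z hs0 hs1 hs2
    have hp0 : 0 ≤ ∏ i ∈ range (r + 1), PhiG (z i) := Finset.prod_nonneg fun i _ => PhiG_nonneg _
    have hp1 : ∏ i ∈ range (r + 1), PhiG (z i) ≤ 1 :=
      Finset.prod_le_one (fun i _ => PhiG_nonneg _) fun i _ => PhiG_le_one _
    have h1 := ext_inf d
      (fun W => {x : ℤ | x ≡ a [ZMOD 2 ^ j * 3 ^ k] ∧ PathMZ W m c r s z x})
      ((∏ i ∈ range (r + 1), PhiG (z i)) / (m * 2 ^ j * 3 ^ k)) (by positivity)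
      ((div_le_one hM0).2 (hp1.trans hM))
      (fun W W' x h => by
        have := hFirst W W' x h
        simp only [Set.mem_setOf_eq, PathMZ, this])
      (fun W hWf D hD => by
        have := (hW d W D hWf hD m hm c j k a).2 r s z hs0 hs1 hs2
        have e : D / (m * 2 ^ j * 3 ^ k) * ∏ i ∈ range (r + 1), PhiG (z i) =
            D * ((∏ i ∈ range (r + 1), PhiG (z i)) / (m * 2 ^ j * 3 ^ k)) := by ring
        rwa [e] at this)
      hfin hD
    have e : D / (m * 2 ^ j * 3 ^ k) * ∏ i ∈ range (r + 1), PhiG (z i) =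
        D * ((∏ i ∈ range (r + 1), PhiG (z i)) / (m * 2 ^ j * 3 ^ k)) := by ring
    rwa [e]

end Pool.Agent.Lib.MP_edb5be_nt.TS.H58
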