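import Pool.Agent.Lib.MP_edb5be_nt.TS.H58.BaseS
import Pool.Agent.Lib.MP_edb5be_nt.TS.H58.Fdd

/-!
Project TS: the joint law in blocks for the invariant sets.
-/

set_option autoImplicit false

namespace Pool.Agent.Lib.MP_edb5be_nt.TS.H58

open Finset Filter Topology Pool.Agent.Lib.MP_0a5adf_nt.TP Pool.Agent.Lib.MP_edb5be_nt.ND
  Pool.Agent.Lib.MP_edb5be_nt.ND.H82 Pool.Agent.Lib.MP_edb5be_nt.TS

theorem gs_of (hG : GSUStatement) : GSStatement := by
  intro d S lo₀ D hS hD lo hlo hlo2 z t ht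
  have hth := thp
  have hmu := mu_pos
  have hsm : 0 < √mu := Real.sqrt_pos.2 hmu
  rw [Metric.tendsto_nhds]
  intro ε hε
  obtain ⟨η, L, hη, hev⟩ := hG d S lo₀ D hS hD z (ε / 2) (by positivity)
  unfold AsymT at ht
  rw [Metric.tendsto_nhds] at ht hlo2
  filter_upwards [hev, hlo.eventually_ge_atTop L, hlo2 η hη,
    ht (η * √mu / (th / 2)) (by positivity), eventually_gt_atTop 0] with u h1 h2 h3 h4 h5
  have hsu : 0 < √u := Real.sqrt_pos.2 h5
  rw [Real.dist_eq, sub_zero, abs_of_nonneg (by positivity), div_lt_iff₀ hsu] at h3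
  rw [Real.dist_eq] at h4 ⊢
  refine lt_of_le_of_lt (h1 (lo u) (t u) h2 h3.le ?_) (by linarith)
  rw [Real.sqrt_div h5.le] at h4 ⊢
  have hq : 0 < th / 2 * (√u / √mu) := by positivity
  have e : (mu * (t u : ℝ) - u) / (th / 2 * (√u / √mu)) - z =
      (mu * (t u : ℝ) - u - z * (th / 2 * (√u / √mu))) / (th / 2 * (√u / √mu)) := by
    field_simp
  rw [e, abs_div, abs_of_pos hq, div_lt_iff₀ hq] at h4
  have e2 : η * √mu / (th / 2) * (th / 2 * (√u / √mu)) = η * √u := by field_simp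
  linarith

/-- Few trajectories fall below `2 ^ lo` in `K ≤ (1 - α) u / mu + O (√u)` steps. -/
theorem early (hG : GSUStatement) {d : Bool} {lo₀ : ℕ} {K : ℝ → ℕ} {α R : ℝ} (hα : 0 < α)
    (hK : ∀ᶠ u : ℝ in atTop, |u - mu * K u - α * u| ≤ R * √u) :
    Tendsto (fun u : ℝ => Gd {n : ℕ | ∃ i < K u, (T d)^[i] n < 2 ^ lo₀} u) atTop (𝓝 0) := by
  have hth := thp
  have hmu := mu_pos
  have hsm : 0 < √mu := Real.sqrt_pos.2 hmu
  have huniv : InvA d (Set.univ : Set ℕ) 0 := fun n _ => by simp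
  have hDu : Tendsto (Gd (Set.univ : Set ℕ)) atTop (𝓝 1) := by
    have h1 : Tendsto (fun u : ℝ => 1 - 1 / (2 : ℝ) ^ u) atTop (𝓝 (1 - 0)) := by
      apply Tendsto.const_sub
      exact (tendsto_rpow_atTop_of_base_gt_one 2 (by norm_num)).const_div_atTop 1
    have h2 : Tendsto (fun u : ℝ => 1 + 1 / (2 : ℝ) ^ u) atTop (𝓝 (1 + 0)) := by
      apply Tendsto.const_add
      exact (tendsto_rpow_atTop_of_base_gt_one 2 (by norm_num)).const_div_atTop 1
    rw [sub_zero] at h1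
    rw [add_zero] at h2
    refine tendsto_of_tendsto_of_tendsto_of_le_of_le' h1 h2 ?_ ?_
    · filter_upwards [eventually_ge_atTop 0] with u hu
      unfold Gd
      rw [le_div_iff₀ (by positivity)]
      have h3 : {N : ℕ | N ∈ (Set.univ : Set ℕ) ∧ (2 : ℝ) ^ u ≤ N ∧ (N : ℝ) < 2 ^ (u + 1)} =
          ((Finset.Ico ⌈(2 : ℝ) ^ u⌉₊ ⌈(2 : ℝ) ^ (u + 1)⌉₊ : Finset ℕ) : Set ℕ) := by
        ext N
        simp only [Set.mem_univ, true_and, Set.mem_setOf_eq, Finset.coe_Ico, Set.mem_Ico,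
          Nat.ceil_le, Nat.lt_ceil]
      rw [h3, Set.ncard_coe_finset, Nat.card_Ico]
      have h4 : (2 : ℝ) ^ (u + 1) = 2 * 2 ^ u := by
        rw [Real.rpow_add (by norm_num), Real.rpow_one]
        ring
      have h5 : (⌈(2 : ℝ) ^ u⌉₊ : ℝ) < 2 ^ u + 1 := Nat.ceil_lt_add_one (by positivity)
      have h6 : (2 : ℝ) ^ (u + 1) ≤ ⌈(2 : ℝ) ^ (u + 1)⌉₊ := Nat.le_ceil _
      have h7 : ⌈(2 : ℝ) ^ u⌉₊ ≤ ⌈(2 : ℝ) ^ (u + 1)⌉₊ := by
        apply Nat.ceil_le_ceil
        rw [h4]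
        have : (0 : ℝ) < 2 ^ u := by positivity
        linarith
      rw [Nat.cast_sub h7]
      have h8 : (1 - 1 / (2 : ℝ) ^ u) * 2 ^ u = 2 ^ u - 1 := by
        field_simp
      linarith
    · filter_upwards [eventually_ge_atTop 0] with u hu
      exact (H63.lip _ u 0 hu le_rfl (by norm_num)).2.1
  rw [Metric.tendsto_nhds]
  intro ε hε
  -- `z` with a small `PhiG z`
  obtain ⟨z, hz⟩ : ∃ z : ℝ, PhiG z < ε / 4 := by
    have h1 : Tendsto PhiG atBot (𝓝 0) := by
      have : PhiG = ProbabilityTheory.cdf (ProbabilityTheory.gaussianReal 0 1) := by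
        funext z
        exact PhiG_eq_cdf z
      rw [this]
      exact ProbabilityTheory.tendsto_cdf_atBot _
    exact (h1.eventually (gt_mem_nhds (show (0 : ℝ) < ε / 4 by positivity))).exists
  obtain ⟨η, L, hη, hev⟩ := hG d Set.univ 0 1 huniv hDu z (ε / 4) (by positivity)
  obtain ⟨l, hl⟩ : ∃ l : ℕ, l = max L lo₀ := ⟨_, rfl⟩
  filter_upwards [hev, hK, eventually_ge_atTop 1, ev_sqrt (R + |z| * (th / 2) / √mu) α hα,
    ev_quarter 0 (l + mu) η hη, ev_sqrt (|z| * (th / 2) / √mu) 1 one_pos]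
    with u h1 h2 h3 h4 h5 h6
  have hu0 : 0 < u := by linarith
  have hsu : 0 < √u := Real.sqrt_pos.2 hu0
  rw [Real.dist_eq, sub_zero, abs_of_nonneg (Gd_nonneg _ _)]
  have hzz : |z * (th / 2 * (√u / √mu))| ≤ |z| * (th / 2) / √mu * √u := by
    rw [abs_mul, abs_of_pos (by positivity : 0 < th / 2 * (√u / √mu))]
    apply le_of_eq
    ring
  rw [abs_le] at hzz h2
  have hnn : 0 ≤ tt z u := by
    unfold tt
    apply div_nonneg _ hmu.le
    rw [Real.sqrt_div hu0.le]
    linarith [hzz.1]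
  have hl5 : (l : ℝ) + mu ≤ η * √u := by
    have h7 : (0 : ℝ) * u ^ (1 / 4 : ℝ) = 0 := by ring
    linarith
  have ht1 : (⌊tt z u⌋₊ : ℝ) ≤ tt z u := Nat.floor_le hnn
  have ht2 : tt z u < ⌊tt z u⌋₊ + 1 := Nat.lt_floor_add_one _
  have ht3 : mu * tt z u = u + z * (th / 2 * √(u / mu)) := by
    unfold tt
    field_simp
  have ht1' := mul_le_mul_of_nonneg_left ht1 hmu.le
  have ht2' := mul_le_mul_of_nonneg_left ht2.le hmu.le
  have h7 := h1 l ⌊tt z u⌋₊ (by rw [hl]; exact le_max_left _ _) (by linarith) (by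
    rw [abs_le]
    have hl0 : (0 : ℝ) ≤ l := Nat.cast_nonneg _
    constructor <;> linarith)
  rw [abs_le, one_mul] at h7
  have hKt : K u ≤ ⌊tt z u⌋₊ := by
    apply Nat.le_floor
    have h8 : mu * K u ≤ mu * tt z u := by
      rw [ht3, Real.sqrt_div hu0.le]
      linarith [hzz.1, h2.1, h2.2]
    exact le_of_mul_le_mul_left h8 hmu
  have h9 : Gd {n : ℕ | ∃ i < K u, (T d)^[i] n < 2 ^ lo₀} u ≤
      Gd (Fll d Set.univ l ⌊tt z u⌋₊) u := by
    apply Gd_mono
    rintro n - - ⟨i, hi, hn⟩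
    refine ⟨trivial, i, by omega, hn.trans_le ?_⟩
    apply Nat.pow_le_pow_right (by norm_num)
    rw [hl]
    exact le_max_right _ _
  linarith [h7.2]

/-- `r = 0` -/
theorem fdd_zeroS (hG : GSStatement) (hR : RESStatement) {d : Bool} {S : Set ℕ} {lo₀ : ℕ} {D : ℝ}
    (hS : InvA d S lo₀) (hD : Tendsto (Gd S) atTop (𝓝 D)) {lo : ℝ → ℕ}
    (hlo : Tendsto lo atTop atTop) (hlo2 : Tendsto (fun u : ℝ => (lo u : ℝ) / √u) atTop (𝓝 0))
    (z : ℝ) (c : ℝ → ℝ)
    (hc : Tendsto (fun u : ℝ => (mu * c u - z * (th / 2) * √(u / mu)) / √u) atTop (𝓝 0))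
    (j k a : ℕ) : Tendsto (fun u : ℝ =>
      Gd {n : ℕ | n ∈ FinS d S (lo u) (c u) ∧ n ≡ a [MOD 2 ^ j * 3 ^ k]} u) atTop
      (𝓝 (D * PhiG z / (2 ^ j * 3 ^ k))) := by
  have hth := thp
  have hmu := mu_pos
  have hmu1 : mu ≤ 1 := by
    unfold mu
    linarith
  have hsm : 0 < √mu := Real.sqrt_pos.2 hmu
  -- the thresholds are large
  have hcl : ∀ s : ℝ, |s| ≤ 1 → ∀ᶠ u : ℝ in atTop, u / 2 ≤ u + s + mu * c u := by
    intro s hs
    filter_upwards [ev_small hc 1 one_pos, eventually_ge_atTop 1,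
      ev_sqrt (|z| * (th / 2) / √mu + 2) (1 / 2) (by norm_num)] with u h1 h2 h3
    have hu0 : 0 < u := by linarith
    have hs1 : 1 ≤ √u := by
      rw [show (1 : ℝ) = √1 by simp]
      exact Real.sqrt_le_sqrt h2
    rw [Real.sqrt_div hu0.le] at h1
    have h4 : |z * (th / 2) * (√u / √mu)| ≤ |z| * (th / 2) / √mu * √u := by
      rw [abs_mul, abs_mul, abs_of_pos (by positivity : 0 < th / 2),
        abs_of_nonneg (by positivity : 0 ≤ √u / √mu)]
      apply le_of_eq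
      ring
    rw [abs_le] at h1 h4 hs
    linarith [h1.1, h4.1, hs.1]
  have main : ∀ s : ℝ, |s| ≤ 1 → Tendsto (fun u : ℝ =>
      Gd {n : ℕ | n ∈ Fll d S (lo u) ⌊(u + s) / mu + c u⌋₊ ∧ n ≡ a [MOD 2 ^ j * 3 ^ k]} u) atTop
      (𝓝 (D * PhiG z / (2 ^ j * 3 ^ k))) := by
    intro s hs
    have hfl : ∀ᶠ u : ℝ in atTop, |mu * (⌊(u + s) / mu + c u⌋₊ : ℝ) - (u + s + mu * c u)| ≤ 1 := by
      filter_upwards [hcl s hs, eventually_ge_atTop 0] with u h1 h2
      have e : (u + s) / mu + c u = (u + s + mu * c u) / mu := by field_simp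
      rw [e]
      have h3 : 0 ≤ (u + s + mu * c u) / mu := div_nonneg (by linarith) hmu.le
      have h4 : (⌊(u + s + mu * c u) / mu⌋₊ : ℝ) ≤ (u + s + mu * c u) / mu := Nat.floor_le h3
      have h5 : (u + s + mu * c u) / mu < ⌊(u + s + mu * c u) / mu⌋₊ + 1 := Nat.lt_floor_add_one _
      rw [le_div_iff₀ hmu] at h4
      rw [div_lt_iff₀ hmu] at h5
      rw [abs_le]
      constructor <;> linarith
    have hasym : AsymT z (fun u => ⌊(u + s) / mu + c u⌋₊) := by
      apply asym_of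
      have t1 : Tendsto (fun u : ℝ => (2 : ℝ) / √u) atTop (𝓝 0) :=
        Real.tendsto_sqrt_atTop.const_div_atTop 2
      have t2 : Tendsto (fun u : ℝ => ((mu * (⌊(u + s) / mu + c u⌋₊ : ℝ) - (u + s + mu * c u)) + s)
          / √u) atTop (𝓝 0) := by
        refine squeeze_zero_norm' ?_ t1
        filter_upwards [hfl, eventually_gt_atTop 0] with u h1 h2
        have hs0 : 0 < √u := Real.sqrt_pos.2 h2
        rw [Real.norm_eq_abs, abs_div, abs_of_pos hs0]
        apply div_le_div_of_nonneg_right _ hs0.le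
        refine (abs_add_le _ _).trans ?_
        linarith
      have t3 := t2.add hc
      rw [add_zero] at t3
      refine t3.congr fun u => ?_
      rw [← add_div]
      congr 1
      ring
    exact H52.gs_res hG hR d S lo₀ D hS hD lo hlo hlo2 z _ hasym j k a
  refine tendsto_of_tendsto_of_tendsto_of_le_of_le' (main 0 (by simp)) (main 1 (by simp)) ?_ ?_
  · filter_upwards [hcl 0 (by simp), eventually_ge_atTop 0] with u h1 h2
    apply Gd_mono
    rintro n hn1 hn2 ⟨⟨hnS, t, ht, hw⟩, hc⟩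
    obtain ⟨n0, n1, n2⟩ := lg_of_mem hn1 hn2
    refine ⟨⟨hnS, t, ?_, hw⟩, hc⟩
    have e : (u + 0) / mu + c u = (u + 0 + mu * c u) / mu := by field_simp
    have h3 : 0 ≤ (u + 0) / mu + c u := by
      rw [e]
      exact div_nonneg (by linarith) hmu.le
    have h4 : (t : ℝ) ≤ (u + 0) / mu + c u :=
      (by exact_mod_cast ht : (t : ℝ) ≤ (⌊(u + 0) / mu + c u⌋₊ : ℝ)).trans (Nat.floor_le h3)
    have h5 : (u + 0) / mu ≤ lg n / mu := by
      apply div_le_div_of_nonneg_right _ hmu.le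
      linarith
    linarith
  · apply Eventually.of_forall
    intro u
    apply Gd_mono
    rintro n hn1 hn2 ⟨⟨hnS, t, ht, hw⟩, hc⟩
    obtain ⟨n0, n1, n2⟩ := lg_of_mem hn1 hn2
    refine ⟨⟨hnS, t, ?_, hw⟩, hc⟩
    apply Nat.le_floor
    have h5 : lg n / mu ≤ (u + 1) / mu := by
      apply div_le_div_of_nonneg_right _ hmu.le
      linarith
    linarith

/-- FDDS -/
theorem fddS (hK : KMFStatement) (hG : GSUStatement) (hR : RESStatement) : FDDSStatement := by
  intro d S lo₀ D hS hD lo hlo hlo2 r α z hα0 hα hαr K y c hK0 hKm hKα hy hc j k a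
  obtain ⟨hD0, hD1⟩ := dens_le hD
  obtain ⟨R₀, hR₀⟩ := hKα
  have hbase : Lim d (D * PhiG (z r)) (fun u => FinS d S (lo u) (c u)) (α r) :=
    base_limS hG hS hD hlo hlo2 hαr hc
  -- the sets, with the condition `T^(K r) n ∈ S`
  have hset : ∀ u : ℝ, {n : ℕ |
      (∀ i < r, Real.logb 2 ((T d)^[K (i + 1) u] n) - Real.logb 2 ((T d)^[K i u] n) ≤ y i u) ∧
      (T d)^[K r u] n ∈ S ∧
      ∃ t : ℕ, (t : ℝ) ≤ Real.logb 2 ((T d)^[K r u] n) / mu + c u ∧
        (T d)^[K r u + t] n < 2 ^ lo u} =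
      Ch d (FinS d S (lo u) (c u)) r (fun i => K (i + 1) u - K i u) (fun i => y i u) := by
    intro u
    ext n
    have h1 := mem_chain d (FinS d S (lo u) (c u)) r (fun i => K i u) (fun i => y i u) n
      (fun i hi => hKm i hi u)
    rw [hK0 u, Function.iterate_zero, id_eq] at h1
    rw [h1]
    unfold FinS
    simp only [Set.mem_ofPred_eq]
    have e : ∀ t : ℕ, (T d)^[K r u + t] n = (T d)^[t] ((T d)^[K r u] n) := by
      intro t
      rw [add_comm, Function.iterate_add_apply]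
    simp only [e]
    rfl
  have hmain : Tendsto (fun u : ℝ => Gd {n : ℕ | n ∈ Ch d (FinS d S (lo u) (c u)) r
      (fun i => K (i + 1) u - K i u) (fun i => y i u) ∧ n ≡ a [MOD 2 ^ j * 3 ^ k]} u) atTop
      (𝓝 (D / (2 ^ j * 3 ^ k) * ∏ i ∈ range (r + 1), PhiG (z i))) := by
    cases r with
    | zero =>
      have h1 := fdd_zeroS (gs_of hG) hR hS hD hlo hlo2 (z 0) c (by
        rw [hα0] at hc
        simpa using hc) j k a
      have e : D / (2 ^ j * 3 ^ k) * ∏ i ∈ range (0 + 1), PhiG (z i) =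
          D * PhiG (z 0) / (2 ^ j * 3 ^ k) := by
        rw [zero_add, Finset.prod_range_one]
        ring
      rw [e]
      exact h1
    | succ r =>
      have hP0 : 0 ≤ D * PhiG (z (r + 1)) := mul_nonneg hD0 (PhiG_nonneg _)
      have hP1 : D * PhiG (z (r + 1)) ≤ 1 := mul_le_one₀ hD1 (PhiG_nonneg _) (PhiG_le_one _)
      have hinc : ∀ i < r + 1, ∀ᶠ u : ℝ in atTop,
          |mu * ((K (i + 1) u - K i u : ℕ) : ℝ) - (α i - α (i + 1)) * u| ≤ 2 * R₀ * √u := by
        intro i hi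
        filter_upwards [hR₀ i (by omega), hR₀ (i + 1) (by omega)] with u h1 h2
        rw [Nat.cast_sub (hKm i hi u)]
        rw [abs_le] at h1 h2 ⊢
        constructor <;> linarith [h1.1, h1.2, h2.1, h2.2]
      have hyy : ∀ i < r + 1, Tendsto (fun u : ℝ => (y i u + mu * ((K (i + 1) u - K i u : ℕ) : ℝ) -
          z i * (th / 2) * √((K (i + 1) u - K i u : ℕ) : ℝ)) / √u) atTop (𝓝 0) := by
        intro i hi
        refine (hy i hi).congr fun u => ?_
        rw [Nat.cast_sub (hKm i hi u)]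
      have h1 := chain_lim hK hP0 hP1 r (fun i => α (i + 1)) (fun i => z (i + 1))
        (fun i u => K (i + 1 + 1) u - K (i + 1) u) (fun i u => y (i + 1) u) (2 * R₀) hbase hαr
        (fun i hi => hα (i + 1) (by omega)) (fun i hi => hinc (i + 1) (by omega))
        (fun i hi => hyy (i + 1) (by omega))
      have hp0 : 0 ≤ ∏ i ∈ range r, PhiG (z (i + 1)) :=
        Finset.prod_nonneg fun i _ => PhiG_nonneg _
      have hp1 : ∏ i ∈ range r, PhiG (z (i + 1)) ≤ 1 :=
        Finset.prod_le_one (fun i _ => PhiG_nonneg _) fun i _ => PhiG_le_one _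
      have hα1pos : 0 < α 1 := by
        have : ∀ i, i ≤ r → 0 < α (r + 1 - i) := by
          intro i
          induction i with
          | zero => intro _; exact hαr
          | succ i ihi =>
            intro hi
            have e1 := ihi (by omega)
            have e2 := hα (r + 1 - (i + 1)) (by omega)
            have e3 : r + 1 - (i + 1) + 1 = r + 1 - i := by omega
            rw [e3] at e2
            exact e1.trans e2
        have h := this r le_rfl
        have e : r + 1 - r = 1 := by omega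
        rw [e] at h
        exact h
      have h2 := fdd_succ hK hR h1 (mul_nonneg hP0 hp0) (mul_le_one₀ hP1 hp0 hp1) hα1pos
        (by rw [← hα0]; exact hα 0 (by omega)) (M := fun u => K (0 + 1) u - K 0 u)
        (y := fun u => y 0 u) (z := z 0) (R₀ := 2 * R₀) (by
          have := hinc 0 (by omega)
          rw [hα0] at this
          exact this) (hyy 0 (by omega)) j k a
      have e : D / (2 ^ j * 3 ^ k) * ∏ i ∈ range (r + 1 + 1), PhiG (z i) =
          D * PhiG (z (r + 1)) * (∏ i ∈ range r, PhiG (z (i + 1))) * PhiG (z 0) /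
            (2 ^ j * 3 ^ k) := by
        rw [Finset.prod_range_succ', Finset.prod_range_succ]
        ring
      rw [e]
      exact h2
  -- from `T^(K r) n ∈ S` to `n ∈ S`
  have hearly := early hG (d := d) (lo₀ := lo₀) (K := K r) hαr (hR₀ r le_rfl)
  have hup := hmain.add hearly
  have hdn := hmain.sub hearly
  rw [add_zero] at hup
  rw [sub_zero] at hdn
  have hsw : ∀ (u : ℝ) (n : ℕ), n ∉ {n : ℕ | ∃ i < K r u, (T d)^[i] n < 2 ^ lo₀} →
      (n ∈ S ↔ (T d)^[K r u] n ∈ S) := by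
    intro u n hn
    apply invA_iter hS
    intro i hi
    by_contra hcon
    exact hn ⟨i, hi, not_le.1 hcon⟩
  refine tendsto_of_tendsto_of_tendsto_of_le_of_le hdn hup ?_ ?_
  · intro u
    have h1 := Gd_union (x := u) (A := {n : ℕ | n ∈ Ch d (FinS d S (lo u) (c u)) r
      (fun i => K (i + 1) u - K i u) (fun i => y i u) ∧ n ≡ a [MOD 2 ^ j * 3 ^ k]})
      (B := {n : ℕ | n ∈ PathBS d S (lo u) r (fun i => K i u) (fun i => y i u) (c u) ∧
        n ≡ a [MOD 2 ^ j * 3 ^ k]}) (B' := {n : ℕ | ∃ i < K r u, (T d)^[i] n < 2 ^ lo₀}) (by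
      rintro n - - ⟨h2, h3⟩
      by_cases hn : n ∈ {n : ℕ | ∃ i < K r u, (T d)^[i] n < 2 ^ lo₀}
      · exact Or.inr hn
      · left
        rw [← hset u] at h2
        obtain ⟨h4, h5, h6⟩ := h2
        exact ⟨⟨(hsw u n hn).2 h5, h4, h6⟩, h3⟩)
    linarith
  · intro u
    have h1 := Gd_union (x := u) (B := {n : ℕ | n ∈ Ch d (FinS d S (lo u) (c u)) r
      (fun i => K (i + 1) u - K i u) (fun i => y i u) ∧ n ≡ a [MOD 2 ^ j * 3 ^ k]})
      (A := {n : ℕ | n ∈ PathBS d S (lo u) r (fun i => K i u) (fun i => y i u) (c u) ∧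
        n ≡ a [MOD 2 ^ j * 3 ^ k]}) (B' := {n : ℕ | ∃ i < K r u, (T d)^[i] n < 2 ^ lo₀}) (by
      rintro n - - ⟨⟨h4, h5, h6⟩, h3⟩
      by_cases hn : n ∈ {n : ℕ | ∃ i < K r u, (T d)^[i] n < 2 ^ lo₀}
      · exact Or.inr hn
      · left
        refine ⟨?_, h3⟩
        rw [← hset u]
        exact ⟨h5, (hsw u n hn).1 h4, h6⟩)
    linarith

end Pool.Agent.Lib.MP_edb5be_nt.TS.H58
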