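import Pool.Agent.Lib.MP_edb5be_nt.TS.H58.FddS

/-!
Project TS: the uniform law of the time to fall below `2 ^ lo`, from the law along functions.
-/

set_option autoImplicit false

namespace Pool.Agent.Lib.MP_edb5be_nt.TS.H58

open Finset Filter Topology Pool.Agent.Lib.MP_0a5adf_nt.TP Pool.Agent.Lib.MP_edb5be_nt.ND
  Pool.Agent.Lib.MP_edb5be_nt.ND.H82 Pool.Agent.Lib.MP_edb5be_nt.TS

theorem gsu (hG : GSStatement) : GSUStatement := by
  intro d S lo₀ D hS hD z ε hε
  by_contra hcon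
  push Not at hcon
  have hth := thp
  have hmu := mu_pos
  have hsm : 0 < √mu := Real.sqrt_pos.2 hmu
  -- bad points
  have h1 : ∀ (n : ℕ) (X : ℝ), ∃ x : ℝ, X < x ∧ ∃ lo t : ℕ, n ≤ lo ∧ (lo : ℝ) ≤ 1 / (n + 1) * √x ∧
      |mu * t - x - z * (th / 2 * √(x / mu))| ≤ 1 / (n + 1) * √x ∧
      ε < |Gd (Fll d S lo t) x - D * PhiG z| := by
    intro n X
    have h2 := hcon (1 / (n + 1)) n (by positivity)
    obtain ⟨x, hx, lo, t, h3, h4, h5, h6⟩ := (h2.and_eventually (eventually_gt_atTop X)).exists.imp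
      fun x hx => (⟨hx.2, hx.1⟩ : X < x ∧ _)
    exact ⟨x, hx, lo, t, h3, h4, h5, h6⟩
  choose f hf g t hg1 hg2 hg3 hg4 using h1
  -- an increasing sequence
  obtain ⟨X, hX0, hXs⟩ : ∃ X : ℕ → ℝ, X 0 = f 0 1 ∧ ∀ n, X (n + 1) = f (n + 1) (X n + 1) :=
    ⟨fun n => Nat.rec (f 0 1) (fun n x => f (n + 1) (x + 1)) n, rfl, fun n => rfl⟩
  have hXlt : ∀ n, X n + 1 < X (n + 1) := by
    intro n
    rw [hXs]
    exact hf _ _
  have hmono : StrictMono X := strictMono_nat_of_lt_succ fun n => by linarith [hXlt n]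
  have hXn : ∀ n : ℕ, (n : ℝ) < X n := by
    intro n
    induction n with
    | zero =>
      rw [hX0]
      have := hf 0 1
      push_cast
      linarith
    | succ n ih =>
      push_cast
      linarith [hXlt n]
  -- the witnesses
  have hw : ∀ n : ℕ, ∃ lo t : ℕ, n ≤ lo ∧ (lo : ℝ) ≤ 1 / (n + 1) * √(X n) ∧
      |mu * t - X n - z * (th / 2 * √(X n / mu))| ≤ 1 / (n + 1) * √(X n) ∧
      ε < |Gd (Fll d S lo t) (X n) - D * PhiG z| := by
    intro n
    cases n with
    | zero =>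
      rw [hX0]
      exact ⟨g 0 1, t 0 1, hg1 0 1, hg2 0 1, hg3 0 1, hg4 0 1⟩
    | succ n =>
      rw [hXs]
      exact ⟨g (n + 1) (X n + 1), t (n + 1) (X n + 1), hg1 _ _, hg2 _ _, hg3 _ _, hg4 _ _⟩
  choose lo' t' hw1 hw2 hw3 hw4 using hw
  have hinj : Function.Injective X := hmono.injective
  -- the extended functions
  obtain ⟨Lo, hLo⟩ : ∃ F : ℝ → ℕ, F = Function.extend X lo' (fun x => ⌊x ^ (1 / 4 : ℝ)⌋₊) := ⟨_, rfl⟩
  obtain ⟨Tt, hTt⟩ : ∃ F : ℝ → ℕ, F = Function.extend X t' (fun x => ⌊tt z x⌋₊) := ⟨_, rfl⟩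
  have hLo1 : ∀ n, Lo (X n) = lo' n := fun n => by rw [hLo]; exact hinj.extend_apply _ _ n
  have hTt1 : ∀ n, Tt (X n) = t' n := fun n => by rw [hTt]; exact hinj.extend_apply _ _ n
  have hLo2 : ∀ x, (¬ ∃ n, X n = x) → Lo x = ⌊x ^ (1 / 4 : ℝ)⌋₊ := fun x hx => by
    rw [hLo]; exact Function.extend_apply' _ _ x hx
  have hTt2 : ∀ x, (¬ ∃ n, X n = x) → Tt x = ⌊tt z x⌋₊ := fun x hx => by
    rw [hTt]; exact Function.extend_apply' _ _ x hx
  -- `n` is large when `X n` is large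
  have hbig : ∀ N : ℕ, ∀ᶠ x : ℝ in atTop, ∀ n, X n = x → N ≤ n := by
    intro N
    filter_upwards [eventually_gt_atTop (X N)] with x hx n hn
    rw [← hn] at hx
    exact (hmono.lt_iff_lt.1 hx).le
  have l1 : Tendsto Lo atTop atTop := by
    rw [tendsto_atTop]
    intro a
    filter_upwards [hbig a, H52.tendsto_quarter.eventually_ge_atTop a] with x h2 h3
    by_cases hx : ∃ n, X n = x
    · obtain ⟨n, hn⟩ := hx
      have h4 := h2 n hn
      rw [← hn, hLo1]
      exact h4.trans (hw1 n)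
    · rw [hLo2 x hx]
      exact h3
  have l2 : Tendsto (fun x : ℝ => (Lo x : ℝ) / √x) atTop (𝓝 0) := by
    rw [Metric.tendsto_nhds]
    intro δ hδ
    obtain ⟨N, hN⟩ := exists_nat_one_div_lt hδ
    have h5 := H52.quarter_div_sqrt
    rw [Metric.tendsto_nhds] at h5
    filter_upwards [hbig N, h5 δ hδ, eventually_gt_atTop 0] with x h2 h3 h4
    have hsx : 0 < √x := Real.sqrt_pos.2 h4
    rw [Real.dist_eq, sub_zero, abs_of_nonneg (by positivity)] at h3 ⊢
    by_cases hx : ∃ n, X n = x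
    · obtain ⟨n, hn⟩ := hx
      have h6 := h2 n hn
      rw [← hn] at hsx ⊢
      rw [hLo1, div_lt_iff₀ hsx]
      refine (hw2 n).trans_lt (mul_lt_mul_of_pos_right (lt_of_le_of_lt ?_ hN) hsx)
      apply one_div_le_one_div_of_le (by positivity)
      have : (N : ℝ) ≤ n := by exact_mod_cast h6
      linarith
    · rw [hLo2 x hx]
      refine lt_of_le_of_lt ?_ h3
      apply div_le_div_of_nonneg_right _ hsx.le
      exact Nat.floor_le (by positivity)
  have l3 : AsymT z Tt := by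
    have hd := asym_floor z
    unfold AsymT at hd ⊢
    rw [Metric.tendsto_nhds] at hd ⊢
    intro δ hδ
    obtain ⟨N, hN⟩ := exists_nat_one_div_lt (show 0 < δ * (th / 2) / √mu by positivity)
    filter_upwards [hbig N, hd δ hδ, eventually_gt_atTop 0] with x h2 h3 h4
    by_cases hx : ∃ n, X n = x
    · obtain ⟨n, hn⟩ := hx
      have h6 := h2 n hn
      have hsx : 0 < √x := Real.sqrt_pos.2 h4
      have h7 := hw3 n
      rw [hn] at h7
      rw [← hn, hTt1, hn, Real.dist_eq]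
      rw [Real.sqrt_div h4.le] at h7 ⊢
      have hq : 0 < th / 2 * (√x / √mu) := by positivity
      have e : (mu * (t' n : ℝ) - x) / (th / 2 * (√x / √mu)) - z =
          (mu * (t' n : ℝ) - x - z * (th / 2 * (√x / √mu))) / (th / 2 * (√x / √mu)) := by
        field_simp
      rw [e, abs_div, abs_of_pos hq, div_lt_iff₀ hq]
      refine h7.trans_lt ?_
      have h8 : 1 / ((n : ℝ) + 1) ≤ 1 / ((N : ℝ) + 1) := by
        apply one_div_le_one_div_of_le (by positivity)
        have : (N : ℝ) ≤ n := by exact_mod_cast h6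
        linarith
      have h9 : δ * (th / 2 * (√x / √mu)) = δ * (th / 2) / √mu * √x := by
        field_simp
      rw [h9]
      exact mul_lt_mul_of_pos_right (h8.trans_lt hN) hsx
    · rw [hTt2 x hx]
      exact h3
  have h10 := hG d S lo₀ D hS hD Lo l1 l2 z Tt l3
  have hXt : Tendsto X atTop atTop :=
    tendsto_atTop_mono (fun n => (hXn n).le) tendsto_natCast_atTop_atTop
  have h11 := h10.comp hXt
  rw [Metric.tendsto_nhds] at h11
  obtain ⟨n, hn⟩ := (h11 ε hε).exists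
  simp only [Function.comp_apply] at hn
  rw [hLo1, hTt1, Real.dist_eq] at hn
  linarith [hw4 n]

end Pool.Agent.Lib.MP_edb5be_nt.TS.H58
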