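import Pool.Agent.Lib.MP_edb5be_nt.TS.H58.All2
import Pool.Agent.Lib.MP_edb5be_nt.TS.H58.FddS
import Pool.Agent.Lib.MP_edb5be_nt.TS.H32.Zver3
import Pool.Agent.Lib.MP_edb5be_nt.TS.H52.Dwm
import Pool.Agent.Lib.MP_edb5be_nt.TS.H52.Dws
import Pool.Agent.Lib.MP_edb5be_nt.TS.H62.LineS
import Pool.Agent.Lib.MP_edb5be_nt.TS.H67.NormalS
import Pool.Agent.Lib.MP_edb5be_nt.TS.H58.Gsu
import Pool.Agent.Lib.MP_edb5be_nt.TS.H58.Bcs

/-!
Project TS: assembly of the third stage.
-/

set_option autoImplicit false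

namespace Pool.Agent.Lib.MP_edb5be_nt.TS.H58

open Finset Filter Topology Pool.Agent.Lib.MP_0a5adf_nt.TP Pool.Agent.Lib.MP_edb5be_nt.ND
  Pool.Agent.Lib.MP_edb5be_nt.ND.H82 Pool.Agent.Lib.MP_edb5be_nt.TS

theorem gsuT : GSUStatement := gsu HB82.gs

theorem dwmT : DWMStatement := H52.dwm fddmT gbmT

theorem dwmzT : DWMZStatement := H32.dwmz dwmT

theorem fddsT : FDDSStatement := fddS kmfT gsuT resT

theorem dwsT : DWSStatement := H52.dws fddsT HB82.gs

theorem dwszT : DWSZStatement := H32.dwsz dwsT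

theorem linesT : LineSStatement := H62.lineS bcsT

theorem lineszT : LineSZStatement := H32.linesz linesT

theorem normalsT : NormalSStatement := H67.normalS TS.H17.bcT bcsT

theorem normalszT : NormalSZStatement := H32.normalsz normalsT

/-- the intersection of two sets of density one -/
theorem dens_inter {d : Bool} {A B : Set ℤ} (hA : HasDens d A 1) (hB : HasDens d B 1) :
    HasDens d (A ∩ B) 1 := by
  have hU := H26.dens_univ d
  have h1 : Tendsto (fun X : ℝ => cnt d A X / X + cnt d B X / X - cnt d Set.univ X / X) atTop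
      (𝓝 1) := by
    have h2 := (hA.add hB).sub hU
    have e : (1 : ℝ) + 1 - 1 = 1 := by norm_num
    rwa [e] at h2
  refine tendsto_of_tendsto_of_tendsto_of_le_of_le' h1 hA ?_ ?_
  · filter_upwards [eventually_gt_atTop 0] with X hX
    rw [← add_div, ← sub_div]
    apply div_le_div_of_nonneg_right _ hX.le
    have h3 := cnt_diff_le (d := d) (A := Set.univ) (B := A) (E := Aᶜ) (fun x hx => by
      simp only [Set.mem_compl_iff, not_not] at hx
      simp [hx]) X
    have hA' : cnt d A X + cnt d Aᶜ X = cnt d Set.univ X := by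
      rw [← H38.cnt_union_eq d (disjoint_compl_right) X, Set.union_compl_self]
    have hB' : cnt d B X ≤ cnt d (A ∩ B) X + cnt d Aᶜ X :=
      (H38.cnt_mono d (fun x hx => by
        by_cases h : x ∈ A
        · exact Or.inl ⟨h, hx⟩
        · exact Or.inr h) X).trans (H38.cnt_union_le d (A ∩ B) Aᶜ X)
    linarith
  · filter_upwards [eventually_gt_atTop 0] with X hX
    apply div_le_div_of_nonneg_right _ hX.le
    exact H38.cnt_mono d Set.inter_subset_left X

theorem dens_mono {d : Bool} {A B : Set ℤ} (hA : HasDens d A 1) (h : A ⊆ B) : HasDens d B 1 := by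
  refine tendsto_of_tendsto_of_tendsto_of_le_of_le' hA (H26.dens_univ d) ?_ ?_
  · filter_upwards [eventually_gt_atTop 0] with X hX
    exact div_le_div_of_nonneg_right (H38.cnt_mono d h X) hX.le
  · filter_upwards [eventually_gt_atTop 0] with X hX
    exact div_le_div_of_nonneg_right (H38.cnt_mono d (Set.subset_univ _) X) hX.le

theorem dens_inter_finset {d : Bool} {ι : Type} [DecidableEq ι] (s : Finset ι) (A : ι → Set ℤ)
    (h : ∀ i ∈ s, HasDens d (A i) 1) : HasDens d {x : ℤ | ∀ i ∈ s, x ∈ A i} 1 := by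
  induction s using Finset.induction_on with
  | empty =>
    refine dens_mono (H26.dens_univ d) fun x _ i hi => ?_
    simp at hi
  | insert i s hi ih =>
    refine dens_mono (dens_inter (h i (mem_insert_self _ _))
      (ih fun j hj => h j (mem_insert_of_mem hj))) ?_
    rintro x ⟨h1, h2⟩ j hj
    rcases mem_insert.1 hj with rfl | hj
    · exact h1
    · exact h2 j hj

open Classical in
/-- LINES and NORMALS together. -/
theorem bothT (d : Bool) (g ψ : ℕ → ℝ) (hg : Tendsto g atTop atTop) (hψ : Tendsto ψ atTop atTop)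
    (l : ℕ) :
    HasDens d {x : ℤ | ∀ k : ℕ, (∀ j ≤ k, g x.natAbs ≤ |((TZ^[j] x : ℤ) : ℝ)|) →
      |Real.log |((TZ^[k] x : ℤ) : ℝ)| - (Real.log |(x : ℝ)| - nu * k)| ≤
        ψ x.natAbs * √(Real.log |(x : ℝ)|) ∧
      ∀ a : ℤ, |((((range k).filter fun j => TZ^[j] x ≡ a [ZMOD 2 ^ l]).card : ℕ) : ℝ) -
        (k : ℝ) / 2 ^ l| ≤ ψ x.natAbs * √(Real.log |(x : ℝ)|)} 1 := by
  have h1 := lineszT d g ψ hg hψ
  have h2 := dens_inter_finset (d := d) (Finset.Ico (0 : ℤ) (2 ^ l)) _
    (fun a _ => normalszT d g ψ hg hψ l a)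
  refine dens_mono (dens_inter h1 h2) ?_
  rintro x ⟨hx1, hx2⟩ k hk
  refine ⟨hx1 k hk, fun a => ?_⟩
  have h3 := hx2 (a % 2 ^ l) (by
    rw [Finset.mem_Ico]
    exact ⟨Int.emod_nonneg _ (by positivity), Int.emod_lt_of_pos _ (by positivity)⟩) k
    (fun j hj => hk j hj.le)
  have h4 : ∀ j : ℕ, (TZ^[j] x ≡ a % 2 ^ l [ZMOD 2 ^ l]) ↔ TZ^[j] x ≡ a [ZMOD 2 ^ l] := by
    intro j
    constructor
    · exact fun h => h.trans (Int.mod_modEq _ _)
    · exact fun h => h.trans (Int.mod_modEq _ _).symm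
  simp only [h4] at h3
  exact h3

end Pool.Agent.Lib.MP_edb5be_nt.TS.H58
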