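import Pool.Agent.Lib.MP_edb5be_nt.TS.H58.Chain

/-!
Project TS: the final event, uniformly in blocks.
-/

set_option autoImplicit false

namespace Pool.Agent.Lib.MP_edb5be_nt.TS.H58

open Finset Filter Topology Pool.Agent.Lib.MP_0a5adf_nt.TP Pool.Agent.Lib.MP_edb5be_nt.ND
  Pool.Agent.Lib.MP_edb5be_nt.ND.H82 Pool.Agent.Lib.MP_edb5be_nt.TS

/-- the natural threshold -/
noncomputable def tt (z : ℝ) (x : ℝ) : ℝ := (x + z * (th / 2 * √(x / mu))) / mu

theorem asym_floor (z : ℝ) : AsymT z (fun x => ⌊tt z x⌋₊) := by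
  have hth := thp
  have hmu := mu_pos
  unfold AsymT
  have h1 : Tendsto (fun x : ℝ => z - mu / (th / 2 * √(x / mu))) atTop (𝓝 z) := by
    have h2 : Tendsto (fun x : ℝ => th / 2 * √(x / mu)) atTop atTop :=
      Tendsto.const_mul_atTop (by positivity)
        (Real.tendsto_sqrt_atTop.comp (tendsto_id.atTop_div_const hmu))
    have h3 := (h2.const_div_atTop mu).const_sub z
    simpa using h3
  refine tendsto_of_tendsto_of_tendsto_of_le_of_le' h1 tendsto_const_nhds ?_ ?_
  · filter_upwards [eventually_gt_atTop 0] with x hx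
    have hs : 0 < th / 2 * √(x / mu) := by
      have := Real.sqrt_pos.2 (div_pos hx hmu)
      positivity
    have h2 : tt z x < ⌊tt z x⌋₊ + 1 := Nat.lt_floor_add_one _
    unfold tt at h2
    rw [div_lt_iff₀ hmu] at h2
    rw [sub_eq_add_neg, ← neg_div, ← sub_nonneg]
    have e : (mu * (⌊tt z x⌋₊ : ℝ) - x) / (th / 2 * √(x / mu)) -
        (z + -mu / (th / 2 * √(x / mu))) =
        (mu * (⌊tt z x⌋₊ : ℝ) - x - z * (th / 2 * √(x / mu)) + mu) / (th / 2 * √(x / mu)) := by
      field_simp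
      ring
    rw [e]
    apply div_nonneg _ hs.le
    unfold tt
    linarith
  · filter_upwards [eventually_gt_atTop 0, ev_sqrt (|z| * (th / 2) / √mu) 1 (by norm_num)]
      with x hx hx2
    have hs : 0 < th / 2 * √(x / mu) := by
      have := Real.sqrt_pos.2 (div_pos hx hmu)
      positivity
    rw [div_le_iff₀ hs]
    have hnn : 0 ≤ tt z x := by
      unfold tt
      apply div_nonneg _ hmu.le
      rw [Real.sqrt_div hx.le]
      have h3 : -(|z|) ≤ z := neg_abs_le z
      have h4 : 0 ≤ th / 2 * (√x / √mu) := by positivity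
      have h5 := mul_le_mul_of_nonneg_right h3 h4
      have h6 : |z| * (th / 2 * (√x / √mu)) = |z| * (th / 2) / √mu * √x := by
        have : 0 < √mu := Real.sqrt_pos.2 hmu
        field_simp
      linarith
    have h2 : (⌊tt z x⌋₊ : ℝ) ≤ tt z x := Nat.floor_le hnn
    have h3 : mu * (⌊tt z x⌋₊ : ℝ) ≤ mu * tt z x := mul_le_mul_of_nonneg_left h2 hmu.le
    have h4 : mu * tt z x = x + z * (th / 2 * √(x / mu)) := by
      unfold tt
      field_simp
    linarith

theorem rch_mono {d : Bool} {W : Set ℕ} {s t : ℕ} (h : s ≤ t) : Rch d W s ⊆ Rch d W t := by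
  rintro n ⟨k, hk, hn⟩
  exact ⟨k, hk.trans h, hn⟩

/-- GB, uniformly -/
theorem gbU (hG : GBStatement) {d : Bool} {W : Set ℕ} {D : ℝ} (hW : W.Finite)
    (hD : Tendsto (Gd (Hit d W)) atTop (𝓝 D)) (hD0 : 0 ≤ D) (hD1 : D ≤ 1) (z ε : ℝ) (hε : 0 < ε) :
    ∃ η : ℝ, 0 < η ∧ ∀ᶠ x : ℝ in atTop, ∀ t : ℕ,
      |mu * t - x - z * (th / 2 * √(x / mu))| ≤ η * √x →
      |Gd (Rch d W t) x - D * PhiG z| ≤ ε := by
  have hth := thp
  have hmu := mu_pos
  have hsm : 0 < √mu := Real.sqrt_pos.2 hmu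
  have hmu1 : mu ≤ 1 := by
    unfold mu
    linarith
  have h1 := hG d W D hW hD (z - ε / 2) _ (asym_floor (z - ε / 2))
  have h2 := hG d W D hW hD (z + ε / 2) _ (asym_floor (z + ε / 2))
  rw [Metric.tendsto_nhds] at h1 h2
  refine ⟨ε / 8 * th / √mu, by positivity, ?_⟩
  filter_upwards [h1 (ε / 2) (by positivity), h2 (ε / 2) (by positivity),
    ev_sqrt (|z| * (th / 2) / √mu + ε) 1 (by norm_num), ev_quarter 0 1 (ε / 8 * th / √mu)
    (by positivity), eventually_gt_atTop 0] with x hx1 hx2 hx3 hx4 hx0 t ht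
  have hsx : 0 < √x := Real.sqrt_pos.2 hx0
  rw [Real.dist_eq, abs_lt] at hx1 hx2
  have hP1 := PhiG_lip (show z - ε / 2 ≤ z by linarith)
  have hP2 := PhiG_lip (show z ≤ z + ε / 2 by linarith)
  rw [abs_le] at ht
  have hsq : √(x / mu) = √x / √mu := Real.sqrt_div hx0.le mu
  rw [hsq] at ht
  have hA : ε / 8 * th / √mu * √x = ε / 4 * (th / 2 * (√x / √mu)) := by
    field_simp
    ring
  have hB : 1 ≤ ε / 4 * (th / 2 * (√x / √mu)) := by
    rw [← hA]
    linarith
  rw [hA] at ht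
  have hlow : ⌊tt (z - ε / 2) x⌋₊ ≤ t := by
    rcases lt_or_ge (tt (z - ε / 2) x) 0 with h | h
    · rw [Nat.floor_of_nonpos h.le]
      exact Nat.zero_le _
    · have h3 : (⌊tt (z - ε / 2) x⌋₊ : ℝ) ≤ tt (z - ε / 2) x := Nat.floor_le h
      have h4 : tt (z - ε / 2) x ≤ t := by
        unfold tt
        rw [hsq, div_le_iff₀ hmu]
        linarith [ht.1]
      exact_mod_cast h3.trans h4
  have hup : t ≤ ⌊tt (z + ε / 2) x⌋₊ := by
    apply Nat.le_floor
    unfold tt
    rw [hsq, le_div_iff₀ hmu]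
    linarith [ht.2]
  have g1 : Gd (Rch d W ⌊tt (z - ε / 2) x⌋₊) x ≤ Gd (Rch d W t) x :=
    Gd_mono fun n _ _ hn => rch_mono hlow hn
  have g2 : Gd (Rch d W t) x ≤ Gd (Rch d W ⌊tt (z + ε / 2) x⌋₊) x :=
    Gd_mono fun n _ _ hn => rch_mono hup hn
  rw [abs_le]
  constructor
  · have : D * PhiG z - D * PhiG (z - ε / 2) ≤ ε / 2 := by
      have h5 : D * (PhiG z - PhiG (z - ε / 2)) ≤ 1 * (ε / 2) :=
        mul_le_mul hD1 (by linarith) (sub_nonneg.2 (PhiG_mono (by linarith))) (by norm_num)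
      linarith
    linarith [hx1.1]
  · have : D * PhiG (z + ε / 2) - D * PhiG z ≤ ε / 2 := by
      have h5 : D * (PhiG (z + ε / 2) - PhiG z) ≤ 1 * (ε / 2) :=
        mul_le_mul hD1 (by linarith) (sub_nonneg.2 (PhiG_mono (by linarith))) (by norm_num)
      linarith
    linarith [hx2.2]

/-- The final event: `W` is reached within `lg m / mu + c` steps. -/
def Fin (d : Bool) (W : Set ℕ) (c : ℝ) : Set ℕ :=
  {m : ℕ | ∃ t : ℕ, (t : ℝ) ≤ lg m / mu + c ∧ (T d)^[t] m ∈ W}

theorem base_lim (hG : GBStatement) {d : Bool} {W : Set ℕ} {D : ℝ} (hW : W.Finite)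
    (hD : Tendsto (Gd (Hit d W)) atTop (𝓝 D)) (hD0 : 0 ≤ D) (hD1 : D ≤ 1) {α z : ℝ} (hα : 0 < α)
    {c : ℝ → ℝ}
    (hc : Tendsto (fun u : ℝ => (mu * c u - z * (th / 2) * √(α * u / mu)) / √u) atTop (𝓝 0)) :
    Lim d (D * PhiG z) (fun u => Fin d W (c u)) α := by
  intro R ε hR hε
  have hth := thp
  have hmu := mu_pos
  have hsm : 0 < √mu := Real.sqrt_pos.2 hmu
  have hmu1 : mu ≤ 1 := by
    unfold mu
    linarith
  obtain ⟨η, hη, hev⟩ := gbU hG hW hD hD0 hD1 z ε hε
  obtain ⟨X₀, hX₀⟩ := eventually_atTop.1 hev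
  obtain ⟨b, hb⟩ : ∃ b : ℕ, ∀ w ∈ W, w < 2 ^ b := by
    obtain ⟨m, hm⟩ := hW.bddAbove
    refine ⟨m, fun w hw => ?_⟩
    exact (hm hw).trans_lt Nat.lt_two_pow_self
  -- constants
  obtain ⟨η', hη'⟩ : ∃ e : ℝ, e = η * √(α / 2) := ⟨_, rfl⟩
  have hη'0 : 0 < η' := by
    rw [hη']
    positivity
  filter_upwards [ev_small hc (η' / 2) (by positivity), eventually_ge_atTop 1,
    ev_sqrt R (α / 2) (by positivity), eventually_ge_atTop (2 * (|X₀| + b + 2) / α * 2),
    ev_quarter (3 * R) (4 + |z| * (th / 2) * (R / √(α * mu))) (η' / 2) (by positivity),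
    ev_quarter R 0 1 (by norm_num),
    ev_sqrt (|z| * (th / 2) * √(α / mu) + η' + 2) (α / 4) (by positivity)]
    with u l1 l2 l3 l4 l5 l6 l7 x h hx hh
  have hu0 : 0 < u := by linarith
  have hsu : 0 < √u := Real.sqrt_pos.2 hu0
  have hsuu : √u ≤ u := by
    rw [Real.sqrt_le_left hu0.le]
    nlinarith
  have hh0 : (0 : ℝ) ≤ h := Nat.cast_nonneg _
  have hhs : (h : ℝ) ≤ √u := by linarith
  have hsu1 : 1 ≤ √u := by
    rw [show (1 : ℝ) = √1 by simp]
    exact Real.sqrt_le_sqrt l2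
  have hes : 0 ≤ η' * √u := by positivity
  have hzs : 0 ≤ |z| * (th / 2) * √(α / mu) * √u := by positivity
  have l7' : |z| * (th / 2) * √(α / mu) * √u + η' * √u + 2 * √u ≤ α / 4 * u := by
    linarith
  rw [abs_le] at hx
  have hx1 : α / 2 * u ≤ x := by linarith [hx.1]
  rw [div_mul_eq_mul_div, div_le_iff₀ hα] at l4
  have hX1 : |X₀| + b + 2 ≤ x := by
    have h1 := abs_nonneg X₀
    have h2 : (0 : ℝ) ≤ b := Nat.cast_nonneg _
    linarith
  have hx0 : 0 < x := by
    have h1 := abs_nonneg X₀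
    have h2 : (0 : ℝ) ≤ b := Nat.cast_nonneg _
    linarith
  have hsx : √(α / 2) * √u ≤ √x := by
    rw [← Real.sqrt_mul (by positivity)]
    exact Real.sqrt_le_sqrt hx1
  -- comparison of the square roots
  have hroot : |√(x / mu) - √(α * u / mu)| ≤ R / √(α * mu) := by
    rw [Real.sqrt_div hx0.le, Real.sqrt_div (by positivity : 0 ≤ α * u), ← sub_div, abs_div,
      abs_of_pos hsm, Real.sqrt_mul hα.le mu, div_le_div_iff₀ hsm (by positivity)]
    have h1 : √x * √x = x := Real.mul_self_sqrt hx0.le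
    have h2 : √(α * u) * √(α * u) = α * u := Real.mul_self_sqrt (by positivity)
    have h3 : √(α * u) = √α * √u := Real.sqrt_mul hα.le u
    have h4 : |√x - √(α * u)| * √(α * u) ≤ R * √u := by
      have h5 : |√x - √(α * u)| * √(α * u) ≤ |√x - √(α * u)| * (√x + √(α * u)) := by
        apply mul_le_mul_of_nonneg_left _ (abs_nonneg _)
        have := Real.sqrt_nonneg x
        linarith
      refine h5.trans ?_
      have h6 : |√x - √(α * u)| * (√x + √(α * u)) = |x - α * u| := by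
        have h7 : x - α * u = (√x - √(α * u)) * (√x + √(α * u)) := by
          nlinarith
        have h8 : 0 ≤ √x + √(α * u) := by positivity
        rw [h7, abs_mul, abs_of_nonneg h8]
      rw [h6, abs_le]
      exact hx
    rw [h3] at h4
    have h5 : |√x - √α * √u| * √α ≤ R := by
      have h6 : (|√x - √α * √u| * √α) * √u ≤ R * √u := by linarith
      exact le_of_mul_le_mul_right h6 hsu
    rw [h3]
    nlinarith
  have hR' : 0 ≤ R / √(α * mu) := by positivity
  -- the thresholds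
  have key : ∀ s : ℝ, |s| ≤ h + 1 → 0 ≤ (x + s) / mu + c u + h ∧
      |Gd (Rch d W ⌊(x + s) / mu + c u + h⌋₊) x - D * PhiG z| ≤ ε := by
    intro s hs
    rw [abs_le] at hs
    have hcu := abs_le.1 l1
    have hsq : √(α * u / mu) = √(α / mu) * √u := by
      rw [← Real.sqrt_mul (by positivity)]
      congr 1
      ring
    have h1 : |z * (th / 2) * √(α * u / mu)| ≤ |z| * (th / 2) * √(α / mu) * √u := by
      rw [abs_mul, abs_mul, abs_of_pos (by positivity : 0 < th / 2), abs_of_nonneg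
        (Real.sqrt_nonneg _), hsq]
      apply le_of_eq
      ring
    have h1' := abs_le.1 h1
    have hnn : 0 ≤ (x + s) / mu + c u + h := by
      have h2 : 0 ≤ (x + s) + mu * c u + mu * h := by
        have h3 : 0 ≤ mu * h := by positivity
        linarith [hcu.1, h1'.1, hs.1]
      have h3 : (x + s) / mu + c u + h = ((x + s) + mu * c u + mu * h) / mu := by
        field_simp
      rw [h3]
      exact div_nonneg h2 hmu.le
    refine ⟨hnn, ?_⟩
    apply hX₀ x ((le_abs_self X₀).trans (by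
      have h2 : (0 : ℝ) ≤ b := Nat.cast_nonneg _
      linarith))
    obtain ⟨τ, hτ⟩ : ∃ τ, τ = ⌊(x + s) / mu + c u + h⌋₊ := ⟨_, rfl⟩
    have t1 : (τ : ℝ) ≤ (x + s) / mu + c u + h := by
      rw [hτ]
      exact Nat.floor_le hnn
    have t2 : (x + s) / mu + c u + h < τ + 1 := by
      rw [hτ]
      exact Nat.lt_floor_add_one _
    rw [← hτ]
    have t1' : mu * τ ≤ x + s + mu * c u + mu * h := by
      have h2 := mul_le_mul_of_nonneg_left t1 hmu.le
      have h3 : mu * ((x + s) / mu + c u + h) = x + s + mu * c u + mu * h := by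
        field_simp
      linarith
    have t2' : x + s + mu * c u + mu * h ≤ mu * τ + mu := by
      have h2 := mul_le_mul_of_nonneg_left t2.le hmu.le
      have h3 : mu * ((x + s) / mu + c u + h) = x + s + mu * c u + mu * h := by
        field_simp
      linarith
    have h5 : |z * (th / 2 * √(x / mu)) - z * (th / 2) * √(α * u / mu)| ≤
        |z| * (th / 2) * (R / √(α * mu)) := by
      have e : z * (th / 2 * √(x / mu)) - z * (th / 2) * √(α * u / mu) =
          z * (th / 2) * (√(x / mu) - √(α * u / mu)) := by ring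
      rw [e, abs_mul, abs_mul, abs_of_pos (by positivity : 0 < th / 2)]
      exact mul_le_mul_of_nonneg_left hroot (by positivity)
    have h5' := abs_le.1 h5
    have h6 : mu * h ≤ h := by nlinarith
    have h7 : 0 ≤ mu * h := by positivity
    have h8 : η' * √u ≤ η * √x := by
      rw [hη', mul_assoc]
      exact mul_le_mul_of_nonneg_left hsx hη.le
    rw [abs_le]
    constructor <;> linarith [hs.1, hs.2, hcu.1, hcu.2, h5'.1, h5'.2]
  obtain ⟨p1, p2⟩ := key (h + 1) (by rw [abs_of_nonneg (by linarith)])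
  obtain ⟨q1, q2⟩ := key (-h) (by rw [abs_neg, abs_of_nonneg hh0]; linarith)
  have hup : Gd {n : ℕ | (T d)^[h] n ∈ Fin d W (c u)} x ≤
      Gd (Rch d W ⌊(x + (h + 1)) / mu + c u + h⌋₊) x := by
    apply Gd_mono
    rintro n hn1 hn2 ⟨t, ht, hw⟩
    obtain ⟨n0, n1, n2⟩ := lg_of_mem hn1 hn2
    have h1 := abs_le.1 (lg_iter (d := d) n0 h)
    rw [← Function.iterate_add_apply] at hw
    refine ⟨t + h, ?_, hw⟩
    apply Nat.le_floor
    push_cast
    have h2 : lg ((T d)^[h] n) / mu ≤ (x + (h + 1)) / mu := by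
      apply div_le_div_of_nonneg_right _ hmu.le
      linarith [h1.2]
    linarith
  have hlo : Gd (Rch d W ⌊(x + (-h)) / mu + c u + h⌋₊) x ≤
      Gd {n : ℕ | (T d)^[h] n ∈ Fin d W (c u)} x := by
    apply Gd_mono
    rintro n hn1 hn2 ⟨k, hk, hw⟩
    obtain ⟨n0, n1, n2⟩ := lg_of_mem hn1 hn2
    have hkh : h ≤ k := by
      by_contra hcon
      push Not at hcon
      have h1 := abs_le.1 (lg_iter (d := d) n0 k)
      have h2 : (k : ℝ) ≤ h := by exact_mod_cast hcon.le
      have h3 : lg ((T d)^[k] n) < b := by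
        unfold lg
        rw [Real.logb_lt_iff_lt_rpow (by norm_num) (by exact_mod_cast iter_pos n0 k)]
        rw [Real.rpow_natCast]
        exact_mod_cast hb _ hw
      have h4 := abs_nonneg X₀
      linarith [h1.1]
    have h1 := abs_le.1 (lg_iter (d := d) n0 h)
    refine ⟨k - h, ?_, ?_⟩
    · have h2 : (k : ℝ) ≤ (x + (-h)) / mu + c u + h :=
        (by exact_mod_cast hk : (k : ℝ) ≤ (⌊(x + (-h)) / mu + c u + h⌋₊ : ℝ)).trans (Nat.floor_le q1)
      rw [Nat.cast_sub hkh]
      have h3 : (x + (-h)) / mu ≤ lg ((T d)^[h] n) / mu := by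
        apply div_le_div_of_nonneg_right _ hmu.le
        linarith [h1.1]
      linarith
    · rw [← Function.iterate_add_apply, Nat.sub_add_cancel hkh]
      exact hw
  rw [abs_le] at p2 q2 ⊢
  constructor <;> linarith [p2.1, p2.2, q2.1, q2.2]

end Pool.Agent.Lib.MP_edb5be_nt.TS.H58
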