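import Pool.Agent.Lib.MP_edb5be_nt.TS.H58.Base
import Pool.Agent.Lib.MP_edb5be_nt.TS.Iface3

/-!
Project TS: the final event for the invariant sets.
-/

set_option autoImplicit false

namespace Pool.Agent.Lib.MP_edb5be_nt.TS.H58

open Finset Filter Topology Pool.Agent.Lib.MP_0a5adf_nt.TP Pool.Agent.Lib.MP_edb5be_nt.ND
  Pool.Agent.Lib.MP_edb5be_nt.ND.H82 Pool.Agent.Lib.MP_edb5be_nt.TS

theorem invA_iter {d : Bool} {S : Set ℕ} {lo : ℕ} (hS : InvA d S lo) {n h : ℕ}
    (hn : ∀ i < h, 2 ^ lo ≤ (T d)^[i] n) : n ∈ S ↔ (T d)^[h] n ∈ S := by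
  induction h with
  | zero => rfl
  | succ h ih =>
    rw [ih fun i hi => hn i (by omega), Function.iterate_succ_apply']
    exact hS _ (hn h (by omega))

/-- The final event: the fall below `2 ^ lo` within `lg m / mu + c` steps, in `S`. -/
def FinS (d : Bool) (S : Set ℕ) (lo : ℕ) (c : ℝ) : Set ℕ :=
  {m : ℕ | m ∈ S ∧ ∃ t : ℕ, (t : ℝ) ≤ lg m / mu + c ∧ (T d)^[t] m < 2 ^ lo}

theorem base_limS (hG : GSUStatement) {d : Bool} {S : Set ℕ} {lo₀ : ℕ} {D : ℝ}
    (hS : InvA d S lo₀) (hD : Tendsto (Gd S) atTop (𝓝 D)) {lo : ℝ → ℕ}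
    (hlo : Tendsto lo atTop atTop) (hlo2 : Tendsto (fun u : ℝ => (lo u : ℝ) / √u) atTop (𝓝 0))
    {α z : ℝ} (hα : 0 < α) {c : ℝ → ℝ}
    (hc : Tendsto (fun u : ℝ => (mu * c u - z * (th / 2) * √(α * u / mu)) / √u) atTop (𝓝 0)) :
    Lim d (D * PhiG z) (fun u => FinS d S (lo u) (c u)) α := by
  intro R ε hR hε
  have hth := thp
  have hmu := mu_pos
  have hsm : 0 < √mu := Real.sqrt_pos.2 hmu
  have hmu1 : mu ≤ 1 := by
    unfold mu
    linarith
  obtain ⟨η, L, hη, hev⟩ := hG d S lo₀ D hS hD z ε hε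
  obtain ⟨X₀, hX₀⟩ := eventually_atTop.1 hev
  have hlo2' := hlo2
  rw [Metric.tendsto_nhds] at hlo2'
  -- constants
  obtain ⟨η', hη'⟩ : ∃ e : ℝ, e = η * √(α / 2) := ⟨_, rfl⟩
  have hη'0 : 0 < η' := by
    rw [hη']
    positivity
  filter_upwards [hlo2' (min 1 η') (by positivity), hlo.eventually_ge_atTop L,
    ev_small hc (η' / 2) (by positivity), eventually_ge_atTop 1,
    ev_sqrt R (α / 2) (by positivity), eventually_ge_atTop (2 * (|X₀| + lo₀ + 2) / α * 2),
    ev_quarter (3 * R) (4 + |z| * (th / 2) * (R / √(α * mu))) (η' / 2) (by positivity),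
    ev_quarter R 0 1 (by norm_num),
    ev_sqrt (|z| * (th / 2) * √(α / mu) + η' + 2) (α / 4) (by positivity),
    ev_sqrt 4 α hα]
    with u l8 l9 l1 l2 l3 l4 l5 l6 l7 l10 x h hx hh
  have hu0 : 0 < u := by linarith
  have hsu : 0 < √u := Real.sqrt_pos.2 hu0
  have hsuu : √u ≤ u := by
    rw [Real.sqrt_le_left hu0.le]
    nlinarith
  have hh0 : (0 : ℝ) ≤ h := Nat.cast_nonneg _
  have hhs : (h : ℝ) ≤ √u := by linarith
  have hsu1 : 1 ≤ √u := by
    rw [show (1 : ℝ) = √1 by simp]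
    exact Real.sqrt_le_sqrt l2
  rw [Real.dist_eq, sub_zero, abs_of_nonneg (by positivity), div_lt_iff₀ hsu] at l8
  have hlo1 : (lo u : ℝ) ≤ √u := by
    have h1 : min 1 η' * √u ≤ 1 * √u := mul_le_mul_of_nonneg_right (min_le_left _ _) hsu.le
    linarith
  have hlo3 : (lo u : ℝ) ≤ η' * √u := by
    have h1 : min 1 η' * √u ≤ η' * √u := mul_le_mul_of_nonneg_right (min_le_right _ _) hsu.le
    linarith
  have hes : 0 ≤ η' * √u := by positivity
  have hzs : 0 ≤ |z| * (th / 2) * √(α / mu) * √u := by positivity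
  have l7' : |z| * (th / 2) * √(α / mu) * √u + η' * √u + 2 * √u ≤ α / 4 * u := by
    linarith
  rw [abs_le] at hx
  have hx1 : α / 2 * u ≤ x := by linarith [hx.1]
  rw [div_mul_eq_mul_div, div_le_iff₀ hα] at l4
  have hb0 : (0 : ℝ) ≤ lo₀ := Nat.cast_nonneg _
  have hX1 : 2 * (|X₀| + lo₀ + 2) ≤ x := by
    have h1 := abs_nonneg X₀
    linarith
  have hx0 : 0 < x := by
    have h1 := abs_nonneg X₀
    linarith
  have hx4 : 2 * √u ≤ x := by linarith
  have hsx : √(α / 2) * √u ≤ √x := by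
    rw [← Real.sqrt_mul (by positivity)]
    exact Real.sqrt_le_sqrt hx1
  -- comparison of the square roots
  have hroot : |√(x / mu) - √(α * u / mu)| ≤ R / √(α * mu) := by
    rw [Real.sqrt_div hx0.le, Real.sqrt_div (by positivity : 0 ≤ α * u), ← sub_div, abs_div,
      abs_of_pos hsm, Real.sqrt_mul hα.le mu, div_le_div_iff₀ hsm (by positivity)]
    have h1 : √x * √x = x := Real.mul_self_sqrt hx0.le
    have h2 : √(α * u) * √(α * u) = α * u := Real.mul_self_sqrt (by positivity)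
    have h3 : √(α * u) = √α * √u := Real.sqrt_mul hα.le u
    have h4 : |√x - √(α * u)| * √(α * u) ≤ R * √u := by
      have h5 : |√x - √(α * u)| * √(α * u) ≤ |√x - √(α * u)| * (√x + √(α * u)) := by
        apply mul_le_mul_of_nonneg_left _ (abs_nonneg _)
        have := Real.sqrt_nonneg x
        linarith
      refine h5.trans ?_
      have h6 : |√x - √(α * u)| * (√x + √(α * u)) = |x - α * u| := by
        have h7 : x - α * u = (√x - √(α * u)) * (√x + √(α * u)) := by
          nlinarith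
        have h8 : 0 ≤ √x + √(α * u) := by positivity
        rw [h7, abs_mul, abs_of_nonneg h8]
      rw [h6, abs_le]
      exact hx
    rw [h3] at h4
    have h5 : |√x - √α * √u| * √α ≤ R := by
      have h6 : (|√x - √α * √u| * √α) * √u ≤ R * √u := by linarith
      exact le_of_mul_le_mul_right h6 hsu
    rw [h3]
    nlinarith
  have hR' : 0 ≤ R / √(α * mu) := by positivity
  -- the thresholds
  have key : ∀ s : ℝ, |s| ≤ h + 1 → 0 ≤ (x + s) / mu + c u + h ∧
      |Gd (Fll d S (lo u) ⌊(x + s) / mu + c u + h⌋₊) x - D * PhiG z| ≤ ε := by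
    intro s hs
    rw [abs_le] at hs
    have hcu := abs_le.1 l1
    have hsq : √(α * u / mu) = √(α / mu) * √u := by
      rw [← Real.sqrt_mul (by positivity)]
      congr 1
      ring
    have h1 : |z * (th / 2) * √(α * u / mu)| ≤ |z| * (th / 2) * √(α / mu) * √u := by
      rw [abs_mul, abs_mul, abs_of_pos (by positivity : 0 < th / 2), abs_of_nonneg
        (Real.sqrt_nonneg _), hsq]
      apply le_of_eq
      ring
    have h1' := abs_le.1 h1
    have hnn : 0 ≤ (x + s) / mu + c u + h := by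
      have h2 : 0 ≤ (x + s) + mu * c u + mu * h := by
        have h3 : 0 ≤ mu * h := by positivity
        linarith [hcu.1, h1'.1, hs.1]
      have h3 : (x + s) / mu + c u + h = ((x + s) + mu * c u + mu * h) / mu := by
        field_simp
      rw [h3]
      exact div_nonneg h2 hmu.le
    refine ⟨hnn, ?_⟩
    have hηs : η' * √u ≤ η * √x := by
      rw [hη', mul_assoc]
      exact mul_le_mul_of_nonneg_left hsx hη.le
    apply hX₀ x ((le_abs_self X₀).trans (by
      have h2 := abs_nonneg X₀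
      linarith)) (lo u) _ l9 (hlo3.trans hηs)
    obtain ⟨τ, hτ⟩ : ∃ τ, τ = ⌊(x + s) / mu + c u + h⌋₊ := ⟨_, rfl⟩
    have t1 : (τ : ℝ) ≤ (x + s) / mu + c u + h := by
      rw [hτ]
      exact Nat.floor_le hnn
    have t2 : (x + s) / mu + c u + h < τ + 1 := by
      rw [hτ]
      exact Nat.lt_floor_add_one _
    rw [← hτ]
    have t1' : mu * τ ≤ x + s + mu * c u + mu * h := by
      have h2 := mul_le_mul_of_nonneg_left t1 hmu.le
      have h3 : mu * ((x + s) / mu + c u + h) = x + s + mu * c u + mu * h := by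
        field_simp
      linarith
    have t2' : x + s + mu * c u + mu * h ≤ mu * τ + mu := by
      have h2 := mul_le_mul_of_nonneg_left t2.le hmu.le
      have h3 : mu * ((x + s) / mu + c u + h) = x + s + mu * c u + mu * h := by
        field_simp
      linarith
    have h5 : |z * (th / 2 * √(x / mu)) - z * (th / 2) * √(α * u / mu)| ≤
        |z| * (th / 2) * (R / √(α * mu)) := by
      have e : z * (th / 2 * √(x / mu)) - z * (th / 2) * √(α * u / mu) =
          z * (th / 2) * (√(x / mu) - √(α * u / mu)) := by ring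
      rw [e, abs_mul, abs_mul, abs_of_pos (by positivity : 0 < th / 2)]
      exact mul_le_mul_of_nonneg_left hroot (by positivity)
    have h5' := abs_le.1 h5
    have h6 : mu * h ≤ h := by nlinarith
    have h7 : 0 ≤ mu * h := by positivity
    have h8 : η' * √u ≤ η * √x := by
      rw [hη', mul_assoc]
      exact mul_le_mul_of_nonneg_left hsx hη.le
    rw [abs_le]
    constructor <;> linarith [hs.1, hs.2, hcu.1, hcu.2, h5'.1, h5'.2]
  obtain ⟨p1, p2⟩ := key (h + 1) (by rw [abs_of_nonneg (by linarith)])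
  obtain ⟨q1, q2⟩ := key (-h) (by rw [abs_neg, abs_of_nonneg hh0]; linarith)
  have hinS : ∀ n : ℕ, 0 < n → x ≤ lg n → (n ∈ S ↔ (T d)^[h] n ∈ S) := by
    intro n n0 n1
    apply invA_iter hS
    intro i hi
    have h1 := abs_le.1 (lg_iter (d := d) n0 i)
    have h2 : (i : ℝ) ≤ h := by exact_mod_cast hi.le
    have h3 : (lo₀ : ℝ) ≤ lg ((T d)^[i] n) := by
      have h4 := abs_nonneg X₀
      linarith [h1.1]
    unfold lg at h3
    rw [Real.le_logb_iff_rpow_le (by norm_num) (by exact_mod_cast iter_pos n0 i),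
      Real.rpow_natCast] at h3
    exact_mod_cast h3
  have hup : Gd {n : ℕ | (T d)^[h] n ∈ FinS d S (lo u) (c u)} x ≤
      Gd (Fll d S (lo u) ⌊(x + (h + 1)) / mu + c u + h⌋₊) x := by
    apply Gd_mono
    rintro n hn1 hn2 ⟨hnS, t, ht, hw⟩
    obtain ⟨n0, n1, n2⟩ := lg_of_mem hn1 hn2
    have h1 := abs_le.1 (lg_iter (d := d) n0 h)
    rw [← Function.iterate_add_apply] at hw
    refine ⟨(hinS n n0 n1).2 hnS, t + h, ?_, hw⟩
    apply Nat.le_floor
    push_cast
    have h2 : lg ((T d)^[h] n) / mu ≤ (x + (h + 1)) / mu := by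
      apply div_le_div_of_nonneg_right _ hmu.le
      linarith [h1.2]
    linarith
  have hlow : Gd (Fll d S (lo u) ⌊(x + (-h)) / mu + c u + h⌋₊) x ≤
      Gd {n : ℕ | (T d)^[h] n ∈ FinS d S (lo u) (c u)} x := by
    apply Gd_mono
    rintro n hn1 hn2 ⟨hnS, k, hk, hw⟩
    obtain ⟨n0, n1, n2⟩ := lg_of_mem hn1 hn2
    have hkh : h ≤ k := by
      by_contra hcon
      push Not at hcon
      have h1 := abs_le.1 (lg_iter (d := d) n0 k)
      have h2 : (k : ℝ) ≤ h := by exact_mod_cast hcon.le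
      have h3 : lg ((T d)^[k] n) < lo u := by
        unfold lg
        rw [Real.logb_lt_iff_lt_rpow (by norm_num) (by exact_mod_cast iter_pos n0 k)]
        rw [Real.rpow_natCast]
        exact_mod_cast hw
      have h4 := abs_nonneg X₀
      linarith [h1.1]
    have h1 := abs_le.1 (lg_iter (d := d) n0 h)
    refine ⟨(hinS n n0 n1).1 hnS, k - h, ?_, ?_⟩
    · have h2 : (k : ℝ) ≤ (x + (-h)) / mu + c u + h :=
        (by exact_mod_cast hk : (k : ℝ) ≤ (⌊(x + (-h)) / mu + c u + h⌋₊ : ℝ)).trans (Nat.floor_le q1)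
      rw [Nat.cast_sub hkh]
      have h3 : (x + (-h)) / mu ≤ lg ((T d)^[h] n) / mu := by
        apply div_le_div_of_nonneg_right _ hmu.le
        linarith [h1.1]
      linarith
    · rw [← Function.iterate_add_apply, Nat.sub_add_cancel hkh]
      exact hw
  rw [abs_le] at p2 q2 ⊢
  constructor <;> linarith [p2.1, p2.2, q2.1, q2.2]

end Pool.Agent.Lib.MP_edb5be_nt.TS.H58
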