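import Pool.Agent.Lib.MP_edb5be_nt.TS.H58.Core
import Pool.Agent.Lib.MP_edb5be_nt.TS.IfaceF

/-!
Project TS: the conditions on the path, step by step.
-/

set_option autoImplicit false

namespace Pool.Agent.Lib.MP_edb5be_nt.TS.H58

open Finset Filter Topology Pool.Agent.Lib.MP_0a5adf_nt.TP Pool.Agent.Lib.MP_edb5be_nt.ND
  Pool.Agent.Lib.MP_edb5be_nt.ND.H82 Pool.Agent.Lib.MP_edb5be_nt.TS

/-- Relative height condition after `M` steps. -/
def Cut (d : Bool) (M : ℕ) (y : ℝ) (E : Set ℕ) : Set ℕ :=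
  {n : ℕ | (T d)^[M] n ∈ E ∧ lg ((T d)^[M] n) - lg n ≤ y}

theorem ev_small {f : ℝ → ℝ} (hf : Tendsto (fun u => f u / √u) atTop (𝓝 0)) (η : ℝ) (hη : 0 < η) :
    ∀ᶠ u : ℝ in atTop, |f u| ≤ η * √u := by
  rw [Metric.tendsto_nhds] at hf
  filter_upwards [hf η hη, eventually_gt_atTop 0] with u hu hu0
  have hs : 0 < √u := Real.sqrt_pos.2 hu0
  rw [Real.dist_eq, sub_zero, abs_div, abs_of_pos hs, div_lt_iff₀ hs] at hu
  exact hu.le

theorem sqrt_add_nat (M h : ℕ) : |√((M + h : ℕ) : ℝ) - √(M : ℝ)| ≤ h := by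
  have hh0 : (0 : ℝ) ≤ h := Nat.cast_nonneg _
  have hM0 : (0 : ℝ) ≤ M := Nat.cast_nonneg _
  have h2 : √(M : ℝ) ≤ √((M + h : ℕ) : ℝ) := Real.sqrt_le_sqrt (by push_cast; linarith)
  have h3 : √((M + h : ℕ) : ℝ) ≤ √M + √h := by
    rw [Real.sqrt_le_left (by positivity)]
    have h4 := Real.sq_sqrt hh0
    have h5 := Real.sq_sqrt hM0
    have h6 : 0 ≤ √(h : ℝ) * √M := by positivity
    push_cast
    nlinarith
  have h4 : √(h : ℝ) ≤ h := by
    rw [Real.sqrt_le_left hh0]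
    rcases Nat.eq_zero_or_pos h with h7 | h7
    · rw [h7]
      simp
    · have : (1 : ℝ) ≤ h := by exact_mod_cast h7
      nlinarith
  rw [abs_of_nonneg (by linarith)]
  linarith

theorem cut_lim (hK : KMFStatement) {d : Bool} {δ : ℝ} {E : ℝ → Set ℕ} {α β : ℝ}
    (hE : Lim d δ E α) (hδ : 0 ≤ δ) (hδ1 : δ ≤ 1) (hα : 0 < α) (hαβ : α < β) {z R₀ : ℝ}
    {M : ℝ → ℕ} {y : ℝ → ℝ} (hM : ∀ᶠ u : ℝ in atTop, |mu * M u - (β - α) * u| ≤ R₀ * √u)
    (hy : Tendsto (fun u : ℝ => (y u + mu * M u - z * (th / 2) * √(M u)) / √u) atTop (𝓝 0)) :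
    Lim d (δ * PhiG z) (fun u => Cut d (M u) (y u) (E u)) β := by
  intro R ε hR hε
  have hth := thp
  have hmu := mu_pos
  have hmu1 : mu ≤ 1 := by
    unfold mu
    linarith
  obtain ⟨R₁, hR₁⟩ : ∃ r : ℝ, r = |R₀| + R + 1 := ⟨_, rfl⟩
  have hR₁0 : 0 < R₁ := by
    rw [hR₁]
    positivity
  obtain ⟨η, hη, hev⟩ := vcore hK hE hδ hδ1 hα hαβ z R₁ ε hR₁0 hε
  filter_upwards [hev, hM, ev_small hy (η / 2) (by positivity), eventually_ge_atTop 1,
    ev_quarter R 0 1 (by norm_num), ev_quarter (2 * R + |z| * (th / 2) * R) 1 (η / 2)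
      (by positivity)] with u l1 l2 l3 l4 l5 l6 x h hx hh
  have hu0 : 0 < u := by linarith
  have hh0 : (0 : ℝ) ≤ h := Nat.cast_nonneg _
  have hsu : 0 ≤ √u := Real.sqrt_nonneg u
  have hhs : (h : ℝ) ≤ √u := by linarith
  have key : ∀ s : ℝ, |s| ≤ h + 1 →
      |Gd {n : ℕ | (T d)^[M u + h] n ∈ E u ∧ lg ((T d)^[M u + h] n) ≤ y u + x + s} x -
        δ * PhiG z| ≤ ε := by
    intro s hs
    apply l1 x (M u + h) (y u + x + s)
    · refine hx.trans (mul_le_mul_of_nonneg_right ?_ hsu)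
      rw [hR₁]
      have := abs_nonneg R₀
      linarith
    · have e : mu * ((M u + h : ℕ) : ℝ) - (β - α) * u = (mu * M u - (β - α) * u) + mu * h := by
        push_cast
        ring
      rw [e]
      refine (abs_add_le _ _).trans ?_
      rw [abs_of_nonneg (by positivity : 0 ≤ mu * (h : ℝ))]
      have h1 : mu * h ≤ √u := by nlinarith
      have h2 : R₀ * √u ≤ |R₀| * √u := mul_le_mul_of_nonneg_right (le_abs_self _) hsu
      rw [hR₁]
      have h3 : 0 ≤ R * √u := by positivity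
      linarith
    · have e : y u + x + s - x + mu * ((M u + h : ℕ) : ℝ) - z * (th / 2) * √((M u + h : ℕ) : ℝ) =
          (y u + mu * M u - z * (th / 2) * √(M u)) + (mu * h + s -
            z * (th / 2) * (√((M u + h : ℕ) : ℝ) - √(M u))) := by
        push_cast
        ring
      rw [e]
      refine (abs_add_le _ _).trans ?_
      have h1 : |z * (th / 2) * (√((M u + h : ℕ) : ℝ) - √(M u))| ≤ |z| * (th / 2) * h := by
        rw [abs_mul, abs_mul, abs_of_pos (by positivity : 0 < th / 2)]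
        exact mul_le_mul_of_nonneg_left (sqrt_add_nat _ _) (by positivity)
      have h2 : mu * h ≤ h := by nlinarith
      have h3 : 0 ≤ mu * h := by positivity
      have h4 : |mu * h + s - z * (th / 2) * (√((M u + h : ℕ) : ℝ) - √(M u))| ≤
          2 * h + 1 + |z| * (th / 2) * h := by
        rw [abs_le] at h1 hs ⊢
        constructor <;> linarith [h1.1, h1.2, hs.1, hs.2]
      have h5 : |z| * (th / 2) * h ≤ |z| * (th / 2) * (R * u ^ (1 / 4 : ℝ)) :=
        mul_le_mul_of_nonneg_left hh (by positivity)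
      linarith
  have kup := key (h + 1) (by rw [abs_of_nonneg (by linarith)])
  have klo := key (-h) (by rw [abs_neg, abs_of_nonneg hh0]; linarith)
  have hup : Gd {n : ℕ | (T d)^[h] n ∈ Cut d (M u) (y u) (E u)} x ≤
      Gd {n : ℕ | (T d)^[M u + h] n ∈ E u ∧ lg ((T d)^[M u + h] n) ≤ y u + x + (h + 1)} x := by
    apply Gd_mono
    intro n hn1 hn2 hn
    obtain ⟨n0, n1, n2⟩ := lg_of_mem hn1 hn2
    have h1 := abs_le.1 (lg_iter (d := d) n0 h)
    obtain ⟨h3, h4⟩ := hn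
    rw [← Function.iterate_add_apply] at h3 h4
    exact ⟨h3, by linarith [h1.2]⟩
  have hlo : Gd {n : ℕ | (T d)^[M u + h] n ∈ E u ∧ lg ((T d)^[M u + h] n) ≤ y u + x + (-h)} x ≤
      Gd {n : ℕ | (T d)^[h] n ∈ Cut d (M u) (y u) (E u)} x := by
    apply Gd_mono
    intro n hn1 hn2 hn
    obtain ⟨n0, n1, n2⟩ := lg_of_mem hn1 hn2
    have h1 := abs_le.1 (lg_iter (d := d) n0 h)
    obtain ⟨h3, h4⟩ := hn
    show (T d)^[M u] ((T d)^[h] n) ∈ E u ∧ lg ((T d)^[M u] ((T d)^[h] n)) - lg ((T d)^[h] n) ≤ y u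
    rw [← Function.iterate_add_apply]
    exact ⟨h3, by linarith [h1.1]⟩
  rw [abs_le] at kup klo ⊢
  constructor <;> linarith [kup.1, kup.2, klo.1, klo.2]

/-- The chain of the conditions. -/
def Ch (d : Bool) (E : Set ℕ) : ℕ → (ℕ → ℕ) → (ℕ → ℝ) → Set ℕ
  | 0, _, _ => E
  | r + 1, M, y => Cut d (M 0) (y 0) (Ch d E r (fun i => M (i + 1)) (fun i => y (i + 1)))

theorem chain_lim (hK : KMFStatement) {d : Bool} {δ : ℝ} {E : ℝ → Set ℕ} (hδ : 0 ≤ δ)
    (hδ1 : δ ≤ 1) (r : ℕ) : ∀ (α z : ℕ → ℝ) (M : ℕ → ℝ → ℕ) (y : ℕ → ℝ → ℝ) (R₀ : ℝ),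
    Lim d δ E (α r) → 0 < α r → (∀ i < r, α (i + 1) < α i) →
    (∀ i < r, ∀ᶠ u : ℝ in atTop, |mu * M i u - (α i - α (i + 1)) * u| ≤ R₀ * √u) →
    (∀ i < r, Tendsto (fun u : ℝ => (y i u + mu * M i u - z i * (th / 2) * √(M i u)) / √u)
      atTop (𝓝 0)) →
    Lim d (δ * ∏ i ∈ range r, PhiG (z i))
      (fun u => Ch d (E u) r (fun i => M i u) (fun i => y i u)) (α 0) := by
  induction r with
  | zero =>
    intro α z M y R₀ h1 _ _ _ _
    simpa [Ch] using h1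
  | succ r ih =>
    intro α z M y R₀ h1 h2 h3 h4 h5
    have h6 := ih (fun i => α (i + 1)) (fun i => z (i + 1)) (fun i => M (i + 1))
      (fun i => y (i + 1)) R₀ h1 h2 (fun i hi => h3 (i + 1) (by omega))
      (fun i hi => h4 (i + 1) (by omega)) (fun i hi => h5 (i + 1) (by omega))
    have hpos : 0 < α 1 := by
      have : ∀ i, i ≤ r → 0 < α (r + 1 - i) := by
        intro i
        induction i with
        | zero => intro _; exact h2
        | succ i ihi =>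
          intro hi
          have e1 := ihi (by omega)
          have e2 := h3 (r + 1 - (i + 1)) (by omega)
          have e3 : r + 1 - (i + 1) + 1 = r + 1 - i := by omega
          rw [e3] at e2
          exact e1.trans e2
      have h := this r le_rfl
      have e : r + 1 - r = 1 := by omega
      rw [e] at h
      exact h
    have hp0 : 0 ≤ ∏ i ∈ range r, PhiG (z (i + 1)) :=
      Finset.prod_nonneg fun i _ => PhiG_nonneg _
    have hp1 : ∏ i ∈ range r, PhiG (z (i + 1)) ≤ 1 :=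
      Finset.prod_le_one (fun i _ => PhiG_nonneg _) fun i _ => PhiG_le_one _
    have h7 := cut_lim hK h6 (mul_nonneg hδ hp0) (mul_le_one₀ hδ1 hp0 hp1) hpos
      (h3 0 (by omega)) (h4 0 (by omega)) (h5 0 (by omega))
    rw [Finset.prod_range_succ']
    have e : δ * ((∏ i ∈ range r, PhiG (z (i + 1))) * PhiG (z 0)) =
        δ * (∏ i ∈ range r, PhiG (z (i + 1))) * PhiG (z 0) := by ring
    rw [e]
    exact h7

theorem mem_chain (d : Bool) (E : Set ℕ) (r : ℕ) : ∀ (K : ℕ → ℕ) (y : ℕ → ℝ) (n : ℕ),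
    (∀ i < r, K i ≤ K (i + 1)) →
    ((T d)^[K 0] n ∈ Ch d E r (fun i => K (i + 1) - K i) y ↔
      (∀ i < r, lg ((T d)^[K (i + 1)] n) - lg ((T d)^[K i] n) ≤ y i) ∧ (T d)^[K r] n ∈ E) := by
  induction r with
  | zero =>
    intro K y n _
    simp [Ch]
  | succ r ih =>
    intro K y n hK
    have h1 := ih (fun i => K (i + 1)) (fun i => y (i + 1)) n (fun i hi => hK (i + 1) (by omega))
    have e : (T d)^[K 1 - K 0] ((T d)^[K 0] n) = (T d)^[K 1] n := by
      rw [← Function.iterate_add_apply, Nat.sub_add_cancel (hK 0 (by omega))]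
    rw [Nat.forall_lt_succ_left]
    show ((T d)^[K (0 + 1) - K 0] ((T d)^[K 0] n) ∈ Ch d E r
      (fun i => K (i + 1 + 1) - K (i + 1)) (fun i => y (i + 1)) ∧
      lg ((T d)^[K (0 + 1) - K 0] ((T d)^[K 0] n)) - lg ((T d)^[K 0] n) ≤ y 0) ↔ _
    rw [zero_add, e]
    constructor
    · rintro ⟨h2, h3⟩
      obtain ⟨h4, h5⟩ := h1.1 h2
      exact ⟨⟨h3, h4⟩, h5⟩
    · rintro ⟨⟨h3, h4⟩, h5⟩
      exact ⟨h1.2 ⟨h4, h5⟩, h3⟩

end Pool.Agent.Lib.MP_edb5be_nt.TS.H58
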