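import Pool.Agent.Lib.MP_edb5be_nt.TS.H58.Basic

/-!
Project TS: insertion of a height condition.
-/

set_option autoImplicit false

namespace Pool.Agent.Lib.MP_edb5be_nt.TS.H58

open Finset Filter Topology Pool.Agent.Lib.MP_0a5adf_nt.TP Pool.Agent.Lib.MP_edb5be_nt.ND
  Pool.Agent.Lib.MP_edb5be_nt.ND.H82 Pool.Agent.Lib.MP_edb5be_nt.TS

/-- The proportion of the `n` with `T^h n ∈ E u` tends to `δ` in the blocks at distance
`O (√u)` from the height `α * u`, `h` up to `O (u ^ (1 / 4))`. -/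
def Lim (d : Bool) (δ : ℝ) (E : ℝ → Set ℕ) (α : ℝ) : Prop :=
  ∀ R ε : ℝ, 0 < R → 0 < ε → ∀ᶠ u : ℝ in atTop, ∀ (x : ℝ) (h : ℕ), |x - α * u| ≤ R * √u →
    (h : ℝ) ≤ R * u ^ (1 / 4 : ℝ) → |Gd {n : ℕ | (T d)^[h] n ∈ E u} x - δ| ≤ ε

theorem ev_sqrt (R c : ℝ) (hc : 0 < c) : ∀ᶠ u : ℝ in atTop, R * √u ≤ c * u := by
  filter_upwards [eventually_ge_atTop ((R / c) ^ 2), eventually_gt_atTop 0] with u hu hu0
  have h1 : R / c ≤ √u := Real.le_sqrt_of_sq_le hu
  rw [div_le_iff₀ hc] at h1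
  have h2 : 0 ≤ √u := Real.sqrt_nonneg u
  have h3 : √u * √u = u := Real.mul_self_sqrt hu0.le
  nlinarith

theorem ev_quarter (R R' c : ℝ) (hc : 0 < c) :
    ∀ᶠ u : ℝ in atTop, R * u ^ (1 / 4 : ℝ) + R' ≤ c * √u := by
  have h1 : Tendsto (fun u : ℝ => u ^ (1 / 4 : ℝ)) atTop atTop := tendsto_rpow_atTop (by norm_num)
  filter_upwards [h1.eventually_ge_atTop ((|R| + |R'|) / c + 1), eventually_gt_atTop 0] with u hu hu0
  obtain ⟨y, hy⟩ : ∃ y, y = u ^ (1 / 4 : ℝ) := ⟨_, rfl⟩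
  have h2 : √u = y * y := by
    rw [hy, ← Real.rpow_add hu0, Real.sqrt_eq_rpow]
    norm_num
  rw [← hy] at hu ⊢
  rw [h2]
  have h3 : 0 ≤ (|R| + |R'|) / c := by positivity
  have h4 : (|R| + |R'|) / c ≤ y := by linarith
  rw [div_le_iff₀ hc] at h4
  have h5 : 1 ≤ y := by linarith
  have h6 := le_abs_self R
  have h7 := le_abs_self R'
  have h8 := abs_nonneg R
  have h9 := abs_nonneg R'
  nlinarith [mul_nonneg h8 (by linarith : (0 : ℝ) ≤ y - 1), mul_nonneg h9 (by linarith : (0 : ℝ) ≤ y - 1)]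

theorem ev_km (B c : ℝ) (hB : 0 < B) (hc : 0 < c) : ∀ᶠ u : ℝ in atTop, ∀ x : ℝ, 1 ≤ x → x ≤ B * u →
    √x + x ^ (3 / 5 : ℝ) ≤ c * u := by
  have h1 : Tendsto (fun u : ℝ => u ^ (2 / 5 : ℝ)) atTop atTop := tendsto_rpow_atTop (by norm_num)
  filter_upwards [h1.eventually_ge_atTop (2 * B ^ (3 / 5 : ℝ) / c), eventually_gt_atTop 0]
    with u hu hu0 x hx hxB
  have h2 : √x ≤ x ^ (3 / 5 : ℝ) := by
    rw [Real.sqrt_eq_rpow]
    exact Real.rpow_le_rpow_of_exponent_le hx (by norm_num)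
  have h3 : x ^ (3 / 5 : ℝ) ≤ (B * u) ^ (3 / 5 : ℝ) :=
    Real.rpow_le_rpow (by linarith) hxB (by norm_num)
  rw [Real.mul_rpow hB.le hu0.le] at h3
  rw [div_le_iff₀ hc] at hu
  have h4 : u ^ (3 / 5 : ℝ) * u ^ (2 / 5 : ℝ) = u := by
    rw [← Real.rpow_add hu0]
    norm_num
  have h5 : 0 ≤ u ^ (3 / 5 : ℝ) := by positivity
  calc √x + x ^ (3 / 5 : ℝ) ≤ 2 * B ^ (3 / 5 : ℝ) * u ^ (3 / 5 : ℝ) := by linarith
    _ ≤ (u ^ (2 / 5 : ℝ) * c) * u ^ (3 / 5 : ℝ) := mul_le_mul_of_nonneg_right hu h5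
    _ = c * (u ^ (3 / 5 : ℝ) * u ^ (2 / 5 : ℝ)) := by ring
    _ = c * u := by rw [h4]

/-- the weighted sum -/
theorem wsum {K : ℕ} {g G : ℕ → ℝ} {a₁ a₂ δ ε Φ : ℝ} {bad : ℕ → Prop} [DecidablePred bad]
    (hε : 0 ≤ ε) (hε1 : ε ≤ 1) (hδ : 0 ≤ δ) (hδ1 : δ ≤ 1) (hΦ : 0 ≤ Φ) (hΦ1 : Φ ≤ 1)
    (hg : ∀ v, 0 ≤ g v) (hg3 : ∀ v, g v ≤ 3)
    (hb : ∑ v ∈ (range (K + 1)).filter (fun v => bad v), bw K v ≤ ε)
    (h1 : ∀ v : ℕ, ¬ bad v → (v : ℝ) ≤ a₁ → g v = G v)
    (h2 : ∀ v : ℕ, a₂ < (v : ℝ) → g v = 0) (h2' : ∀ v, g v ≤ G v)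
    (h3 : ∀ v, ¬ bad v → |G v - δ| ≤ ε)
    (s1 : |∑ v ∈ (range (K + 1)).filter (fun v : ℕ => (v : ℝ) ≤ a₁), bw K v - Φ| ≤ ε)
    (s2 : |∑ v ∈ (range (K + 1)).filter (fun v : ℕ => (v : ℝ) ≤ a₂), bw K v - Φ| ≤ ε) :
    |∑ v ∈ range (K + 1), bw K v * g v - δ * Φ| ≤ 6 * ε := by
  rw [abs_le] at s1 s2
  have hup : ∑ v ∈ range (K + 1), bw K v * g v ≤ (δ + ε) * (Φ + ε) + 3 * ε := by
    have e1 : ∀ v ∈ range (K + 1), bw K v * g v ≤
        (if (v : ℝ) ≤ a₂ then bw K v * (δ + ε) else 0) + (if bad v then bw K v * 3 else 0) := by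
      intro v _
      have b0 := bw_nn K v
      by_cases hbv : bad v
      · rw [if_pos hbv]
        have t1 : bw K v * g v ≤ bw K v * 3 := mul_le_mul_of_nonneg_left (hg3 v) b0
        have t2 : 0 ≤ (if (v : ℝ) ≤ a₂ then bw K v * (δ + ε) else 0) := by
          split_ifs
          · positivity
          · exact le_rfl
        linarith
      · rw [if_neg hbv, add_zero]
        by_cases hv : (v : ℝ) ≤ a₂
        · rw [if_pos hv]
          apply mul_le_mul_of_nonneg_left _ b0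
          have := (abs_le.1 (h3 v hbv)).2
          have := h2' v
          linarith
        · rw [if_neg hv, h2 v (not_le.1 hv), mul_zero]
    refine (Finset.sum_le_sum e1).trans ?_
    rw [Finset.sum_add_distrib, ← Finset.sum_filter, ← Finset.sum_filter, ← Finset.sum_mul,
      ← Finset.sum_mul]
    have t1 : (∑ v ∈ (range (K + 1)).filter (fun v : ℕ => (v : ℝ) ≤ a₂), bw K v) * (δ + ε) ≤
        (Φ + ε) * (δ + ε) := mul_le_mul_of_nonneg_right (by linarith) (by linarith)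
    have t2 : (∑ v ∈ (range (K + 1)).filter (fun v => bad v), bw K v) * 3 ≤ ε * 3 :=
      mul_le_mul_of_nonneg_right hb (by norm_num)
    linarith
  have hlow0 : 0 ≤ ∑ v ∈ range (K + 1), bw K v * g v :=
    Finset.sum_nonneg fun v _ => mul_nonneg (bw_nn K v) (hg v)
  have hlow : (δ - ε) * (Φ - 2 * ε) ≤ ∑ v ∈ range (K + 1), bw K v * g v ∨ δ < ε := by
    rcases lt_or_ge δ ε with h | h
    · exact Or.inr h
    left
    have e1 : ∀ v ∈ range (K + 1), (if (v : ℝ) ≤ a₁ then bw K v * (δ - ε) else 0) -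
        (if bad v then bw K v * (δ - ε) else 0) ≤ bw K v * g v := by
      intro v _
      have b0 := bw_nn K v
      have b1 : 0 ≤ bw K v * (δ - ε) := mul_nonneg b0 (by linarith)
      have b2 : 0 ≤ bw K v * g v := mul_nonneg b0 (hg v)
      by_cases hbv : bad v
      · rw [if_pos hbv]
        split_ifs <;> linarith
      · rw [if_neg hbv, sub_zero]
        split_ifs with hv
        · apply mul_le_mul_of_nonneg_left _ b0
          rw [h1 v hbv hv]
          have := (abs_le.1 (h3 v hbv)).1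
          linarith
        · exact b2
    refine le_trans ?_ (Finset.sum_le_sum e1)
    rw [Finset.sum_sub_distrib, ← Finset.sum_filter, ← Finset.sum_filter, ← Finset.sum_mul,
      ← Finset.sum_mul]
    have t1 : (Φ - ε) * (δ - ε) ≤
        (∑ v ∈ (range (K + 1)).filter (fun v : ℕ => (v : ℝ) ≤ a₁), bw K v) * (δ - ε) :=
      mul_le_mul_of_nonneg_right (by linarith) (by linarith)
    have t2 : (∑ v ∈ (range (K + 1)).filter (fun v => bad v), bw K v) * (δ - ε) ≤ ε * (δ - ε) :=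
      mul_le_mul_of_nonneg_right hb (by linarith)
    nlinarith
  rw [abs_le]
  constructor
  · rcases hlow with h | h
    · have : (δ - ε) * (Φ - 2 * ε) = δ * Φ - ε * Φ - 2 * (ε * δ) + 2 * (ε * ε) := by ring
      have t1 : ε * Φ ≤ ε * 1 := mul_le_mul_of_nonneg_left hΦ1 hε
      have t2 : ε * δ ≤ ε * 1 := mul_le_mul_of_nonneg_left hδ1 hε
      have t3 : 0 ≤ ε * ε := mul_nonneg hε hε
      linarith
    · have : δ * Φ ≤ ε * 1 := mul_le_mul h.le hΦ1 hΦ hε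
      linarith
  · have : (δ + ε) * (Φ + ε) = δ * Φ + ε * Φ + ε * δ + ε * ε := by ring
    have t1 : ε * Φ ≤ ε * 1 := mul_le_mul_of_nonneg_left hΦ1 hε
    have t2 : ε * δ ≤ ε * 1 := mul_le_mul_of_nonneg_left hδ1 hε
    have t3 : ε * ε ≤ ε * 1 := mul_le_mul_of_nonneg_left hε1 hε
    linarith

/-- insertion of a height condition after `N` steps -/
theorem vcore (hK : KMFStatement) {d : Bool} {δ : ℝ} {E : ℝ → Set ℕ} {α β : ℝ}
    (hE : Lim d δ E α) (hδ : 0 ≤ δ) (hδ1 : δ ≤ 1) (hα : 0 < α) (hαβ : α < β) (z R ε : ℝ)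
    (hR : 0 < R) (hε : 0 < ε) : ∃ η : ℝ, 0 < η ∧ ∀ᶠ u : ℝ in atTop, ∀ (x : ℝ) (N : ℕ) (Y : ℝ),
      |x - β * u| ≤ R * √u → |mu * N - (β - α) * u| ≤ R * √u →
      |Y - x + mu * N - z * (th / 2) * √N| ≤ η * √u →
      |Gd {n : ℕ | (T d)^[N] n ∈ E u ∧ lg ((T d)^[N] n) ≤ Y} x - δ * PhiG z| ≤ ε := by
  classical
  have hth := thp
  have hmu := mu_pos
  have hmu5 : (1 : ℝ) / 5 ≤ mu := by
    unfold mu
    have h : th ≤ 8 / 5 := by
      unfold th
      rw [Real.logb_le_iff_le_rpow (by norm_num) (by norm_num)]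
      have h1 : (3 : ℝ) ^ (5 : ℕ) ≤ (2 : ℝ) ^ (8 : ℕ) := by norm_num
      have h2 : ((2 : ℝ) ^ (8 / 5 : ℝ)) ^ (5 : ℕ) = (2 : ℝ) ^ (8 : ℕ) := by
        rw [← Real.rpow_natCast, ← Real.rpow_mul (by norm_num)]
        norm_num
      exact le_of_pow_le_pow_left₀ (by norm_num) (by positivity) (h2 ▸ h1)
    linarith
  obtain ⟨C, u₀, hC, hK⟩ := hK
  have hβ : 0 < β := hα.trans hαβ
  obtain ⟨ε₁, hε₁⟩ : ∃ e, e = min (ε / 8) (1 / 2) := ⟨_, rfl⟩
  have hε₁0 : 0 < ε₁ := by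
    rw [hε₁]
    positivity
  have hε₁a : ε₁ ≤ ε / 8 := by
    rw [hε₁]
    exact min_le_left _ _
  have hε₁b : ε₁ ≤ 1 / 2 := by
    rw [hε₁]
    exact min_le_right _ _
  obtain ⟨κ, hκ⟩ : ∃ k, k = (β - α) / mu := ⟨_, rfl⟩
  have hκ0 : 0 < κ := by
    rw [hκ]
    exact div_pos (by linarith) hmu
  have hκm : mu * κ = β - α := by
    rw [hκ]
    field_simp
  -- the radius of the typical positions
  obtain ⟨R₁, hR₁0, hR₁⟩ : ∃ R₁ : ℝ, 0 < R₁ ∧
      2 * Real.exp (-(2 * (R₁ / th) ^ 2 / (κ + 1))) ≤ ε₁ := by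
    have h1 : Tendsto (fun r : ℝ => 2 * Real.exp (-(2 * (r / th) ^ 2 / (κ + 1)))) atTop (𝓝 0) := by
      have h2 : Tendsto (fun r : ℝ => 2 * (r / th) ^ 2 / (κ + 1)) atTop atTop := by
        apply Tendsto.atTop_div_const (by positivity)
        apply Tendsto.const_mul_atTop (by norm_num)
        exact (tendsto_pow_atTop (by norm_num)).comp (tendsto_id.atTop_div_const hth)
      have h3 := (Real.tendsto_exp_neg_atTop_nhds_zero.comp h2).const_mul 2
      simpa using h3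
    have h4 := h1.eventually (ge_mem_nhds hε₁0)
    obtain ⟨r, hr1, hr2⟩ := (h4.and (eventually_gt_atTop 0)).exists
    exact ⟨r, hr2, hr1⟩
  obtain ⟨B, hB⟩ : ∃ b : ℝ, b = (β + R) ^ (1 / 4 : ℝ) + 1 := ⟨_, rfl⟩
  have hB0 : 1 ≤ B := by
    rw [hB]
    have : 0 ≤ (β + R) ^ (1 / 4 : ℝ) := by positivity
    linarith
  obtain ⟨R₂, hR₂⟩ : ∃ r : ℝ, r = R₁ + 2 * R + B := ⟨_, rfl⟩
  have hlim := hE R₂ ε₁ (by rw [hR₂]; linarith) hε₁0
  obtain ⟨J₀, hJ₀1, hJ₀⟩ := binCLTe z ε₁ hε₁0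
  obtain ⟨c₁, hc₁⟩ : ∃ c : ℝ, c = th / 2 * √(κ / 2) := ⟨_, rfl⟩
  have hc₁0 : 0 < c₁ := by
    rw [hc₁]
    positivity
  obtain ⟨η, hη⟩ : ∃ e : ℝ, e = c₁ * ε₁ / 4 := ⟨_, rfl⟩
  have hη0 : 0 < η := by
    rw [hη]
    positivity
  refine ⟨η, hη0, ?_⟩
  -- largeness
  filter_upwards [hlim, ev_sqrt R (β / 2) (by positivity), ev_sqrt R (min (mu * κ / 4) (mu / 4)) (by
      apply lt_min <;> positivity), ev_sqrt (2 * R) (α / 2) (by positivity),
    ev_quarter B 0 1 (by norm_num), ev_quarter (|z| * th / 2 * B + 3 * B) 5 (c₁ * ε₁ / 4)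
      (by positivity), ev_sqrt B (κ / 4) (by positivity),
    ev_km (β + R) (α / 2) (by positivity) (by positivity), eventually_ge_atTop 1,
    eventually_ge_atTop (2 * |u₀| / β), eventually_ge_atTop (2 * C / (β * ε₁)),
    eventually_ge_atTop (2 * (J₀ : ℝ) / κ), eventually_ge_atTop (2 / β)] with
    u l1 l2 l3 l4 l5 l6 l7 l8 l9 l10 l11 l12 l13 x N Y hx hN hY
  have hu0 : (0 : ℝ) < u := by linarith
  have hsu1 : 1 ≤ √u := by
    rw [show (1 : ℝ) = √1 by simp]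
    exact Real.sqrt_le_sqrt l9
  have hsu : √u ≤ u := by
    rw [Real.sqrt_le_left hu0.le]
    nlinarith
  have hq1 : 1 ≤ u ^ (1 / 4 : ℝ) := Real.one_le_rpow l9 (by norm_num)
  have hq0 : 0 < u ^ (1 / 4 : ℝ) := by linarith
  rw [abs_le] at hx hN
  have hx1 : β / 2 * u ≤ x := by linarith
  have hx2 : x ≤ (β + R) * u := by nlinarith
  have hxone : 1 ≤ x := by
    rw [div_le_iff₀ hβ] at l13
    linarith
  have hx0 : 0 < x := by linarith
  -- `N`
  have l3a : R * √u ≤ mu * κ / 4 * u :=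
    l3.trans (mul_le_mul_of_nonneg_right (min_le_left _ _) hu0.le)
  have l3b : R * √u ≤ mu / 4 * u :=
    l3.trans (mul_le_mul_of_nonneg_right (min_le_right _ _) hu0.le)
  have hN1 : 3 / 4 * κ * u ≤ N := by
    have h1 : mu * (3 / 4 * κ * u) ≤ mu * N := by
      have h2 : (β - α) * u = mu * κ * u := by rw [hκm]
      rw [h2] at hN
      linarith [hN.1]
    exact le_of_mul_le_mul_left h1 hmu
  have hN2 : (N : ℝ) ≤ (κ + 1 / 4) * u := by
    have h1 : mu * N ≤ mu * ((κ + 1 / 4) * u) := by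
      have h2 : (β - α) * u = mu * κ * u := by rw [hκm]
      rw [h2] at hN
      linarith [hN.2]
    exact le_of_mul_le_mul_left h1 hmu
  -- the last steps
  obtain ⟨h₀, hh₀⟩ : ∃ h : ℕ, h = ⌈x ^ (1 / 4 : ℝ)⌉₊ := ⟨_, rfl⟩
  have hh1 : x ^ (1 / 4 : ℝ) ≤ h₀ := by
    rw [hh₀]
    exact Nat.le_ceil _
  have hh2 : (h₀ : ℝ) ≤ B * u ^ (1 / 4 : ℝ) := by
    have h1 : (h₀ : ℝ) < x ^ (1 / 4 : ℝ) + 1 := by
      rw [hh₀]
      exact Nat.ceil_lt_add_one (by positivity)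
    have h2 : x ^ (1 / 4 : ℝ) ≤ (β + R) ^ (1 / 4 : ℝ) * u ^ (1 / 4 : ℝ) := by
      rw [← Real.mul_rpow (by positivity) hu0.le]
      exact Real.rpow_le_rpow hx0.le hx2 (by norm_num)
    rw [hB]
    linarith
  have hh3 : (h₀ : ℝ) ≤ √u := by linarith
  have hh0 : (0 : ℝ) ≤ h₀ := Nat.cast_nonneg _
  have hh4 : (h₀ : ℝ) ≤ κ / 4 * u := by
    have : B * u ^ (1 / 4 : ℝ) ≤ B * √u := by
      apply mul_le_mul_of_nonneg_left _ (by linarith)
      rw [Real.sqrt_eq_rpow]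
      exact Real.rpow_le_rpow_of_exponent_le l9 (by norm_num)
    linarith
  have hhN : h₀ ≤ N := by
    have : (h₀ : ℝ) ≤ N := by
      have : 0 < κ * u := by positivity
      linarith
    exact_mod_cast this
  obtain ⟨K, hKN⟩ : ∃ K, N = h₀ + K := ⟨N - h₀, by omega⟩
  have hKR : (N : ℝ) = h₀ + K := by
    rw [hKN]
    push_cast
    ring
  have hK1 : κ / 2 * u ≤ K := by linarith
  have hK2 : (K : ℝ) ≤ (κ + 1) * u := by nlinarith
  have hKpos : (0 : ℝ) < K := lt_of_lt_of_le (by positivity) hK1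
  have hKsq : c₁ * √u ≤ th / 2 * √K := by
    rw [hc₁, mul_assoc, ← Real.sqrt_mul (by positivity)]
    exact mul_le_mul_of_nonneg_left (Real.sqrt_le_sqrt hK1) (by positivity)
  have hsK : 0 < √(K : ℝ) := Real.sqrt_pos.2 hKpos
  -- the family
  obtain ⟨F, hF⟩ : ∃ F : ℕ → Set ℕ, F = fun s => {n : ℕ | (T d)^[s] n ∈ E u ∧
    lg ((T d)^[s] n) ≤ Y} := ⟨_, rfl⟩
  have hInv : InvF d F 0 := by
    intro n _ t
    rw [hF]
    simp only [Set.mem_ofPred_eq, Function.iterate_succ_apply]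
  have hkm := hK d F 0 h₀ K x (by
      have h1 := le_abs_self u₀
      rw [div_le_iff₀ hβ] at l10
      linarith) hInv (by
      have h1 := l8 x hxone hx2
      have h2 : max (√x) (10 / 9 * ((0 : ℕ) : ℝ)) = √x := by
        rw [Nat.cast_zero, mul_zero]
        exact max_eq_left (Real.sqrt_nonneg _)
      rw [h2]
      have h3 : mu * K ≤ mu * N := mul_le_mul_of_nonneg_left (by linarith) hmu.le
      linarith [hx.1, hN.2]) hh1
  rw [← hKN] at hkm
  have hCx : C / x ≤ ε₁ := by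
    rw [div_le_iff₀ hx0]
    rw [div_le_iff₀ (by positivity)] at l11
    have h1 : β / 2 * u * ε₁ ≤ x * ε₁ := mul_le_mul_of_nonneg_right hx1 hε₁0.le
    linarith
  -- De Moivre
  have hdm : ∀ s : ℝ, |s| ≤ h₀ + 1 → |(2 * ((Y + s - x + K) / th) - K) / √K - z| ≤ ε₁ / 2 := by
    intro s hs
    have hmu1 : mu ≤ 1 := by
      unfold mu
      linarith
    have e1 : (2 * ((Y + s - x + K) / th) - K) / √K - z =
        ((Y - x + mu * N - z * (th / 2) * √N) + (z * (th / 2) * (√N - √K) - mu * h₀ + s)) /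
          (th / 2 * √K) := by
      rw [hKR]
      unfold mu
      field_simp
      ring
    have h1 : |√(N : ℝ) - √K| ≤ h₀ := by
      have h2 : √(K : ℝ) ≤ √N := Real.sqrt_le_sqrt (by linarith)
      have h3 : √(N : ℝ) ≤ √h₀ + √K := by
        rw [Real.sqrt_le_left (by positivity)]
        have h4 := Real.sq_sqrt hh0
        have h5 := Real.sq_sqrt hKpos.le
        have h6 : 0 ≤ √(h₀ : ℝ) * √K := by positivity
        nlinarith
      have h4 : √(h₀ : ℝ) ≤ h₀ := by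
        rw [Real.sqrt_le_left hh0]
        rcases Nat.eq_zero_or_pos h₀ with h7 | h7
        · rw [h7]
          simp
        · have : (1 : ℝ) ≤ h₀ := by exact_mod_cast h7
          nlinarith
      rw [abs_of_nonneg (by linarith)]
      linarith
    have h2 : |z * (th / 2) * (√N - √K) - mu * h₀ + s| ≤ |z| * th / 2 * h₀ + h₀ + (h₀ + 1) := by
      have t1 : |z * (th / 2) * (√N - √K)| ≤ |z| * th / 2 * h₀ := by
        rw [abs_mul, abs_mul, abs_of_pos (by positivity : 0 < th / 2)]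
        calc |z| * (th / 2) * |√N - √K| ≤ |z| * (th / 2) * h₀ :=
              mul_le_mul_of_nonneg_left h1 (by positivity)
          _ = |z| * th / 2 * h₀ := by ring
      have t2 : mu * h₀ ≤ h₀ := by nlinarith
      have t3 : 0 ≤ mu * h₀ := by positivity
      rw [abs_le] at t1 hs ⊢
      constructor <;> linarith [t1.1, t1.2, hs.1, hs.2]
    have h3 : |z| * th / 2 * h₀ ≤ |z| * th / 2 * (B * u ^ (1 / 4 : ℝ)) :=
      mul_le_mul_of_nonneg_left hh2 (by positivity)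
    rw [e1, abs_div, abs_of_pos (by positivity : 0 < th / 2 * √(K : ℝ)), div_le_iff₀ (by positivity)]
    refine (abs_add_le _ _).trans ?_
    have h4 : ε₁ / 2 * (c₁ * √u) ≤ ε₁ / 2 * (th / 2 * √K) :=
      mul_le_mul_of_nonneg_left hKsq (by positivity)
    rw [hη] at hY
    linarith
  -- the sum
  obtain ⟨pos, hpos⟩ : ∃ p : ℕ → ℝ, p = fun v : ℕ => x - K + th * v := ⟨_, rfl⟩
  obtain ⟨bad, hbad⟩ : ∃ b : ℕ → Prop, b = fun v : ℕ => R₁ * √u ≤ |th * ((v : ℝ) - K / 2)| :=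
    ⟨_, rfl⟩
  have hsum := wsum (K := K) (g := fun v => Gd (F h₀) (pos v))
    (G := fun v => Gd {n : ℕ | (T d)^[h₀] n ∈ E u} (pos v)) (a₁ := (Y - (h₀ + 1) - x + K) / th)
    (a₂ := (Y + (h₀ + 1) - x + K) / th) (δ := δ) (ε := ε₁) (Φ := PhiG z) (bad := bad)
    hε₁0.le (by linarith) hδ hδ1 (PhiG_nonneg z) (PhiG_le_one z) (fun v => Gd_nonneg _ _)
    (fun v => Gd_le _ _) ?_ ?_ ?_ ?_ ?_ ?_ ?_
  · have h1 : PJ K (Gd (F h₀)) x = ∑ v ∈ range (K + 1), bw K v * Gd (F h₀) (pos v) := by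
      unfold PJ
      rw [hpos]
    rw [← h1] at hsum
    have h2 : Gd {n : ℕ | (T d)^[N] n ∈ E u ∧ lg ((T d)^[N] n) ≤ Y} x = Gd (F N) x := by
      rw [hF]
    rw [h2]
    have h3 := abs_sub_le (Gd (F N) x) (PJ K (Gd (F h₀)) x) (δ * PhiG z)
    linarith
  · -- the bad positions
    have h1 := tails K (Y := R₁ * √u) (by positivity)
    have h2 : ∑ v ∈ (range (K + 1)).filter (fun v => bad v), bw K v =
        ∑ v ∈ (range (K + 1)).filter (fun v : ℕ => R₁ * √u ≤ |th * ((v : ℝ) - K / 2)|), bw K v := by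
      apply Finset.sum_congr _ (fun _ _ => rfl)
      apply Finset.filter_congr
      intro v _
      rw [hbad]
    rw [h2]
    refine h1.trans (le_trans ?_ hR₁)
    apply mul_le_mul_of_nonneg_left _ (by norm_num)
    apply Real.exp_le_exp.2
    apply neg_le_neg
    rw [div_le_div_iff₀ (by positivity) hKpos]
    have h3 : (R₁ * √u / th) ^ 2 = (R₁ / th) ^ 2 * u := by
      rw [div_pow, mul_pow, Real.sq_sqrt hu0.le, div_pow]
      ring
    rw [h3]
    have h4 : 0 ≤ 2 * (R₁ / th) ^ 2 := by positivity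
    have h5 := mul_le_mul_of_nonneg_left hK2 h4
    linarith
  · -- below the threshold
    intro v _ hv
    show Gd (F h₀) (pos v) = Gd {n : ℕ | (T d)^[h₀] n ∈ E u} (pos v)
    apply Gd_congr
    intro n hn1 hn2
    obtain ⟨n0, n1, n2⟩ := lg_of_mem hn1 hn2
    have h1 := (abs_le.1 (lg_iter (d := d) n0 h₀)).2
    rw [le_div_iff₀ hth] at hv
    have h2 : pos v = x - K + th * v := by rw [hpos]
    rw [h2] at n2
    rw [hF]
    constructor
    · rintro ⟨h3, -⟩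
      exact h3
    · intro h3
      refine ⟨h3, ?_⟩
      linarith
  · -- above the threshold
    intro v hv
    show Gd (F h₀) (pos v) = 0
    have h0 : Gd (F h₀) (pos v) = Gd (∅ : Set ℕ) (pos v) := by
      apply Gd_congr
      intro n hn1 hn2
      obtain ⟨n0, n1, n2⟩ := lg_of_mem hn1 hn2
      have h1 := (abs_le.1 (lg_iter (d := d) n0 h₀)).1
      rw [div_lt_iff₀ hth] at hv
      have h2 : pos v = x - K + th * v := by rw [hpos]
      rw [h2] at n1
      rw [hF]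
      constructor
      · rintro ⟨-, h3⟩
        linarith
      · intro h3
        exact absurd h3 (Set.notMem_empty n)
    rw [h0]
    unfold Gd
    simp
  · intro v
    show Gd (F h₀) (pos v) ≤ Gd {n : ℕ | (T d)^[h₀] n ∈ E u} (pos v)
    apply Gd_mono
    intro n _ _ h3
    rw [hF] at h3
    exact h3.1
  · -- the typical positions
    intro v hv
    show |Gd {n : ℕ | (T d)^[h₀] n ∈ E u} (pos v) - δ| ≤ ε₁
    apply l1
    · have h2 : pos v = (x - mu * K) + th * ((v : ℝ) - K / 2) := by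
        rw [hpos]
        unfold mu
        ring
      rw [hbad] at hv
      simp only [not_le] at hv
      rw [h2, hR₂]
      rw [abs_lt] at hv
      have h3 : mu * K = mu * N - mu * h₀ := by
        rw [hKR]
        ring
      have hmu1 : mu ≤ 1 := by
        unfold mu
        linarith
      have h4 : mu * h₀ ≤ √u := by nlinarith
      have h4' : 0 ≤ mu * h₀ := by positivity
      have h5 : √u ≤ B * √u := by nlinarith
      rw [abs_le]
      constructor <;> nlinarith [hx.1, hx.2, hN.1, hN.2, hv.1, hv.2]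
    · rw [hR₂]
      refine hh2.trans (mul_le_mul_of_nonneg_right ?_ hq0.le)
      linarith
  · -- De Moivre, lower
    apply hJ₀ K _ ?_ ?_
    · rw [div_le_iff₀ hκ0] at l12
      have : (J₀ : ℝ) ≤ K := by linarith
      exact_mod_cast this
    · have h1 := hdm (-(h₀ + 1)) (by rw [abs_neg, abs_of_nonneg (by positivity)])
      rw [← sub_eq_add_neg] at h1
      exact h1
  · apply hJ₀ K _ ?_ ?_
    · rw [div_le_iff₀ hκ0] at l12
      have : (J₀ : ℝ) ≤ K := by linarith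
      exact_mod_cast this
    · exact hdm (h₀ + 1) (by rw [abs_of_nonneg (by positivity)])

end Pool.Agent.Lib.MP_edb5be_nt.TS.H58
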