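import Pool.Agent.Lib.MP_edb5be_nt.TS.H58.All

/-!
Project TS: from finite sets `W` to sets with finitely many elements that are not periodic.
-/

set_option autoImplicit false

namespace Pool.Agent.Lib.MP_edb5be_nt.TS.H58

open Finset Filter Topology Pool.Agent.Lib.MP_0a5adf_nt.TP Pool.Agent.Lib.MP_edb5be_nt.ND
  Pool.Agent.Lib.MP_edb5be_nt.ND.H82 Pool.Agent.Lib.MP_edb5be_nt.TS

/-- The integers whose trajectory visits `W`. -/
def HitZ (W : Set ℤ) : Set ℤ := {x : ℤ | ∃ t : ℕ, TZ^[t] x ∈ W}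

/-- The periodic points in a trajectory are in one cycle. -/
theorem orbit_per_finite (m : ℤ) :
    ({z : ℤ | ∃ j : ℕ, TZ^[j] m = z} ∩ Function.periodicPts TZ).Finite := by
  by_cases h : ∃ i : ℕ, TZ^[i] m ∈ Function.periodicPts TZ
  · obtain ⟨i, hi⟩ := h
    obtain ⟨p, hp, hper⟩ := hi
    -- all the terms from `i` on are among `p` values
    have h1 : {z : ℤ | ∃ j : ℕ, TZ^[j] m = z} ⊆
        (fun j => TZ^[j] m) '' (Set.Iio (i + p)) := by
      rintro z ⟨j, rfl⟩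
      by_cases hj : j < i + p
      · exact ⟨j, hj, rfl⟩
      · refine ⟨i + (j - i) % p, ?_, ?_⟩
        · simp only [Set.mem_Iio]
          have := Nat.mod_lt (j - i) hp
          omega
        · have e1 : TZ^[(j - i) % p + p * ((j - i) / p)] (TZ^[i] m) =
              TZ^[(j - i) % p] (TZ^[i] m) := by
            rw [Function.iterate_add_apply]
            congr 1
            have h2 := (hper.const_mul ((j - i) / p)).eq
            rwa [mul_comm] at h2
          rw [Nat.mod_add_div] at e1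
          show TZ^[i + (j - i) % p] m = TZ^[j] m
          rw [add_comm i, Function.iterate_add_apply, ← e1, ← Function.iterate_add_apply]
          congr 1
          omega
    exact ((Set.finite_Iio (i + p)).image _).subset (Set.inter_subset_left.trans h1)
  · refine Set.Finite.subset Set.finite_empty ?_
    rintro z ⟨⟨j, rfl⟩, hz⟩
    exact h ⟨j, hz⟩

/-- If the trajectory of `x` enters `(-y, y)`, then its periodic points are bounded. -/
theorem per_bound (y : ℝ) : ∃ N : ℝ, ∀ x : ℤ, (∃ k : ℕ, |((TZ^[k] x : ℤ) : ℝ)| < y) →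
    ∀ i : ℕ, TZ^[i] x ∈ Function.periodicPts TZ → |((TZ^[i] x : ℤ) : ℝ)| ≤ N := by
  have hfin : {m : ℤ | |(m : ℝ)| < y}.Finite := by
    refine (Set.finite_Icc (-⌈y⌉) ⌈y⌉).subset ?_
    intro m hm
    have h1 : |(m : ℝ)| < y := hm
    rw [abs_lt] at h1
    have h2 : (m : ℝ) < ⌈y⌉ := h1.2.trans_le (Int.le_ceil y)
    have h3 : (-⌈y⌉ : ℝ) < m := by linarith [Int.le_ceil y, h1.1]
    exact ⟨by exact_mod_cast h3.le, by exact_mod_cast h2.le⟩
  have hfin2 : (⋃ m ∈ {m : ℤ | |(m : ℝ)| < y},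
      ({z : ℤ | ∃ j : ℕ, TZ^[j] m = z} ∩ Function.periodicPts TZ)).Finite :=
    hfin.biUnion fun m _ => orbit_per_finite m
  obtain ⟨N, hN⟩ := (hfin2.image fun w : ℤ => |(w : ℝ)|).bddAbove
  refine ⟨N, ?_⟩
  rintro x ⟨k, hk⟩ i hi
  apply hN
  refine ⟨TZ^[i] x, ?_, rfl⟩
  simp only [Set.mem_iUnion]
  refine ⟨TZ^[k] x, hk, ?_, hi⟩
  obtain ⟨p, hp, hper⟩ := hi
  refine ⟨i + p * k - k, ?_⟩
  have hle : k ≤ i + p * k := by
    have : k ≤ p * k := Nat.le_mul_of_pos_left k hp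
    omega
  rw [← Function.iterate_add_apply]
  have e : i + p * k - k + k = p * k + i := by omega
  rw [e, Function.iterate_add_apply]
  have h2 := (hper.const_mul k).eq
  rwa [mul_comm] at h2

/-- The part of `W` in `[-N, N]`, with the elements that are not periodic. -/
def cut (W : Set ℤ) (N : ℝ) : Set ℤ :=
  {w : ℤ | w ∈ W ∧ (w ∉ Function.periodicPts TZ ∨ |(w : ℝ)| ≤ N)}

theorem cut_finite {W : Set ℤ} (hW : (W \ Function.periodicPts TZ).Finite) (N : ℝ) :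
    (cut W N).Finite := by
  have h2 : {m : ℤ | |(m : ℝ)| ≤ N}.Finite := by
    refine (Set.finite_Icc (-⌈N⌉) ⌈N⌉).subset ?_
    intro m hm
    have h1 : |(m : ℝ)| ≤ N := hm
    rw [abs_le] at h1
    have h2 : (m : ℝ) ≤ ⌈N⌉ := h1.2.trans (Int.le_ceil N)
    have h3 : (-⌈N⌉ : ℝ) ≤ m := by linarith [Int.le_ceil N, h1.1]
    exact ⟨by exact_mod_cast h3, by exact_mod_cast h2⟩
  refine (hW.union h2).subset ?_
  rintro w ⟨hw, h | h⟩
  · exact Or.inl ⟨hw, h⟩
  · exact Or.inr h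

theorem cut_visit {W : Set ℤ} {N : ℝ} {x : ℤ}
    (h : ∀ i : ℕ, TZ^[i] x ∈ Function.periodicPts TZ → |((TZ^[i] x : ℤ) : ℝ)| ≤ N) (i : ℕ) :
    TZ^[i] x ∈ cut W N ↔ TZ^[i] x ∈ W := by
  constructor
  · exact fun h1 => h1.1
  · intro h1
    refine ⟨h1, ?_⟩
    by_cases hp : TZ^[i] x ∈ Function.periodicPts TZ
    · exact Or.inr (h i hp)
    · exact Or.inl hp

theorem cnt_diff_le {d : Bool} {A B E : Set ℤ} (h : ∀ x, x ∉ E → (x ∈ A ↔ x ∈ B)) (X : ℝ) :
    |cnt d A X - cnt d B X| ≤ cnt d E X := by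
  have h1 : cnt d A X ≤ cnt d B X + cnt d E X :=
    (H38.cnt_mono d (fun x hx => by
      by_cases hE : x ∈ E
      · exact Or.inr hE
      · exact Or.inl ((h x hE).1 hx)) X).trans (H38.cnt_union_le d B E X)
  have h2 : cnt d B X ≤ cnt d A X + cnt d E X :=
    (H38.cnt_mono d (fun x hx => by
      by_cases hE : x ∈ E
      · exact Or.inr hE
      · exact Or.inl ((h x hE).2 hx)) X).trans (H38.cnt_union_le d A E X)
  rw [abs_le]
  constructor <;> linarith

/-- The set of the integers that visit `W` is invariant outside an interval. -/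
theorem hitZ_inv {W : Set ℤ} (hW : (W \ Function.periodicPts TZ).Finite) :
    ∃ y : ℝ, ∀ x : ℤ, y ≤ |(x : ℝ)| → (x ∈ HitZ W ↔ TZ x ∈ HitZ W) := by
  obtain ⟨B, hB⟩ := (hW.image fun w : ℤ => |(w : ℝ)|).bddAbove
  refine ⟨B + 1, ?_⟩
  intro x hx
  constructor
  · rintro ⟨i, hi⟩
    rcases Nat.eq_zero_or_pos i with h | h
    · rw [h] at hi
      have hxW : x ∈ W := hi
      by_cases hp : x ∈ Function.periodicPts TZ
      · obtain ⟨p, hp, hper⟩ := hp
        refine ⟨p - 1, ?_⟩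
        rw [← Function.iterate_succ_apply, Nat.succ_eq_add_one, Nat.sub_add_cancel hp, hper.eq]
        exact hxW
      · have h1 : |(x : ℝ)| ≤ B := hB ⟨x, ⟨hxW, hp⟩, rfl⟩
        linarith
    · obtain ⟨i', rfl⟩ : ∃ i', i = i' + 1 := ⟨i - 1, by omega⟩
      rw [Function.iterate_succ_apply] at hi
      exact ⟨i', hi⟩
  · rintro ⟨i, hi⟩
    exact ⟨i + 1, by rwa [Function.iterate_succ_apply]⟩

/-- From finite sets to sets with finitely many elements that are not periodic. -/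
theorem ext_inf (d : Bool) (A : Set ℤ → Set ℤ) (κ : ℝ) (hκ0 : 0 ≤ κ) (hκ1 : κ ≤ 1)
    (hA : ∀ (W W' : Set ℤ) (x : ℤ), (∀ i : ℕ, TZ^[i] x ∈ W ↔ TZ^[i] x ∈ W') →
      (x ∈ A W ↔ x ∈ A W'))
    (hfin : ∀ W : Set ℤ, W.Finite → ∀ D : ℝ, HasDens d (HitZ W) D → HasDens d (A W) (D * κ))
    {W : Set ℤ} (hW : (W \ Function.periodicPts TZ).Finite) {D : ℝ}
    (hD : HasDens d (HitZ W) D) : HasDens d (A W) (D * κ) := by
  obtain ⟨c, C, hc, hC, h⟩ := part1T
  obtain ⟨-, -, h3⟩ := h d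
  unfold HasDens
  rw [Metric.tendsto_atTop]
  intro ε hε
  -- `y` with `C / y ^ c < ε / 8`
  obtain ⟨y, hy1, hy2⟩ : ∃ y : ℝ, 1 ≤ y ∧ C / y ^ c < ε / 8 := by
    have h1 : Tendsto (fun y : ℝ => C / y ^ c) atTop (𝓝 0) :=
      (tendsto_rpow_atTop hc).const_div_atTop C
    obtain ⟨y, hy⟩ := ((h1.eventually (gt_mem_nhds (show (0 : ℝ) < ε / 8 by positivity))).and
      (eventually_ge_atTop (1 : ℝ))).exists
    exact ⟨y, hy.2, hy.1⟩
  obtain ⟨N, hN⟩ := per_bound y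
  obtain ⟨y₁, -, hy₁⟩ := hit_inv (cut_finite hW N)
  obtain ⟨D', hD'⟩ := dens_ex d y₁ _ hy₁
  have hkey : ∀ x : ℤ, x ∉ {x : ℤ | ∀ k : ℕ, y ≤ |((TZ^[k] x : ℤ) : ℝ)|} →
      ∀ i : ℕ, TZ^[i] x ∈ W ↔ TZ^[i] x ∈ cut W N := by
    intro x hx i
    simp only [Set.mem_setOf_eq, not_forall, not_le] at hx
    exact (cut_visit (hN x hx) i).symm
  have hE : ∀ X : ℝ, 1 ≤ X → cnt d {x : ℤ | ∀ k : ℕ, y ≤ |((TZ^[k] x : ℤ) : ℝ)|} X / X < ε / 8 := by
    intro X hX
    refine lt_of_le_of_lt ?_ hy2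
    rw [div_le_iff₀ (by linarith)]
    refine (h3 X y hX hy1).trans_eq ?_
    ring
  have hf := hfin _ (cut_finite hW N) D' hD'
  have hH : Tendsto (fun X : ℝ => cnt d (HitZ W) X / X - cnt d (HitZ (cut W N)) X / X) atTop
      (𝓝 (D - D')) := hD.sub hD'
  have hDD : |D - D'| ≤ ε / 8 := by
    refine le_of_tendsto hH.abs ?_
    filter_upwards [eventually_ge_atTop (1 : ℝ)] with X hX
    rw [← sub_div, abs_div, abs_of_pos (show (0 : ℝ) < X by linarith)]
    refine le_trans ?_ (hE X hX).le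
    refine div_le_div_of_nonneg_right ?_ (by linarith)
    refine cnt_diff_le (fun x hx => ?_) X
    constructor
    · rintro ⟨t, ht⟩
      exact ⟨t, (hkey x hx t).1 ht⟩
    · rintro ⟨t, ht⟩
      exact ⟨t, (hkey x hx t).2 ht⟩
  unfold HasDens at hf
  rw [Metric.tendsto_atTop] at hf
  obtain ⟨X₀, hX₀⟩ := hf (ε / 2) (by positivity)
  refine ⟨max X₀ 1, fun X hX => ?_⟩
  have hX1 : (1 : ℝ) ≤ X := (le_max_right _ _).trans hX
  have h4 := hX₀ X ((le_max_left _ _).trans hX)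
  rw [Real.dist_eq] at h4 ⊢
  have h5 : |cnt d (A W) X / X - cnt d (A (cut W N)) X / X| ≤ ε / 8 := by
    rw [← sub_div, abs_div, abs_of_pos (show (0 : ℝ) < X by linarith)]
    refine le_trans ?_ (hE X hX1).le
    refine div_le_div_of_nonneg_right ?_ (by linarith)
    exact cnt_diff_le (fun x hx => hA W (cut W N) x (hkey x hx)) X
  have h6 : |D' * κ - D * κ| ≤ ε / 8 := by
    rw [← sub_mul, abs_mul, abs_of_nonneg hκ0, abs_sub_comm]
    calc |D - D'| * κ ≤ ε / 8 * 1 := mul_le_mul hDD hκ1 hκ0 (by positivity)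
      _ = ε / 8 := mul_one _
  have e : cnt d (A W) X / X - D * κ = (cnt d (A W) X / X - cnt d (A (cut W N)) X / X) +
      (cnt d (A (cut W N)) X / X - D' * κ) + (D' * κ - D * κ) := by ring
  rw [e]
  refine lt_of_le_of_lt (abs_add_three _ _ _) ?_
  linarith

end Pool.Agent.Lib.MP_edb5be_nt.TS.H58
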